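import Pool.Agent.L7h56.OS.Rec

/-!
# Counting symmetric matrices by the transfer of rows
-/

set_option autoImplicit false

namespace Pool.Agent.L7h56.OS

open Polynomial (C X)

/-- `0` or `1` -/
def bi (c : Bool) : ℤ := cond c 1 0

theorem bi_or (c : Bool) : bi c = 0 ∨ bi c = 1 := by cases c <;> simp [bi]

theorem bi_inj {c d : Bool} (h : bi c = bi d) : c = d := by
  cases c <;> cases d <;> simp_all [bi]

/-- partial sums -/
def psum {n : ℕ} (f : Fin n → ℤ) (k : Fin n) : ℤ := ∑ j ∈ Finset.Iic k, f j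

theorem psum_eq {n : ℕ} (f : Fin n → ℤ) (k : Fin n) : psum f k = ∑ j, if j ≤ k then f j else 0 := by
  unfold psum
  rw [← Finset.sum_filter]
  congr 1
  ext j
  simp

theorem psum_zero {n : ℕ} (f : Fin (n + 1) → ℤ) : psum f 0 = f 0 := by
  rw [psum_eq, Finset.sum_eq_single 0]
  · simp
  · intro j _ hj
    rw [if_neg]
    intro h
    exact hj (Fin.le_zero_iff.1 h)
  · simp

theorem psum_succ {n : ℕ} (f : Fin (n + 1) → ℤ) (k : Fin n) :
    psum f k.succ = f 0 + psum (fun j => f j.succ) k := by
  rw [psum_eq, psum_eq, Fin.sum_univ_succ]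
  simp

/-- a valid row: `h` is the incoming state, `b` the old and `b'` the new column states -/
def OK {n : ℕ} (h : Bool) (b b' : Fin n → Bool) : Prop :=
  (∀ k, bi h + psum (fun j => bi (b' j) - bi (b j)) k = 0 ∨
    bi h + psum (fun j => bi (b' j) - bi (b j)) k = 1) ∧
  bi h + ∑ j, (bi (b' j) - bi (b j)) = 1

theorem OK_zero (h : Bool) (b b' : Fin 0 → Bool) : OK h b b' ↔ h = true := by
  cases h <;> simp [OK, bi]

theorem OK_succ {n : ℕ} (h c c' : Bool) (b b' : Fin n → Bool) :
    OK h (Fin.cons c b : Fin (n + 1) → Bool) (Fin.cons c' b' : Fin (n + 1) → Bool) ↔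
      ∃ h' : Bool, bi h' = bi h + bi c' - bi c ∧ OK h' b b' := by
  constructor
  · rintro ⟨h1, h2⟩
    have h3 := h1 0
    rw [psum_zero] at h3
    simp only [Fin.cons_zero] at h3
    obtain ⟨h', hh'⟩ : ∃ h' : Bool, bi h' = bi h + bi c' - bi c := by
      rcases h3 with h3 | h3
      · exact ⟨false, by simp only [bi, cond_false] at h3 ⊢; linarith⟩
      · exact ⟨true, by simp only [bi, cond_true] at h3 ⊢; linarith⟩
    refine ⟨h', hh', fun k => ?_, ?_⟩
    · have h4 := h1 k.succ
      rw [psum_succ] at h4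
      simp only [Fin.cons_zero, Fin.cons_succ] at h4
      rw [hh']
      rcases h4 with h4 | h4
      · left; linarith
      · right; linarith
    · rw [Fin.sum_univ_succ] at h2
      simp only [Fin.cons_zero, Fin.cons_succ] at h2
      rw [hh']
      linarith
  · rintro ⟨h', hh', h1, h2⟩
    refine ⟨fun k => ?_, ?_⟩
    · refine Fin.cases ?_ (fun k => ?_) k
      · rw [psum_zero]
        simp only [Fin.cons_zero]
        rcases bi_or h' with h3 | h3
        · left; linarith
        · right; linarith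
      · rw [psum_succ]
        simp only [Fin.cons_zero, Fin.cons_succ]
        rcases h1 k with h4 | h4
        · left; linarith
        · right; linarith
    · rw [Fin.sum_univ_succ]
      simp only [Fin.cons_zero, Fin.cons_succ]
      linarith

instance OK_dec {n : ℕ} (h : Bool) (b b' : Fin n → Bool) : Decidable (OK h b b') := by
  unfold OK
  infer_instance

/-- the transfer of a homogeneous row as a sum over new states -/
theorem rowT_zero {R : Type*} [CommRing R] : ∀ (n : ℕ) (F : List Bool → R) (h : Bool)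
    (b : Fin n → Bool), rowT (0 : R) (List.replicate n 0) F h (List.ofFn b) =
      ∑ b' : Fin n → Bool, if OK h b b' then F (List.ofFn b') else 0 := by
  intro n
  induction n with
  | zero =>
    intro F h b
    rw [Fintype.sum_unique]
    simp only [OK_zero, List.replicate_zero, List.ofFn_zero, rowT]
    cases h <;> simp
  | succ n ih =>
    intro F h b
    obtain ⟨c, b, rfl⟩ : ∃ (c : Bool) (b0 : Fin n → Bool), b = Fin.cons c b0 :=
      ⟨b 0, Fin.tail b, (Fin.cons_self_tail b).symm⟩
    have e1 : List.ofFn (Fin.cons c b : Fin (n + 1) → Bool) = c :: List.ofFn b := by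
      simp [List.ofFn_succ]
    rw [e1, List.replicate_succ, rowT_cons]
    have e2 : (∑ b' : Fin (n + 1) → Bool, if OK h (Fin.cons c b : Fin (n + 1) → Bool) b' then
        F (List.ofFn b') else 0) = ∑ c' : Bool, ∑ b' : Fin n → Bool,
          if OK h (Fin.cons c b : Fin (n + 1) → Bool) (Fin.cons c' b' : Fin (n + 1) → Bool) then
            F (c' :: List.ofFn b') else 0 := by
      rw [← Fintype.sum_prod_type' (fun (c' : Bool) (b' : Fin n → Bool) =>
          if OK h (Fin.cons c b : Fin (n + 1) → Bool) (Fin.cons c' b' : Fin (n + 1) → Bool) then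
            F (c' :: List.ofFn b') else 0)]
      symm
      apply Fintype.sum_equiv (Fin.consEquiv (fun _ => Bool))
      rintro ⟨c', b'⟩
      have e3 : List.ofFn (Fin.cons c' b' : Fin (n + 1) → Bool) = c' :: List.ofFn b' := by
        simp [List.ofFn_succ]
      simp only
      rw [← e3]
      rfl
    rw [e2, Finset.sum_comm]
    apply Finset.sum_congr rfl
    intro c' _
    simp only [ih, OK_succ]
    cases h <;> cases c <;> cases c' <;>
      simp [L, g, bi]

/-- the number of nonzero diagonal entries -/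
def nz {n : ℕ} (A : Matrix (Fin n) (Fin n) ℤ) : ℕ := ∑ i, if A i i = 0 then 0 else 1

/-- symmetric matrices with incoming column states `b` -/
def Good {n : ℕ} (b : Fin n → Bool) (A : Matrix (Fin n) (Fin n) ℤ) : Prop :=
  (∀ i j, A i j = A j i) ∧
  (∀ i k, bi (b i) + psum (A i) k = 0 ∨ bi (b i) + psum (A i) k = 1) ∧
  (∀ i, bi (b i) + ∑ j, A i j = 1)

/-- the matrices to be counted -/
abbrev SS (n : ℕ) (b : Fin n → Bool) (δ k : ℕ) : Type :=
  {A : Matrix (Fin n) (Fin n) ℤ // Good b A ∧ nz A + δ = k}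

/-- the number of changes -/
def dlt (c h : Bool) : ℕ := if c = h then 0 else 1

/-- adding a first row and column -/
def ext1 {n : ℕ} (c h : Bool) (b b' : Fin n → Bool) (A : Matrix (Fin n) (Fin n) ℤ) :
    Matrix (Fin (n + 1)) (Fin (n + 1)) ℤ := fun i j =>
  (Fin.cons (Fin.cons (bi h - bi c) (fun j => bi (b' j) - bi (b j)) : Fin (n + 1) → ℤ)
    (fun i => (Fin.cons (bi (b' i) - bi (b i)) (A i) : Fin (n + 1) → ℤ)) :
      Fin (n + 1) → Fin (n + 1) → ℤ) i j

theorem ext1_00 {n : ℕ} (c h : Bool) (b b' : Fin n → Bool) (A : Matrix (Fin n) (Fin n) ℤ) :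
    ext1 c h b b' A 0 0 = bi h - bi c := rfl
theorem ext1_0s {n : ℕ} (c h : Bool) (b b' : Fin n → Bool) (A : Matrix (Fin n) (Fin n) ℤ)
    (j : Fin n) : ext1 c h b b' A 0 j.succ = bi (b' j) - bi (b j) := rfl
theorem ext1_s0 {n : ℕ} (c h : Bool) (b b' : Fin n → Bool) (A : Matrix (Fin n) (Fin n) ℤ)
    (i : Fin n) : ext1 c h b b' A i.succ 0 = bi (b' i) - bi (b i) := rfl
theorem ext1_ss {n : ℕ} (c h : Bool) (b b' : Fin n → Bool) (A : Matrix (Fin n) (Fin n) ℤ)
    (i j : Fin n) : ext1 c h b b' A i.succ j.succ = A i j := rfl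

theorem nz_succ {n : ℕ} (A : Matrix (Fin (n + 1)) (Fin (n + 1)) ℤ) :
    nz A = (if A 0 0 = 0 then 0 else 1) + nz (fun i j : Fin n => A i.succ j.succ) := by
  unfold nz
  rw [Fin.sum_univ_succ]

theorem ext1_nz {n : ℕ} (c h : Bool) (b b' : Fin n → Bool) (A : Matrix (Fin n) (Fin n) ℤ) :
    nz (ext1 c h b b' A) = dlt c h + nz A := by
  rw [nz_succ, ext1_00]
  have : (fun i j : Fin n => ext1 c h b b' A i.succ j.succ) = A := rfl
  rw [this]
  congr 1
  cases c <;> cases h <;> simp [bi, dlt]

theorem ext1_good {n : ℕ} (c h : Bool) (b b' : Fin n → Bool) (A : Matrix (Fin n) (Fin n) ℤ)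
    (h1 : OK h b b') (h2 : Good b' A) :
    Good (Fin.cons c b : Fin (n + 1) → Bool) (ext1 c h b b' A) := by
  obtain ⟨g1, g2, g3⟩ := h2
  obtain ⟨o1, o2⟩ := h1
  refine ⟨?_, ?_, ?_⟩
  · intro i j
    refine Fin.cases ?_ (fun i => ?_) i <;> refine Fin.cases ?_ (fun j => ?_) j
    · rfl
    · rfl
    · rfl
    · exact g1 i j
  · intro i k
    refine Fin.cases ?_ (fun i => ?_) i <;> refine Fin.cases ?_ (fun k => ?_) k
    · rw [psum_zero, ext1_00, Fin.cons_zero]
      have := bi_or h
      rcases this with h3 | h3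
      · left; linarith
      · right; linarith
    · rw [psum_succ, ext1_00, Fin.cons_zero]
      have e : (fun j : Fin n => ext1 c h b b' A 0 j.succ) = fun j => bi (b' j) - bi (b j) := rfl
      rw [e]
      rcases o1 k with h3 | h3
      · left; linarith
      · right; linarith
    · rw [psum_zero, ext1_s0, Fin.cons_succ]
      have := bi_or (b' i)
      rcases this with h3 | h3
      · left; linarith
      · right; linarith
    · rw [psum_succ, ext1_s0, Fin.cons_succ]
      have e : (fun j : Fin n => ext1 c h b b' A i.succ j.succ) = A i := rfl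
      rw [e]
      rcases g2 i k with h3 | h3
      · left; linarith
      · right; linarith
  · intro i
    rw [Fin.sum_univ_succ]
    refine Fin.cases ?_ (fun i => ?_) i
    · simp only [ext1_00, ext1_0s, Fin.cons_zero]
      linarith
    · simp only [ext1_s0, ext1_ss, Fin.cons_succ]
      have := g3 i
      linarith

/-- the Boolean value of an integer -/
def ib (z : ℤ) : Bool := decide (z = 1)

theorem bi_ib {z : ℤ} (h : z = 0 ∨ z = 1) : bi (ib z) = z := by
  rcases h with rfl | rfl <;> simp [bi, ib]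

theorem ib_bi (c : Bool) : ib (bi c) = c := by cases c <;> simp [bi, ib]

theorem good_red {n : ℕ} (c : Bool) (b : Fin n → Bool) (A : Matrix (Fin (n + 1)) (Fin (n + 1)) ℤ)
    (hA : Good (Fin.cons c b : Fin (n + 1) → Bool) A) :
    bi (ib (bi c + A 0 0)) = bi c + A 0 0 ∧
    (∀ j : Fin n, bi (ib (bi (b j) + A 0 j.succ)) = bi (b j) + A 0 j.succ) ∧
    OK (ib (bi c + A 0 0)) b (fun j => ib (bi (b j) + A 0 j.succ)) ∧
    Good (fun j => ib (bi (b j) + A 0 j.succ)) (fun i j : Fin n => A i.succ j.succ) := by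
  obtain ⟨g1, g2, g3⟩ := hA
  have e1 : bi (ib (bi c + A 0 0)) = bi c + A 0 0 := by
    apply bi_ib
    have := g2 0 0
    rw [psum_zero, Fin.cons_zero] at this
    exact this
  have e2 : ∀ j : Fin n, bi (ib (bi (b j) + A 0 j.succ)) = bi (b j) + A 0 j.succ := by
    intro j
    apply bi_ib
    have := g2 j.succ 0
    rw [psum_zero, Fin.cons_succ, g1] at this
    exact this
  have e3 : (fun j : Fin n => bi (ib (bi (b j) + A 0 j.succ)) - bi (b j)) =
      fun j => A 0 j.succ := by
    funext j
    rw [e2]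
    ring
  refine ⟨e1, e2, ⟨?_, ?_⟩, ?_, ?_, ?_⟩
  · intro k
    have := g2 0 k.succ
    rw [psum_succ, Fin.cons_zero] at this
    rw [e1, e3]
    rcases this with h | h
    · left; linarith
    · right; linarith
  · have := g3 0
    rw [Fin.sum_univ_succ, Fin.cons_zero] at this
    have e4 : ∑ j : Fin n, (bi (ib (bi (b j) + A 0 j.succ)) - bi (b j)) = ∑ j : Fin n, A 0 j.succ :=
      Finset.sum_congr rfl (fun j _ => congrFun e3 j)
    rw [e1, e4]
    linarith
  · intro i j
    exact g1 _ _
  · intro i k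
    have := g2 i.succ k.succ
    rw [psum_succ, Fin.cons_succ, g1 i.succ 0] at this
    simp only
    rw [e2]
    rcases this with h | h
    · left; linarith
    · right; linarith
  · intro i
    have := g3 i.succ
    rw [Fin.sum_univ_succ, Fin.cons_succ, g1 i.succ 0] at this
    simp only
    rw [e2]
    linarith

theorem ext1_red {n : ℕ} (c : Bool) (b : Fin n → Bool) (A : Matrix (Fin (n + 1)) (Fin (n + 1)) ℤ)
    (hA : Good (Fin.cons c b : Fin (n + 1) → Bool) A) :
    ext1 c (ib (bi c + A 0 0)) b (fun j => ib (bi (b j) + A 0 j.succ))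
      (fun i j : Fin n => A i.succ j.succ) = A := by
  obtain ⟨e1, e2, -, -⟩ := good_red c b A hA
  apply Matrix.ext
  intro i j
  refine Fin.cases ?_ (fun i => ?_) i <;> refine Fin.cases ?_ (fun j => ?_) j
  · change bi (ib (bi c + A 0 0)) - bi c = A 0 0
    rw [e1]; ring
  · change bi (ib (bi (b j) + A 0 j.succ)) - bi (b j) = A 0 j.succ
    rw [e2]; ring
  · change bi (ib (bi (b i) + A 0 i.succ)) - bi (b i) = A i.succ 0
    rw [e2, hA.1 i.succ 0]; ring
  · rfl

/-- removing the first row and column -/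
def redEquiv (n : ℕ) (c : Bool) (b : Fin n → Bool) (k : ℕ) :
    SS (n + 1) (Fin.cons c b : Fin (n + 1) → Bool) 0 k ≃
      {q : (Bool × (Fin n → Bool)) × Matrix (Fin n) (Fin n) ℤ //
        OK q.1.1 b q.1.2 ∧ Good q.1.2 q.2 ∧ nz q.2 + dlt c q.1.1 = k} where
  toFun A := ⟨((ib (bi c + A.1 0 0), fun j => ib (bi (b j) + A.1 0 j.succ)),
      fun i j => A.1 i.succ j.succ), (good_red c b A.1 A.2.1).2.2.1,
      (good_red c b A.1 A.2.1).2.2.2, by
        have h1 := A.2.2
        have h2 := (good_red c b A.1 A.2.1).1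
        rw [nz_succ] at h1
        have h3 : dlt c (ib (bi c + A.1 0 0)) = if A.1 0 0 = 0 then 0 else 1 := by
          unfold dlt
          by_cases h4 : A.1 0 0 = 0
          · rw [if_pos h4, h4, add_zero, ib_bi, if_pos rfl]
          · rw [if_neg h4, if_neg]
            intro h5
            rw [← h5] at h2
            apply h4
            linarith
        simp only
        rw [h3]
        omega⟩
  invFun q := ⟨ext1 c q.1.1.1 b q.1.1.2 q.1.2, ext1_good _ _ _ _ _ q.2.1 q.2.2.1, by
    rw [ext1_nz]
    have := q.2.2.2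
    omega⟩
  left_inv A := Subtype.ext (ext1_red c b A.1 A.2.1)
  right_inv q := by
    obtain ⟨⟨⟨h, b'⟩, A⟩, hp, hA⟩ := q
    apply Subtype.ext
    simp only [ext1_00, ext1_0s, ext1_ss, add_sub_cancel, ib_bi]

/-- the count as a coefficient -/
theorem card_SS : ∀ (n : ℕ) (b : Fin n → Bool) (k : ℕ), Finite (SS n b 0 k) ∧
    (Nat.card (SS n b 0 k) : ℚ) = (Z (X : Polynomial ℚ) (List.replicate n (C 0)) (List.ofFn b)).coeff k := by
  intro n
  induction n with
  | zero =>
    intro b k
    have hs : ∀ A A' : SS 0 b 0 k, A = A' := fun A A' => Subtype.ext (by ext i; exact i.elim0)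
    have hsub : Subsingleton (SS 0 b 0 k) := ⟨hs⟩
    refine ⟨inferInstance, ?_⟩
    rw [List.replicate_zero, List.ofFn_zero, Z, Polynomial.coeff_one]
    rcases k with _ | k
    · have : Nonempty (SS 0 b 0 0) := ⟨⟨0, ⟨fun i => i.elim0, fun i => i.elim0, fun i => i.elim0⟩,
        by simp [nz]⟩⟩
      rw [Nat.card_eq_one_iff_unique.2 ⟨hsub, this⟩]
      simp
    · have : IsEmpty (SS 0 b 0 (k + 1)) := ⟨fun A => by
        have := A.2.2
        simp [nz] at this⟩
      rw [Nat.card_of_isEmpty]
      simp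
  | succ n ih =>
    intro b k
    obtain ⟨c, b, rfl⟩ : ∃ (c : Bool) (b0 : Fin n → Bool), b = Fin.cons c b0 :=
      ⟨b 0, Fin.tail b, (Fin.cons_self_tail b).symm⟩
    have E := (redEquiv n c b k).trans (Equiv.subtypeProdEquivSigmaSubtype
      (fun (p : Bool × (Fin n → Bool)) (A : Matrix (Fin n) (Fin n) ℤ) =>
        OK p.1 b p.2 ∧ Good p.2 A ∧ nz A + dlt c p.1 = k))
    -- the fibres
    have hfib : ∀ p : Bool × (Fin n → Bool),
        Finite {A : Matrix (Fin n) (Fin n) ℤ // OK p.1 b p.2 ∧ Good p.2 A ∧ nz A + dlt c p.1 = k} ∧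
        (Nat.card {A : Matrix (Fin n) (Fin n) ℤ //
          OK p.1 b p.2 ∧ Good p.2 A ∧ nz A + dlt c p.1 = k} : ℚ) =
        if OK p.1 b p.2 then (if c = p.1 then
            (Z (X : Polynomial ℚ) (List.replicate n (C 0)) (List.ofFn p.2)).coeff k else
          (X * Z (X : Polynomial ℚ) (List.replicate n (C 0)) (List.ofFn p.2)).coeff k) else 0 := by
      intro p
      by_cases hOK : OK p.1 b p.2
      · rw [if_pos hOK]
        by_cases hc : c = p.1
        · rw [if_pos hc]
          have e : {A : Matrix (Fin n) (Fin n) ℤ // OK p.1 b p.2 ∧ Good p.2 A ∧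
              nz A + dlt c p.1 = k} = SS n p.2 0 k := by
            simp only [hOK, true_and, dlt, if_pos hc]
          rw [e]
          exact ih p.2 k
        · rw [if_neg hc]
          have hd : dlt c p.1 = 1 := by
            unfold dlt
            rw [if_neg hc]
          rcases k with _ | k
          · have : IsEmpty {A : Matrix (Fin n) (Fin n) ℤ // OK p.1 b p.2 ∧ Good p.2 A ∧
                nz A + dlt c p.1 = 0} := ⟨fun A => by
              have := A.2.2.2
              omega⟩
            refine ⟨inferInstance, ?_⟩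
            rw [Nat.card_of_isEmpty]
            simp
          · have e : {A : Matrix (Fin n) (Fin n) ℤ // OK p.1 b p.2 ∧ Good p.2 A ∧
                nz A + dlt c p.1 = k + 1} = SS n p.2 0 k := by
              have e1 : ∀ A : Matrix (Fin n) (Fin n) ℤ, nz A + 1 = k + 1 ↔ nz A + 0 = k := by
                intro A; omega
              simp only [hOK, true_and, hd, e1]
            rw [e, Polynomial.coeff_X_mul]
            exact ih p.2 k
      · rw [if_neg hOK]
        have : IsEmpty {A : Matrix (Fin n) (Fin n) ℤ // OK p.1 b p.2 ∧ Good p.2 A ∧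
            nz A + dlt c p.1 = k} := ⟨fun A => hOK A.2.1⟩
        refine ⟨inferInstance, ?_⟩
        rw [Nat.card_of_isEmpty]
        simp
    have hfin : ∀ p : Bool × (Fin n → Bool), Finite {A : Matrix (Fin n) (Fin n) ℤ //
        OK p.1 b p.2 ∧ Good p.2 A ∧ nz A + dlt c p.1 = k} := fun p => (hfib p).1
    refine ⟨Finite.of_equiv _ E.symm, ?_⟩
    rw [Nat.card_congr E, Nat.card_sigma, Nat.cast_sum, Finset.sum_congr rfl (fun p _ => (hfib p).2)]
    have e1 : List.ofFn (Fin.cons c b : Fin (n + 1) → Bool) = c :: List.ofFn b := by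
      simp [List.ofFn_succ]
    have e0 : (C 0 : Polynomial ℚ) = 0 := map_zero _
    rw [e1, List.replicate_succ, Z_cons, e0]
    simp only [rowT_zero]
    rw [Fintype.sum_prod_type, Polynomial.finsetSum_coeff]
    apply Finset.sum_congr rfl
    intro h _
    rw [Finset.mul_sum, Polynomial.finsetSum_coeff]
    apply Finset.sum_congr rfl
    intro b' _
    by_cases hOK : OK h b b'
    · simp only [if_pos hOK]
      cases c <;> cases h <;> simp [K, g]
    · simp only [if_neg hOK, mul_zero, Polynomial.coeff_zero]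

theorem card_Z1 (N : ℕ) : (Nat.card (SS N (fun _ => false) 0 1) : ℚ) =
    Z1 (List.replicate N (0 : ℚ)) := by
  rw [(card_SS N (fun _ => false) 1).2, Z1, ZX, Zz, List.map_replicate, List.length_replicate,
    List.ofFn_const]

theorem psum_last {n : ℕ} (f : Fin (n + 1) → ℤ) : psum f (Fin.last n) = ∑ j, f j := by
  rw [psum_eq]
  apply Finset.sum_congr rfl
  intro j _
  rw [if_pos (Fin.le_last j)]

/-- entries from partial sums -/
theorem entry_of {n : ℕ} (f : Fin n → ℤ) (h : ∀ k, psum f k = 0 ∨ psum f k = 1) (k : Fin n) :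
    f k = -1 ∨ f k = 0 ∨ f k = 1 := by
  obtain ⟨m, rfl⟩ : ∃ m, n = m + 1 := ⟨n - 1, by have := k.2; omega⟩
  refine Fin.cases ?_ (fun k => ?_) k
  · have := h 0
    rw [psum_zero] at this
    rcases this with h | h <;> simp [h]
  · have h1 : psum f k.succ = psum f k.castSucc + f k.succ := by
      unfold psum
      have e : Finset.Iic k.succ = insert k.succ (Finset.Iic k.castSucc) := by
        ext j
        simp only [Finset.mem_Iic, Finset.mem_insert, Fin.le_def, Fin.ext_iff, Fin.val_succ,
          Fin.val_castSucc]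
        omega
      rw [e, Finset.sum_insert]
      · ring
      · simp [Fin.le_def]
    have h2 := h k.succ
    have h3 := h k.castSucc
    rcases h2 with h2 | h2 <;> rcases h3 with h3 | h3 <;> omega

/-- the trace is odd -/
theorem nz_ne_zero (n : ℕ) (A : Matrix (Fin (2 * n + 1)) (Fin (2 * n + 1)) ℤ)
    (h1 : ∀ i j, A i j = A j i) (h2 : ∀ i, ∑ j, A i j = 1) : ∃ i, A i i ≠ 0 := by
  by_contra h0
  push Not at h0
  have h3 : ∑ i, ∑ j, A i j = 2 * n + 1 := by
    rw [Finset.sum_congr rfl (fun i _ => h2 i)]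
    simp
  have h4 : ∑ i, ∑ j, A i j = 2 * ∑ i, ∑ j, if i < j then A i j else 0 := by
    have e1 : ∀ i j, A i j = (if i < j then A i j else 0) + (if j < i then A j i else 0) := by
      intro i j
      rcases lt_trichotomy i j with h | h | h
      · rw [if_pos h, if_neg (not_lt.2 h.le), add_zero]
      · subst h
        simp [h0]
      · rw [if_pos h, if_neg (not_lt.2 h.le), zero_add, h1]
    calc ∑ i, ∑ j, A i j = ∑ i, ∑ j, ((if i < j then A i j else 0) +
        (if j < i then A j i else 0)) :=
          Finset.sum_congr rfl fun i _ => Finset.sum_congr rfl fun j _ => e1 i j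
      _ = (∑ i, ∑ j, if i < j then A i j else 0) + ∑ i, ∑ j, if j < i then A j i else 0 := by
          simp only [Finset.sum_add_distrib]
      _ = _ := by
          rw [Finset.sum_comm (f := fun i j => if j < i then A j i else 0)]
          ring
  omega

theorem nz_eq_one {n : ℕ} (A : Matrix (Fin n) (Fin n) ℤ) :
    nz A = 1 ↔ (∃ i, A i i ≠ 0) ∧ ∃ d, ∀ i, i ≠ d → A i i = 0 := by
  have e : nz A = (Finset.univ.filter fun i => A i i ≠ 0).card := by
    rw [nz, Finset.card_filter]
    apply Finset.sum_congr rfl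
    intro i _
    by_cases h : A i i = 0 <;> simp [h]
  rw [e, Finset.card_eq_one]
  constructor
  · rintro ⟨d, hd⟩
    refine ⟨⟨d, ?_⟩, d, ?_⟩
    · have : d ∈ (Finset.univ.filter fun i => A i i ≠ 0) := by rw [hd]; simp
      simpa using this
    · intro i hi
      by_contra h
      have : i ∈ (Finset.univ.filter fun i => A i i ≠ 0) := by simpa using h
      rw [hd] at this
      exact hi (by simpa using this)
  · rintro ⟨⟨i, hi⟩, d, hd⟩
    refine ⟨d, ?_⟩
    have hid : i = d := by
      by_contra h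
      exact hi (hd i h)
    subst hid
    ext j
    simp only [Finset.mem_filter, Finset.mem_univ, true_and, Finset.mem_singleton]
    constructor
    · intro h
      by_contra h'
      exact h (hd j h')
    · rintro rfl
      exact hi

/-- the set of the problem -/
theorem card_problem (n : ℕ) :
    Nat.card {A : Matrix (Fin (2 * n + 1)) (Fin (2 * n + 1)) ℤ //
          (∀ i j, A i j = -1 ∨ A i j = 0 ∨ A i j = 1) ∧
          (∀ i k, (∑ j ∈ Finset.Iic k, A i j) = 0 ∨ (∑ j ∈ Finset.Iic k, A i j) = 1) ∧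
          (∀ i, (∑ j, A i j) = 1) ∧
          (∀ j k, (∑ i ∈ Finset.Iic k, A i j) = 0 ∨ (∑ i ∈ Finset.Iic k, A i j) = 1) ∧
          (∀ j, (∑ i, A i j) = 1) ∧
          (∀ i j, A i j = A j i) ∧
          (∃ d : Fin (2 * n + 1), ∀ i, i ≠ d → A i i = 0)} =
      Nat.card (SS (2 * n + 1) (fun _ => false) 0 1) := by
  apply Nat.card_congr
  apply Equiv.subtypeEquivRight
  intro A
  constructor
  · rintro ⟨-, h2, h3, -, -, h6, h7⟩
    refine ⟨⟨h6, ?_, ?_⟩, ?_⟩
    · intro i k
      simp only [bi, cond_false, zero_add]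
      exact h2 i k
    · intro i
      simp only [bi, cond_false, zero_add]
      exact h3 i
    · rw [add_zero, nz_eq_one]
      exact ⟨nz_ne_zero n A h6 h3, h7⟩
  · rintro ⟨⟨h6, h2, h3⟩, h7⟩
    simp only [bi, cond_false, zero_add] at h2 h3
    rw [add_zero, nz_eq_one] at h7
    have e : ∀ j, (fun i => A i j) = A j := fun j => funext fun i => h6 i j
    refine ⟨fun i j => entry_of (A i) (h2 i) j, h2, h3, ?_, ?_, h6, h7.2⟩
    · intro j k
      have := h2 j k
      unfold psum at this
      simp only [h6 _ j]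
      exact this
    · intro j
      simp only [h6 _ j]
      exact h3 j

end Pool.Agent.L7h56.OS
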