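import Pool.Agent.L7h56.OS.Gf
import Pool.Agent.Helper929.Pfaffian

/-!
# Bordered Pfaffians
-/

set_option autoImplicit false

namespace Pool.Agent.L7h56.OS

open Pool.Agent.Helper929 (pf pf_gram)

/-- the skew-symmetric matrix of an array given for `a < b` -/
def skewM (N : ℕ) (f : ℕ → ℕ → ℚ) : Matrix (Fin N) (Fin N) ℚ := fun a b =>
  if a < b then f a b else if b < a then - f b a else 0

/-- the array with entries `c a b` for `b ≤ 2 n` and last column `v` -/
noncomputable def bord (n : ℕ) (v : ℕ → ℚ) (a b : ℕ) : ℚ := if b ≤ 2 * n then c a b else v a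

theorem skewM_skew (N : ℕ) (f : ℕ → ℕ → ℚ) (i j : Fin N) : skewM N f i j = - skewM N f j i := by
  unfold skewM
  rcases lt_trichotomy i j with h | h | h
  · rw [if_pos h, if_neg (not_lt.2 h.le), if_pos h, neg_neg]
  · subst h; simp
  · rw [if_neg (not_lt.2 h.le), if_pos h, if_pos h]

theorem c_self (a : ℕ) : c a a = 0 := by
  have := c_skew a a
  linarith

/-- the entries of the bordered matrix -/
theorem bord_cc (n : ℕ) (v : ℕ → ℚ) (i j : Fin (2 * n + 1)) :
    skewM (2 * n + 2) (bord n v) i.castSucc j.castSucc = c i j := by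
  unfold skewM bord
  have hi : (i : ℕ) ≤ 2 * n := by omega
  have hj : (j : ℕ) ≤ 2 * n := by omega
  simp only [Fin.lt_def, Fin.val_castSucc, hi, hj, if_true]
  rcases lt_trichotomy (i : ℕ) j with h | h | h
  · rw [if_pos h]
  · rw [h]; simp [c_self]
  · rw [if_neg (not_lt.2 h.le), if_pos h, c_skew j i, neg_neg]

theorem bord_cl (n : ℕ) (v : ℕ → ℚ) (i : Fin (2 * n + 1)) :
    skewM (2 * n + 2) (bord n v) i.castSucc (Fin.last (2 * n + 1)) = v i := by
  unfold skewM bord
  have hi : (i : ℕ) < 2 * n + 1 := i.2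
  simp [Fin.lt_def]
  intro h
  omega

theorem bord_lc (n : ℕ) (v : ℕ → ℚ) (i : Fin (2 * n + 1)) :
    skewM (2 * n + 2) (bord n v) (Fin.last (2 * n + 1)) i.castSucc = - v i := by
  rw [skewM_skew, bord_cl]

theorem bord_ll (n : ℕ) (v : ℕ → ℚ) :
    skewM (2 * n + 2) (bord n v) (Fin.last (2 * n + 1)) (Fin.last (2 * n + 1)) = 0 := by
  simp [skewM]

/-- `pf` of the negative -/
theorem pf_neg : ∀ (m : ℕ) (A : Matrix (Fin (2 * m)) (Fin (2 * m)) ℚ),
    pf (2 * m) (-A) = (-1) ^ m * pf (2 * m) A := by
  intro m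
  induction m with
  | zero => intro A; simp [pf]
  | succ m ih =>
    intro A
    change pf (2 * m + 2) (-A) = (-1) ^ (m + 1) * pf (2 * m + 2) A
    rw [pf, pf, Finset.mul_sum]
    apply Finset.sum_congr rfl
    intro j _
    have h : (-A).submatrix (fun k => (j.succAbove k).succ) (fun k => (j.succAbove k).succ) =
        -(A.submatrix (fun k => (j.succAbove k).succ) (fun k => (j.succAbove k).succ)) := rfl
    rw [h, ih, Matrix.neg_apply]
    ring

/-- linearity in the last column -/
theorem pf_last : ∀ (n : ℕ) (A A' A'' : Matrix (Fin (n + 2)) (Fin (n + 2)) ℚ) (α β : ℚ),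
    (∀ i j : Fin (n + 1), A i.castSucc j.castSucc = A'' i.castSucc j.castSucc ∧
      A' i.castSucc j.castSucc = A'' i.castSucc j.castSucc) →
    (∀ i : Fin (n + 1), A'' i.castSucc (Fin.last (n + 1)) =
      α * A i.castSucc (Fin.last (n + 1)) + β * A' i.castSucc (Fin.last (n + 1))) →
    pf (n + 2) A'' = α * pf (n + 2) A + β * pf (n + 2) A' := by
  intro n
  induction n using Nat.strong_induction_on with
  | _ n ih =>
    intro A A' A'' α β h1 h2
    rw [pf, pf, pf, Finset.mul_sum, Finset.mul_sum, ← Finset.sum_add_distrib]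
    apply Finset.sum_congr rfl
    intro j _
    rcases Fin.eq_castSucc_or_eq_last j with ⟨j', rfl⟩ | rfl
    · -- the last index is kept
      rcases n with _ | n
      · exact j'.elim0
      · rcases n with _ | n
        · -- minors of size one
          simp [pf]
        · have e0 : A'' 0 (j'.castSucc).succ = A 0 (j'.castSucc).succ := by
            have := (h1 0 j'.succ).1
            rw [Fin.castSucc_zero, Fin.castSucc_succ] at this
            exact this.symm
          have e0' : A'' 0 (j'.castSucc).succ = A' 0 (j'.castSucc).succ := by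
            have := (h1 0 j'.succ).2
            rw [Fin.castSucc_zero, Fin.castSucc_succ] at this
            exact this.symm
          have key := ih n (by omega)
            (A.submatrix (fun k => ((j'.castSucc).succAbove k).succ)
              (fun k => ((j'.castSucc).succAbove k).succ))
            (A'.submatrix (fun k => ((j'.castSucc).succAbove k).succ)
              (fun k => ((j'.castSucc).succAbove k).succ))
            (A''.submatrix (fun k => ((j'.castSucc).succAbove k).succ)
              (fun k => ((j'.castSucc).succAbove k).succ)) α β ?_ ?_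
          · rw [key, ← e0, ← e0']
            ring
          · intro i k
            simp only [Matrix.submatrix_apply, Fin.castSucc_succAbove_castSucc, Fin.succ_castSucc]
            exact h1 _ _
          · intro i
            simp only [Matrix.submatrix_apply, Fin.castSucc_succAbove_castSucc,
              Fin.succ_castSucc]
            have e : ((j'.castSucc).succAbove (Fin.last (n + 1))).succ = Fin.last (n + 3) := by
              ext
              have hj : ¬ (n + 1 < (j' : ℕ)) := by have := j'.2; omega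
              simp [Fin.succAbove, Fin.lt_def, hj]
            rw [e]
            exact h2 _
    · have e1 : A''.submatrix (fun k => ((Fin.last n).succAbove k).succ)
          (fun k => ((Fin.last n).succAbove k).succ) =
          A.submatrix (fun k => ((Fin.last n).succAbove k).succ)
          (fun k => ((Fin.last n).succAbove k).succ) := by
        ext i k
        simp only [Matrix.submatrix_apply, Fin.succAbove_last, Fin.succ_castSucc]
        exact (h1 _ _).1.symm
      have e2 : A''.submatrix (fun k => ((Fin.last n).succAbove k).succ)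
          (fun k => ((Fin.last n).succAbove k).succ) =
          A'.submatrix (fun k => ((Fin.last n).succAbove k).succ)
          (fun k => ((Fin.last n).succAbove k).succ) := by
        ext i k
        simp only [Matrix.submatrix_apply, Fin.succAbove_last, Fin.succ_castSucc]
        exact (h1 _ _).2.symm
      rw [Fin.succ_last]
      have e3 := h2 0
      rw [Fin.castSucc_zero] at e3
      rw [← e1, e3]
      rw [← e2, e1]
      ring

/-- the transformation matrix -/
def P (n : ℕ) : Matrix (Fin (2 * n + 2)) (Fin (2 * n + 2)) ℚ := fun i k =>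
  if i = Fin.last (2 * n + 1) then (if k = Fin.last (2 * n + 1) then -1 else 0)
  else (-1) ^ (k : ℕ) * ((i : ℕ).choose k : ℚ)

theorem P_det (n : ℕ) : (P n).det = - (-1) ^ n := by
  rw [Matrix.det_of_isLowerTriangular]
  · rw [Fin.prod_univ_castSucc]
    have h1 : ∀ i : Fin (2 * n + 1), P n i.castSucc i.castSucc = (-1) ^ (i : ℕ) := by
      intro i
      simp [P, (Fin.castSucc_lt_last i).ne]
    have h2 : P n (Fin.last (2 * n + 1)) (Fin.last (2 * n + 1)) = -1 := by simp [P]
    rw [h2, Finset.prod_congr rfl (fun i _ => h1 i), Finset.prod_pow_eq_pow_sum,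
      Fin.sum_univ_eq_sum_range (fun i => i) (2 * n + 1)]
    have h3 : ∑ i ∈ Finset.range (2 * n + 1), i = n * (2 * n + 1) := by
      have := Finset.sum_range_id_mul_two (2 * n + 1)
      have e : 2 * n + 1 - 1 = 2 * n := by omega
      rw [e] at this
      nlinarith
    rw [h3, mul_comm n, pow_mul]
    have h4 : ((-1 : ℚ) ^ (2 * n + 1)) = -1 := by
      rw [pow_succ, pow_mul]; simp
    rw [h4]
    ring
  · intro i j hij
    have hij' : i < j := by simpa using hij
    unfold P
    rw [if_neg (fun h => by rw [h] at hij'; exact absurd (Fin.le_last j) (not_le.2 hij'))]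
    rw [Nat.choose_eq_zero_of_lt hij']
    simp

theorem P_cc (n : ℕ) (i k : Fin (2 * n + 1)) :
    P n i.castSucc k.castSucc = (-1) ^ (k : ℕ) * ((i : ℕ).choose k : ℚ) := by
  simp [P, (Fin.castSucc_lt_last i).ne]

theorem P_cl (n : ℕ) (i : Fin (2 * n + 1)) : P n i.castSucc (Fin.last (2 * n + 1)) = 0 := by
  have h : (i : ℕ).choose (2 * n + 1) = 0 := Nat.choose_eq_zero_of_lt i.2
  simp [P, (Fin.castSucc_lt_last i).ne, h]

theorem P_lc (n : ℕ) (k : Fin (2 * n + 1)) : P n (Fin.last (2 * n + 1)) k.castSucc = 0 := by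
  simp [P, (Fin.castSucc_lt_last k).ne]

theorem P_ll (n : ℕ) : P n (Fin.last (2 * n + 1)) (Fin.last (2 * n + 1)) = -1 := by
  simp [P]

/-- a sum with binomial coefficients over `Fin` is a sum over a range -/
theorem sum_fin (n i : ℕ) (hi : i < n) (f : ℕ → ℚ) :
    ∑ k : Fin n, (-1) ^ (k : ℕ) * (i.choose k : ℚ) * f k =
      ∑ k ∈ Finset.range (i + 1), (-1) ^ k * (i.choose k : ℚ) * f k := by
  rw [Fin.sum_univ_eq_sum_range (fun k => (-1) ^ k * (i.choose k : ℚ) * f k) n]
  symm
  apply Finset.sum_subset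
  · intro k hk
    rw [Finset.mem_range] at hk ⊢
    omega
  · intro k _ hk
    rw [Finset.mem_range, not_lt] at hk
    rw [Nat.choose_eq_zero_of_lt (by omega)]
    simp

theorem sum_split (n : ℕ) (f : Fin (2 * n + 2) → ℚ) :
    ∑ i, f i = ∑ i : Fin (2 * n + 1), f i.castSucc + f (Fin.last (2 * n + 1)) :=
  Fin.sum_univ_castSucc f

theorem P_conj (n : ℕ) (v v' : ℕ → ℚ)
    (hv : ∀ i, ∑ k ∈ Finset.range (i + 1), (-1) ^ k * (i.choose k : ℚ) * v k = v' i) :
    P n * skewM (2 * n + 2) (bord n v) * (P n).transpose = - skewM (2 * n + 2) (bord n v') := by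
  ext i j
  rw [Matrix.mul_apply, Matrix.neg_apply]
  simp only [Matrix.mul_apply, Matrix.transpose_apply]
  rcases Fin.eq_castSucc_or_eq_last i with ⟨i, rfl⟩ | rfl
  · rcases Fin.eq_castSucc_or_eq_last j with ⟨j, rfl⟩ | rfl
    · rw [bord_cc, sum_split, P_cl, mul_zero, add_zero]
      simp only [sum_split, P_cl, zero_mul, add_zero, P_cc, bord_cc]
      have h1 : ∀ x : Fin (2 * n + 1),
          (∑ k : Fin (2 * n + 1), (-1) ^ (k : ℕ) * ((i : ℕ).choose k : ℚ) * c k x) *
            ((-1) ^ (x : ℕ) * ((j : ℕ).choose x : ℚ)) =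
          (-1) ^ (x : ℕ) * ((j : ℕ).choose x : ℚ) *
            (∑ k ∈ Finset.range ((i : ℕ) + 1), (-1) ^ k * ((i : ℕ).choose k : ℚ) * c k x) := by
        intro x
        rw [sum_fin (2 * n + 1) i i.2 (fun k => c k x), mul_comm]
      rw [Finset.sum_congr rfl (fun x _ => h1 x), sum_fin (2 * n + 1) j j.2 (fun x =>
        ∑ k ∈ Finset.range ((i : ℕ) + 1), (-1) ^ k * ((i : ℕ).choose k : ℚ) * c k x),
        ← c_trans i j]
      simp only [Finset.mul_sum]
      rw [Finset.sum_comm]
      apply Finset.sum_congr rfl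
      intro k _
      apply Finset.sum_congr rfl
      intro l _
      ring
    · rw [bord_cl, sum_split, P_ll]
      simp only [sum_split, P_cl, zero_mul, add_zero, P_cc, bord_cl, P_lc, mul_zero,
        Finset.sum_const_zero, zero_add, mul_neg, mul_one]
      rw [sum_fin (2 * n + 1) i i.2 v, hv]
  · rcases Fin.eq_castSucc_or_eq_last j with ⟨j, rfl⟩ | rfl
    · rw [bord_lc, sum_split, P_cl, mul_zero, add_zero]
      simp only [sum_split, P_cl, zero_mul, add_zero, P_cc, bord_lc, P_lc, mul_zero,
        Finset.sum_const_zero, zero_add, P_ll]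
      have h1 : ∀ x : Fin (2 * n + 1), (-1 * -v x) * ((-1) ^ (x : ℕ) * ((j : ℕ).choose x : ℚ)) =
          (-1) ^ (x : ℕ) * ((j : ℕ).choose x : ℚ) * v x := by intro x; ring
      rw [Finset.sum_congr rfl (fun x _ => h1 x), sum_fin (2 * n + 1) j j.2 v, hv, neg_neg]
    · rw [bord_ll, sum_split, P_ll]
      simp only [sum_split, P_cl, zero_mul, add_zero, P_cc, bord_cl, P_lc, mul_zero,
        Finset.sum_const_zero, zero_add, P_ll, bord_ll, neg_zero]

/-- transforming the last column -/
theorem pf_bord (n : ℕ) (v v' : ℕ → ℚ)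
    (hv : ∀ i, ∑ k ∈ Finset.range (i + 1), (-1) ^ k * (i.choose k : ℚ) * v k = v' i) :
    pf (2 * n + 2) (skewM (2 * n + 2) (bord n v)) =
      pf (2 * n + 2) (skewM (2 * n + 2) (bord n v')) := by
  have h1 := pf_gram (skewM (2 * n + 2) (bord n v)) (skewM_skew _ _) (P n)
  rw [P_conj n v v' hv, P_det] at h1
  have h2 := pf_neg (n + 1) (skewM (2 * n + 2) (bord n v'))
  have h3 : pf (2 * n + 2) (-(skewM (2 * n + 2) (bord n v'))) =
      (-1) ^ (n + 1) * pf (2 * n + 2) (skewM (2 * n + 2) (bord n v')) := h2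
  rw [h3] at h1
  have h4 : ((-1 : ℚ) ^ n) * (-1) ^ n = 1 := by
    rw [← pow_add, ← two_mul, pow_mul]; simp
  rw [pow_succ] at h1
  linear_combination ((-1 : ℚ) ^ n) * h1 + (pf (2 * n + 2) (skewM (2 * n + 2) (bord n v')) -
    pf (2 * n + 2) (skewM (2 * n + 2) (bord n v))) * h4

/-- the last columns `t ^ a` and `(1 - t) ^ a` give the same Pfaffian -/
theorem pf_pow (n : ℕ) (t : ℚ) :
    pf (2 * n + 2) (skewM (2 * n + 2) (bord n fun a => t ^ a)) =
      pf (2 * n + 2) (skewM (2 * n + 2) (bord n fun a => (1 - t) ^ a)) := by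
  apply pf_bord
  intro i
  have h := add_pow (-t) 1 i
  have e : (1 - t) ^ i = (-t + 1) ^ i := by ring
  rw [e, h]
  apply Finset.sum_congr rfl
  intro k _
  rw [neg_pow, one_pow]
  ring

/-- the Pfaffian identity -/
theorem pf_id (n : ℕ) :
    pf (2 * n + 2) (skewM (2 * n + 2) (bord n fun a => (-1) ^ a)) =
      pf (2 * n + 2) (skewM (2 * n + 2) (bord n fun a => ((-1) ^ a + 2 ^ a) / 2)) := by
  have h1 := pf_pow n (-1)
  have e : (1 - (-1) : ℚ) = 2 := by norm_num
  rw [e] at h1
  have h2 := pf_last (2 * n) (skewM (2 * n + 2) (bord n fun a => (-1) ^ a))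
    (skewM (2 * n + 2) (bord n fun a => 2 ^ a))
    (skewM (2 * n + 2) (bord n fun a => ((-1) ^ a + 2 ^ a) / 2)) (1 / 2) (1 / 2) ?_ ?_
  · rw [h2, ← h1]
    ring
  · intro i j
    rw [bord_cc, bord_cc, bord_cc]
    exact ⟨rfl, rfl⟩
  · intro i
    rw [bord_cl, bord_cl, bord_cl]
    ring

end Pool.Agent.L7h56.OS
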