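import Pool.Agent.L7h56.OS.Ker
import Pool.Agent.L7h56.OS.Mat

/-!
# Elimination
-/

set_option autoImplicit false

namespace Pool.Agent.L7h56.OSE

open Pool.Agent.Helper929 (pf pf_gram)
open PowerSeries Pool.Agent.L7h56.OS

/-- the elimination matrix -/
def LK (m : ℕ) (α β : Fin (m + 2) → ℚ) : Matrix (Fin (m + 2)) (Fin (m + 2)) ℚ := fun i j =>
  if 2 ≤ (i : ℕ) then (if j = 0 then - α i else if j = 1 then - β i else 0) else 0

theorem LK_sum (m : ℕ) (α β : Fin (m + 2) → ℚ) (i : Fin (m + 2)) (f : Fin (m + 2) → ℚ) :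
    ∑ k, LK m α β i k * f k = if 2 ≤ (i : ℕ) then - α i * f 0 - β i * f 1 else 0 := by
  unfold LK
  by_cases h : 2 ≤ (i : ℕ)
  · simp only [h, if_true]
    rw [Fin.sum_univ_succ, Fin.sum_univ_succ]
    have h1 : ∀ k : Fin m, (if (k.succ.succ : Fin (m + 2)) = 0 then - α i else
        if (k.succ.succ : Fin (m + 2)) = 1 then - β i else 0) * f k.succ.succ = 0 := by
      intro k
      have e1 : (k.succ.succ : Fin (m + 2)) ≠ 0 := Fin.succ_ne_zero _
      have e2 : (k.succ.succ : Fin (m + 2)) ≠ 1 := by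
        intro h
        have := congrArg Fin.val h
        simp at this
      rw [if_neg e1, if_neg e2, zero_mul]
    rw [Finset.sum_congr rfl (fun k _ => h1 k), Finset.sum_const_zero, add_zero]
    have e3 : ((0 : Fin (m + 1)).succ : Fin (m + 2)) = 1 := rfl
    rw [e3, if_pos rfl, if_neg (by simp), if_pos rfl]
    ring
  · simp only [h, if_false, zero_mul, Finset.sum_const_zero]

theorem LK_mulVec (m : ℕ) (α β : Fin (m + 2) → ℚ) (f : Fin (m + 2) → ℚ) (i : Fin (m + 2)) :
    ((1 + LK m α β).mulVec f) i =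
      f i + if 2 ≤ (i : ℕ) then - α i * f 0 - β i * f 1 else 0 := by
  rw [Matrix.add_mulVec, Matrix.one_mulVec, Pi.add_apply]
  congr 1
  exact LK_sum m α β i f

theorem LK_det (m : ℕ) (α β : Fin (m + 2) → ℚ) : (1 + LK m α β).det = 1 := by
  rw [Matrix.det_of_isLowerTriangular]
  · apply Finset.prod_eq_one
    intro i _
    rw [Matrix.add_apply, Matrix.one_apply_eq]
    unfold LK
    by_cases h : 2 ≤ (i : ℕ)
    · rw [if_pos h, if_neg, if_neg, add_zero]
      · intro h1; rw [h1] at h; simp at h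
      · intro h1; rw [h1] at h; simp at h
    · rw [if_neg h, add_zero]
  · intro i j hij
    have hij' : i < j := by simpa using hij
    rw [Matrix.add_apply, Matrix.one_apply_ne hij'.ne]
    unfold LK
    by_cases h : 2 ≤ (i : ℕ)
    · rw [if_pos h, if_neg, if_neg, add_zero]
      · intro h1
        rw [h1, Fin.lt_def] at hij'
        have e : ((1 : Fin (m + 2)) : ℕ) = 1 := rfl
        rw [e] at hij'
        omega
      · intro h1; rw [h1] at hij'; exact absurd hij' (Fin.not_lt_zero i)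
    · rw [if_neg h, add_zero]

theorem LK_mul (m : ℕ) (α β : Fin (m + 2) → ℚ) (B : Matrix (Fin (m + 2)) (Fin (m + 2)) ℚ)
    (h0 : ∀ j, B 0 j = 0) (h1 : ∀ j, B 1 j = 0) : (1 + LK m α β) * B = B := by
  rw [add_mul, one_mul]
  have h : LK m α β * B = 0 := by
    ext i j
    rw [Matrix.mul_apply, LK_sum m α β i (fun k => B k j)]
    simp [h0, h1]
  rw [h, add_zero]

/-- elimination of the first two rows -/
theorem pf_elim (m : ℕ) (A B : Matrix (Fin (m + 2)) (Fin (m + 2)) ℚ) (u w : Fin (m + 2) → ℚ)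
    (hA : ∀ i j, A i j = u i * w j - w i * u j + B i j) (hB : ∀ i j, B i j = - B j i)
    (h0 : ∀ j, B 0 j = 0) (h1 : ∀ j, B 1 j = 0) (hw0 : w 0 = 0) (hu : u 0 ≠ 0) (hw : w 1 ≠ 0) :
    pf (m + 2) A = u 0 * w 1 *
      pf m (B.submatrix (fun i => i.succ.succ) (fun i => i.succ.succ)) := by
  have hAs : ∀ i j, A i j = - A j i := by
    intro i j
    rw [hA, hA j i, hB i j]
    ring
  set β : Fin (m + 2) → ℚ := fun i => w i / w 1 with hβ
  set α : Fin (m + 2) → ℚ := fun i => (u i - β i * u 1) / u 0 with hα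
  have hAm : A = Matrix.vecMulVec u w - Matrix.vecMulVec w u + B := by
    ext i j
    rw [hA]
    simp [Matrix.vecMulVec_apply]
  have hBt : B.transpose = - B := by
    ext i j
    rw [Matrix.transpose_apply, Matrix.neg_apply, hB]
  have hLB : (1 + LK m α β) * B * (1 + LK m α β).transpose = B := by
    rw [LK_mul m α β B h0 h1]
    have h2 : (B * (1 + LK m α β).transpose).transpose = B.transpose := by
      rw [Matrix.transpose_mul, Matrix.transpose_transpose, hBt, Matrix.mul_neg,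
        LK_mul m α β B h0 h1]
    have h3 := congrArg Matrix.transpose h2
    rw [Matrix.transpose_transpose, Matrix.transpose_transpose] at h3
    exact h3
  set u' := (1 + LK m α β).mulVec u with hu'
  set w' := (1 + LK m α β).mulVec w with hw'
  have hL : (1 + LK m α β) * A * (1 + LK m α β).transpose =
      Matrix.vecMulVec u' w' - Matrix.vecMulVec w' u' + B := by
    rw [hAm, mul_add, add_mul, hLB, mul_sub, sub_mul, Matrix.mul_vecMulVec,
      Matrix.mul_vecMulVec, Matrix.vecMulVec_mul, Matrix.vecMulVec_mul, Matrix.vecMul_transpose,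
      Matrix.vecMul_transpose]
  have hg := pf_gram A hAs (1 + LK m α β)
  rw [hL, LK_det, one_mul] at hg
  have ev0 : u' 0 = u 0 := by
    rw [hu', LK_mulVec]
    simp
  have ew0 : w' 0 = 0 := by
    rw [hw', LK_mulVec]
    simp [hw0]
  have ew1 : w' 1 = w 1 := by
    rw [hw', LK_mulVec]
    simp
  have ewj : ∀ k : Fin m, w' k.succ.succ = 0 := by
    intro k
    rw [hw', LK_mulVec, if_pos (by simp), hw0, hβ]
    simp only
    field_simp
    ring
  have euj : ∀ k : Fin m, u' k.succ.succ = 0 := by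
    intro k
    rw [hu', LK_mulVec, if_pos (by simp), hα]
    simp only
    field_simp
    ring
  rw [← hg, pf, Finset.sum_eq_single 0]
  · have e1 : ((0 : Fin (m + 1)).succ : Fin (m + 2)) = 1 := rfl
    rw [e1]
    simp only [Matrix.add_apply, Matrix.sub_apply, Matrix.vecMulVec_apply, ev0, ew0, ew1, h0]
    have e2 : (Matrix.vecMulVec u' w' - Matrix.vecMulVec w' u' + B).submatrix
        (fun k : Fin m => ((0 : Fin (m + 1)).succAbove k).succ)
        (fun k : Fin m => ((0 : Fin (m + 1)).succAbove k).succ) =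
        B.submatrix (fun i => i.succ.succ) (fun i => i.succ.succ) := by
      ext i j
      simp [Matrix.vecMulVec_apply, ewj, euj]
    rw [e2]
    simp
  · intro j _ hj
    obtain ⟨k, rfl⟩ := Fin.exists_succ_eq.2 hj
    simp only [Matrix.add_apply, Matrix.sub_apply, Matrix.vecMulVec_apply, ewj, euj, h0]
    simp
  · intro h
    exact absurd (Finset.mem_univ _) h

/-- the border -/
noncomputable def bv (k a : ℕ) : ℚ := 1 / 2 * coeff a (Pp * chi k)

/-- the inverse of `1 - 27 z / 4` -/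
noncomputable def iz : PA := (1 - C (27 / 4) * zx)⁻¹

theorem cc_zx : constantCoeff zx = 0 := by simp [zx]

theorem iz_mul : iz * (1 - C (27 / 4) * zx) = 1 := by
  unfold iz
  rw [PowerSeries.inv_mul_cancel]
  simp [cc_zx]

theorem cc_iz : constantCoeff iz = 1 := by
  have h := congrArg constantCoeff iz_mul
  simpa [cc_zx] using h

theorem chi_eq' (n : ℕ) : Pp * chi n = X ^ (2 * n) *
    (Pp * iz * zc ^ n * (C (eps n) * ee n + C (bet n) * (zx * oo n))) := by
  have h := chi_eq n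
  rw [zx_pow] at h
  have h2 := iz_mul
  linear_combination (Pp * iz) * h - Pp * chi n * h2

theorem bv_lt (k a : ℕ) (h : a < 2 * k) : bv k a = 0 := by
  unfold bv
  rw [chi_eq', coeff_X_pow_mul', if_neg (by omega), mul_zero]

theorem bv_lead (k : ℕ) : bv k (2 * k) = eps k := by
  unfold bv
  rw [chi_eq', coeff_X_pow_mul', if_pos le_rfl, Nat.sub_self, coeff_zero_eq_constantCoeff_apply]
  have h2 : constantCoeff (2 : PA) = 2 := map_ofNat constantCoeff 2
  simp [Pp, cc_gi, cc_zc, cc_oo, cc_iz, cc_ee, cc_zx, h2]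

theorem bv_succ (k a : ℕ) : bv (k + 1) a = bv k a - 1 / 2 * eps k * coeff a (pp k) := by
  unfold bv chi pp
  rw [Finset.sum_range_succ]
  have e : Pp * (t3 ^ 2 - (∑ m ∈ Finset.range k, C (eps m) * (zx ^ m * oo m) +
      C (eps k) * (zx ^ k * oo k))) =
      Pp * (t3 ^ 2 - ∑ m ∈ Finset.range k, C (eps m) * (zx ^ m * oo m)) -
        C (eps k) * (Pp * zx ^ k * oo k) := by ring
  rw [e, map_sub, coeff_C_mul]
  ring

/-- the matrices of the elimination -/
noncomputable def Mg (k s r : ℕ) : Matrix (Fin (2 * r + 2)) (Fin (2 * r + 2)) ℚ := fun i j =>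
  if (i : ℕ) ≤ 2 * r then (if (j : ℕ) ≤ 2 * r then 1 / 2 * Ar k (s + i) (s + j) else bv k (s + i))
  else (if (j : ℕ) ≤ 2 * r then - bv k (s + j) else 0)

theorem Mg_skew (k s r : ℕ) (i j : Fin (2 * r + 2)) : Mg k s r i j = - Mg k s r j i := by
  unfold Mg
  by_cases hi : (i : ℕ) ≤ 2 * r <;> by_cases hj : (j : ℕ) ≤ 2 * r <;> simp only [hi, hj, if_true, if_false]
  · rw [Ar_skew k (s + i) (s + j)]
    ring
  · ring
  · ring

theorem hh_pos (k : ℕ) : 0 < hh k := by
  induction k with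
  | zero => simp [hh]
  | succ k ih =>
    rw [hh]
    have h1 : 0 < al1 k := by unfold al1; positivity
    have h2 : 0 < al2 k := by unfold al2; positivity
    positivity

theorem Ar_succ (k a b : ℕ) : Ar (k + 1) a b = Ar k a b -
    hh k * (coeff a (pp k) * coeff b (qq k) - coeff a (qq k) * coeff b (pp k)) := by
  unfold Ar
  rw [Finset.sum_range_succ]
  ring

theorem Mg_step (k r : ℕ) : pf (2 * (r + 1) + 2) (Mg k (2 * k) (r + 1)) =
    hh k * pf (2 * r + 2) (Mg (k + 1) (2 * (k + 1)) r) := by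
  have hk := (hh_pos k).ne'
  have h := pf_elim (2 * r + 2) (Mg k (2 * k) (r + 1)) (Mg (k + 1) (2 * k) (r + 1))
    (fun i => if (i : ℕ) ≤ 2 * (r + 1) then 1 / 2 * hh k * coeff (2 * k + i) (pp k) else 0)
    (fun i => if (i : ℕ) ≤ 2 * (r + 1) then coeff (2 * k + i) (qq k) else eps k / hh k)
    ?_ (Mg_skew (k + 1) (2 * k) (r + 1)) ?_ ?_ ?_ ?_ ?_
  · have e1 : (Mg (k + 1) (2 * k) (r + 1)).submatrix (fun i : Fin (2 * r + 2) => i.succ.succ)
        (fun i : Fin (2 * r + 2) => i.succ.succ) = Mg (k + 1) (2 * (k + 1)) r := by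
      ext i j
      have c1 : ∀ i : Fin (2 * r + 2), (((i.succ.succ : Fin (2 * r + 2 + 2)) : ℕ) ≤ 2 * (r + 1)) ↔
          ((i : ℕ) ≤ 2 * r) := by
        intro i
        rw [Fin.val_succ, Fin.val_succ]
        omega
      have c2 : ∀ i : Fin (2 * r + 2), 2 * k + ((i.succ.succ : Fin (2 * r + 2 + 2)) : ℕ) =
          2 * (k + 1) + (i : ℕ) := by
        intro i
        rw [Fin.val_succ, Fin.val_succ]
        omega
      rw [Matrix.submatrix_apply]
      unfold Mg
      simp only [c1, c2]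
    rw [e1] at h
    have e2 : ((0 : Fin (2 * r + 2 + 2)) : ℕ) = 0 := rfl
    have e3 : ((1 : Fin (2 * r + 2 + 2)) : ℕ) = 1 := rfl
    simp only [e2, e3] at h
    rw [if_pos (by omega), if_pos (by omega), add_zero, pp_lead, qq_lead] at h
    have e4 : 1 / 2 * hh k * 2 * 1 = hh k := by ring
    rw [e4] at h
    exact h
  · intro i j
    unfold Mg
    by_cases hi : (i : ℕ) ≤ 2 * (r + 1) <;> by_cases hj : (j : ℕ) ≤ 2 * (r + 1) <;>
      simp only [hi, hj, if_true, if_false]
    · rw [Ar_succ]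
      ring
    · rw [bv_succ]
      field_simp
      ring
    · rw [bv_succ]
      field_simp
      ring
    · ring
  · intro j
    unfold Mg
    have e2 : ((0 : Fin (2 * r + 2 + 2)) : ℕ) = 0 := rfl
    have e5 : ((0 : Fin (2 * (r + 1) + 2)) : ℕ) = 0 := rfl
    change (if ((0 : Fin (2 * (r + 1) + 2)) : ℕ) ≤ _ then _ else _) = _
    rw [e5, if_pos (by omega), bv_lt _ _ (by omega), Ar_lt _ _ _ (by omega)]
    simp
  · intro j
    unfold Mg
    have e5 : ((1 : Fin (2 * (r + 1) + 2)) : ℕ) = 1 := rfl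
    change (if ((1 : Fin (2 * (r + 1) + 2)) : ℕ) ≤ _ then _ else _) = _
    rw [e5, if_pos (by omega), bv_lt _ _ (by omega), Ar_lt _ _ _ (by omega)]
    simp
  · have e2 : ((0 : Fin (2 * r + 2 + 2)) : ℕ) = 0 := rfl
    simp only [e2]
    rw [if_pos (by omega), qq_lt _ _ (by omega)]
  · have e2 : ((0 : Fin (2 * r + 2 + 2)) : ℕ) = 0 := rfl
    simp only [e2]
    rw [if_pos (by omega), add_zero, pp_lead]
    have : 1 / 2 * hh k * 2 = hh k := by ring
    rw [this]
    exact hk
  · have e3 : ((1 : Fin (2 * r + 2 + 2)) : ℕ) = 1 := rfl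
    simp only [e3]
    rw [if_pos (by omega), qq_lead]
    exact one_ne_zero

theorem Mg_base (k : ℕ) : pf 2 (Mg k (2 * k) 0) = eps k := by
  rw [pf]
  simp [pf, Mg, bv_lead]

theorem Mg_eval : ∀ (r k : ℕ), pf (2 * r + 2) (Mg k (2 * k) r) =
    (∏ m ∈ Finset.range r, hh (k + m)) * eps (k + r) := by
  intro r
  induction r with
  | zero =>
    intro k
    have := Mg_base k
    simpa using this
  | succ r ih =>
    intro k
    rw [Mg_step, ih, Finset.prod_range_succ']
    have e : ∀ m, hh (k + 1 + m) = hh (k + (m + 1)) := fun m => by congr 1; ring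
    simp only [e, add_zero]
    have e2 : k + 1 + r = k + (r + 1) := by ring
    rw [e2]
    ring

/-! ### the border series -/

theorem geo (q : ℚ) : (1 - C q * X) * (mk fun a => q ^ a : PA) = 1 := by
  ext a
  rw [sub_mul, one_mul, map_sub, mul_assoc, coeff_C_mul]
  rcases a with _ | a
  · simp
  · rw [coeff_succ_X_mul, coeff_mk, coeff_mk, coeff_one, if_neg (Nat.succ_ne_zero a)]
    ring

theorem bv_zero (a : ℕ) : bv 0 a = ((-1) ^ a + 2 ^ a) / 2 := by
  have g1 := geo (-1)
  have g2 := geo 2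
  have c1 : (C (-1 : ℚ) : PA) = -1 := by simp
  have c2 : (C (2 : ℚ) : PA) = 2 := map_ofNat C 2
  rw [c1] at g1
  rw [c2] at g2
  have h1 : Pp * chi 0 = (mk fun a => (-1) ^ a : PA) + (mk fun a => 2 ^ a : PA) := by
    have e1 : chi 0 = t3 ^ 2 := by simp [chi]
    rw [e1]
    have h2 := t3_mul
    have h3 := gi_mul
    unfold Pp
    unfold tx at h2
    generalize (mk fun a => (-1 : ℚ) ^ a : PA) = s1 at *
    generalize (mk fun a => (2 : ℚ) ^ a : PA) = s2 at *
    generalize gi = g at *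
    generalize t3 = t at *
    have e2 : 1 - 3 * (X ^ 2 * g) = (1 + X) * (1 - 2 * X) * g := by
      linear_combination - h3
    rw [e2] at h2
    have e3 : (2 - X) * (1 + X) * (1 - 2 * X) * g ^ 2 * t ^ 2 =
        (2 - X) * (g * t) * (t * ((1 + X) * (1 - 2 * X) * g)) := by ring
    rw [e3, h2]
    have e4 : ((1 + X) * (1 - 2 * X) : PA) * (g * t) = 1 := by linear_combination h2
    have hne : ((1 + X) * (1 - 2 * X) : PA) ≠ 0 := by
      intro h
      rw [h, zero_mul] at e4
      exact zero_ne_one e4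
    apply mul_left_cancel₀ hne
    linear_combination (2 - X) * e4 - (1 - 2 * X) * g1 - (1 + X) * g2
  unfold bv
  rw [h1, map_add, coeff_mk, coeff_mk]
  ring

theorem Mg_bord (n : ℕ) : skewM (2 * n + 2) (bord n fun a => ((-1) ^ a + 2 ^ a) / 2) = Mg 0 (2 * 0) n := by
  ext i j
  have hA : ∀ a b, 1 / 2 * Ar 0 a b = c a b := by
    intro a b
    unfold Ar
    simp
  rcases Fin.eq_castSucc_or_eq_last i with ⟨i, rfl⟩ | rfl
  · have hi : (i.castSucc : ℕ) ≤ 2 * n := by rw [Fin.val_castSucc]; omega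
    rcases Fin.eq_castSucc_or_eq_last j with ⟨j, rfl⟩ | rfl
    · have hj : (j.castSucc : ℕ) ≤ 2 * n := by rw [Fin.val_castSucc]; omega
      rw [bord_cc, Mg, if_pos hi, if_pos hj, hA]
      simp
    · rw [bord_cl, Mg, if_pos hi, if_neg (by simp), bv_zero]
      simp
  · rcases Fin.eq_castSucc_or_eq_last j with ⟨j, rfl⟩ | rfl
    · have hj : (j.castSucc : ℕ) ≤ 2 * n := by rw [Fin.val_castSucc]; omega
      rw [bord_lc, Mg, if_neg (by simp), if_pos hj, bv_zero]
      simp
    · rw [bord_ll, Mg, if_neg (by simp), if_neg (by simp)]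

/-- the evaluation of the Pfaffian -/
theorem pf_two (n : ℕ) : pf (2 * n + 2) (skewM (2 * n + 2) (bord n fun a => 2 ^ a)) =
    (∏ m ∈ Finset.range n, hh m) * eps n := by
  have h1 := pf_pow n (-1)
  have e : (1 - (-1) : ℚ) = 2 := by norm_num
  rw [e] at h1
  rw [← h1, pf_id, Mg_bord, Mg_eval]
  simp

/-! ### arithmetic -/

theorem fac2 (m : ℕ) : ((m + 2).factorial : ℚ) = (m + 2) * (m + 1) * (m.factorial : ℚ) := by
  have h : (m + 2).factorial = (m + 2) * ((m + 1) * m.factorial) := rfl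
  rw [h]
  push_cast
  ring

theorem fac4 (m : ℕ) : ((m + 4).factorial : ℚ) =
    (m + 4) * (m + 3) * (m + 2) * (m + 1) * (m.factorial : ℚ) := by
  have h : m + 4 = (m + 2) + 2 := rfl
  rw [h, fac2, fac2]
  push_cast
  ring

theorem fac6 (m : ℕ) : ((m + 6).factorial : ℚ) =
    (m + 6) * (m + 5) * (m + 4) * (m + 3) * (m + 2) * (m + 1) * (m.factorial : ℚ) := by
  have h : m + 6 = (m + 4) + 2 := rfl
  rw [h, fac2, fac4]
  push_cast
  ring

theorem hh_eq (n : ℕ) : hh n * (((4 * n + 2).factorial : ℚ) * ((4 * n + 4).factorial : ℚ)) =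
    ((6 * n + 4).factorial : ℚ) * ((2 * n + 2).factorial : ℚ) := by
  induction n with
  | zero => simp [hh]; ring
  | succ n ih =>
    have e1 : ((4 * (n + 1) + 2).factorial : ℚ) =
        (4 * n + 6) * (4 * n + 5) * (4 * n + 4) * (4 * n + 3) * ((4 * n + 2).factorial : ℚ) := by
      have := fac4 (4 * n + 2)
      have e : 4 * (n + 1) + 2 = 4 * n + 2 + 4 := by ring
      rw [e, this]
      push_cast
      ring
    have e2 : ((4 * (n + 1) + 4).factorial : ℚ) =
        (4 * n + 8) * (4 * n + 7) * (4 * n + 6) * (4 * n + 5) * ((4 * n + 4).factorial : ℚ) := by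
      have := fac4 (4 * n + 4)
      have e : 4 * (n + 1) + 4 = 4 * n + 4 + 4 := by ring
      rw [e, this]
      push_cast
      ring
    have e3 : ((6 * (n + 1) + 4).factorial : ℚ) =
        (6 * n + 10) * (6 * n + 9) * (6 * n + 8) * (6 * n + 7) * (6 * n + 6) * (6 * n + 5) *
          ((6 * n + 4).factorial : ℚ) := by
      have := fac6 (6 * n + 4)
      have e : 6 * (n + 1) + 4 = 6 * n + 4 + 6 := by ring
      rw [e, this]
      push_cast
      ring
    have e4 : ((2 * (n + 1) + 2).factorial : ℚ) =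
        (2 * n + 4) * (2 * n + 3) * ((2 * n + 2).factorial : ℚ) := by
      have := fac2 (2 * n + 2)
      have e : 2 * (n + 1) + 2 = 2 * n + 2 + 2 := by ring
      rw [e, this]
      push_cast
      ring
    rw [hh, e1, e2, e3, e4]
    generalize ((4 * n + 2).factorial : ℚ) = f1 at *
    generalize ((4 * n + 4).factorial : ℚ) = f2 at *
    generalize ((6 * n + 4).factorial : ℚ) = f3 at *
    generalize ((2 * n + 2).factorial : ℚ) = f4 at *
    have p1 : (4 * n + 3 : ℚ) ≠ 0 := by positivity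
    have p2 : (4 * n + 5 : ℚ) ≠ 0 := by positivity
    have p3 : (4 * n + 7 : ℚ) ≠ 0 := by positivity
    have q : al1 n * al2 n * ((4 * n + 3) * (4 * n + 5) * (4 * n + 5) * (4 * n + 7)) =
        9 / 4 * ((3 * n + 4) * (3 * n + 5) * (6 * n + 5) * (6 * n + 7)) := by
      unfold al1 al2
      field_simp
      ring
    linear_combination (4 * n + 4) * (4 * n + 6) * (4 * n + 6) * (4 * n + 8) *
      (9 / 4 * ((3 * n + 4) * (3 * n + 5) * (6 * n + 5) * (6 * n + 7))) * ih +
      (hh n * f1 * f2 * ((4 * n + 4) * (4 * n + 6) * (4 * n + 6) * (4 * n + 8))) * q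

/-- the denominators -/
theorem den_eq (n : ℕ) : (∏ i ∈ Finset.Icc 1 (n + 1), ((2 * (n + 1) + 2 * i + 1).factorial : ℚ)) *
    ((2 * n + 3).factorial : ℚ) =
    (∏ i ∈ Finset.Icc 1 n, ((2 * n + 2 * i + 1).factorial : ℚ)) *
      (((4 * n + 3).factorial : ℚ) * ((4 * n + 5).factorial : ℚ)) := by
  have h1 : ∀ (m : ℕ) (f : ℕ → ℚ),
      ∏ i ∈ Finset.Icc 1 m, f i = ∏ i ∈ Finset.range m, f (i + 1) := by
    intro m f
    have e : Finset.Icc 1 m = Finset.Ico 1 (m + 1) := by ext; simp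
    rw [e, Finset.prod_Ico_eq_prod_range]
    apply Finset.prod_congr rfl
    intro i _
    rw [add_comm]
  rw [h1 (n + 1) (fun i => ((2 * (n + 1) + 2 * i + 1).factorial : ℚ)),
    h1 n (fun i => ((2 * n + 2 * i + 1).factorial : ℚ))]
  have h2 : ∏ i ∈ Finset.range (n + 2), ((2 * n + 2 * (i + 1) + 1).factorial : ℚ) =
      (∏ i ∈ Finset.range n, ((2 * n + 2 * (i + 1) + 1).factorial : ℚ)) *
        (((4 * n + 3).factorial : ℚ) * ((4 * n + 5).factorial : ℚ)) := by
    rw [Finset.prod_range_succ, Finset.prod_range_succ]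
    have e1 : 2 * n + 2 * (n + 1) + 1 = 4 * n + 3 := by ring
    have e2 : 2 * n + 2 * (n + 1 + 1) + 1 = 4 * n + 5 := by ring
    rw [e1, e2]
    ring
  rw [← h2, Finset.prod_range_succ' _ (n + 1)]
  have e3 : 2 * n + 2 * (0 + 1) + 1 = 2 * n + 3 := by ring
  rw [e3]
  congr 1
  apply Finset.prod_congr rfl
  intro i _
  congr 2
  ring

/-- the product formula -/
theorem value (n : ℕ) : (∏ m ∈ Finset.range (n + 1), hh m) * eps (n + 1) =
    (2 : ℚ) ^ (n + 1 - 1) * ((Nat.factorial (3 * (n + 1) + 2) : ℕ) : ℚ)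
            / ((Nat.factorial (2 * (n + 1) + 1) : ℕ) : ℚ)
          * ∏ i ∈ Finset.Icc 1 (n + 1),
              (((Nat.factorial (6 * i - 2) : ℕ) : ℚ)
                / ((Nat.factorial (2 * (n + 1) + 2 * i + 1) : ℕ) : ℚ)) := by
  induction n with
  | zero =>
    simp [hh, eps, Nat.factorial]
    norm_num
  | succ n ih =>
    rw [Finset.prod_div_distrib] at ih ⊢
    have hd := den_eq (n + 1)
    have hn : ∏ i ∈ Finset.Icc 1 (n + 1 + 1), ((6 * i - 2).factorial : ℚ) =
        (∏ i ∈ Finset.Icc 1 (n + 1), ((6 * i - 2).factorial : ℚ)) *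
          ((6 * (n + 1) + 4).factorial : ℚ) := by
      rw [Finset.prod_Icc_succ_top (by omega)]
      have e : 6 * (n + 1 + 1) - 2 = 6 * (n + 1) + 4 := by omega
      rw [e]
    rw [hn]
    rw [Finset.prod_range_succ, eps]
    have hh1 := hh_eq (n + 1)
    have e1 : n + 1 + 1 - 1 = n + 1 := by omega
    have e2 : n + 1 - 1 = n := by omega
    rw [e1]
    rw [e2] at ih
    have e3 : ((3 * (n + 1 + 1) + 2).factorial : ℚ) =
        (3 * n + 8) * (3 * n + 7) * (3 * n + 6) * ((3 * (n + 1) + 2).factorial : ℚ) := by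
      have h1 : 3 * (n + 1 + 1) + 2 = 3 * (n + 1) + 2 + 1 + 2 := by ring
      rw [h1, fac2, Nat.factorial_succ]
      push_cast
      ring
    have e4 : ((2 * (n + 1 + 1) + 1).factorial : ℚ) =
        (2 * n + 5) * (2 * n + 4) * ((2 * (n + 1) + 1).factorial : ℚ) := by
      have h1 : 2 * (n + 1 + 1) + 1 = 2 * (n + 1) + 1 + 2 := by ring
      rw [h1, fac2]
      push_cast
      ring
    have e5 : ((2 * (n + 1) + 3).factorial : ℚ) = (2 * n + 5) * ((2 * (n + 1) + 2).factorial : ℚ) := by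
      have h1 : 2 * (n + 1) + 3 = 2 * (n + 1) + 2 + 1 := by ring
      rw [h1, Nat.factorial_succ]
      push_cast
      ring
    have e6 : ((4 * (n + 1) + 3).factorial : ℚ) = (4 * n + 7) * ((4 * (n + 1) + 2).factorial : ℚ) := by
      have h1 : 4 * (n + 1) + 3 = 4 * (n + 1) + 2 + 1 := by ring
      rw [h1, Nat.factorial_succ]
      push_cast
      ring
    have e7 : ((4 * (n + 1) + 5).factorial : ℚ) = (4 * n + 9) * ((4 * (n + 1) + 4).factorial : ℚ) := by
      have h1 : 4 * (n + 1) + 5 = 4 * (n + 1) + 4 + 1 := by ring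
      rw [h1, Nat.factorial_succ]
      push_cast
      ring
    rw [e3, e4]
    rw [e5, e6, e7] at hd
    have p0 : (∏ i ∈ Finset.Icc 1 (n + 1), ((2 * (n + 1) + 2 * i + 1).factorial : ℚ)) ≠ 0 := by
      apply Finset.prod_ne_zero_iff.2
      intro i _
      positivity
    have p0' : (∏ i ∈ Finset.Icc 1 (n + 1 + 1),
        ((2 * (n + 1 + 1) + 2 * i + 1).factorial : ℚ)) ≠ 0 := by
      apply Finset.prod_ne_zero_iff.2
      intro i _
      positivity
    have p1 : ((4 * (n + 1) + 2).factorial : ℚ) ≠ 0 := by positivity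
    have p2 : ((4 * (n + 1) + 4).factorial : ℚ) ≠ 0 := by positivity
    have p3 : ((2 * (n + 1) + 2).factorial : ℚ) ≠ 0 := by positivity
    have p4 : ((2 * (n + 1) + 1).factorial : ℚ) ≠ 0 := by positivity
    generalize (∏ i ∈ Finset.Icc 1 (n + 1), ((2 * (n + 1) + 2 * i + 1).factorial : ℚ)) = D0 at *
    generalize (∏ i ∈ Finset.Icc 1 (n + 1 + 1),
        ((2 * (n + 1 + 1) + 2 * i + 1).factorial : ℚ)) = D1 at *
    generalize (∏ i ∈ Finset.Icc 1 (n + 1), ((6 * i - 2).factorial : ℚ)) = N0 at *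
    generalize ((4 * (n + 1) + 2).factorial : ℚ) = f1 at *
    generalize ((4 * (n + 1) + 4).factorial : ℚ) = f2 at *
    generalize ((6 * (n + 1) + 4).factorial : ℚ) = f3 at *
    generalize ((2 * (n + 1) + 2).factorial : ℚ) = f4 at *
    generalize ((2 * (n + 1) + 1).factorial : ℚ) = f5 at *
    generalize ((3 * (n + 1) + 2).factorial : ℚ) = f6 at *
    generalize (∏ m ∈ Finset.range (n + 1), hh m) = H at *
    generalize eps (n + 1) = E at *
    generalize hh (n + 1) = h1 at *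
    have q1 : (4 * n + 7 : ℚ) ≠ 0 := by positivity
    have q2 : (4 * n + 9 : ℚ) ≠ 0 := by positivity
    have q3 : (2 * n + 5 : ℚ) ≠ 0 := by positivity
    have q4 : (2 * n + 4 : ℚ) ≠ 0 := by positivity
    have eD : D1 = D0 * ((4 * n + 7) * f1 * ((4 * n + 9) * f2)) / ((2 * n + 5) * f4) := by
      rw [← hd]
      field_simp
    have eh : h1 = f3 * f4 / (f1 * f2) := by
      rw [← hh1]
      field_simp
    have eHE : H * h1 * (E * (3 * (3 * ((n + 1 : ℕ) : ℚ) + 4) * (3 * ((n + 1 : ℕ) : ℚ) + 5) /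
        ((4 * ((n + 1 : ℕ) : ℚ) + 3) * (4 * ((n + 1 : ℕ) : ℚ) + 5)))) =
        (H * E) * h1 * (3 * (3 * (n : ℚ) + 7) * (3 * n + 8) / ((4 * n + 7) * (4 * n + 9))) := by
      push_cast
      have q5 : (4 * (n + 1) + 3 : ℚ) ≠ 0 := by positivity
      have q6 : (4 * (n + 1) + 5 : ℚ) ≠ 0 := by positivity
      field_simp
      ring
    rw [eHE, ih, eh, eD]
    field_simp
    ring

end Pool.Agent.L7h56.OSE
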