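import Mathlib

/-!
# The power series `(y - x) / ((1 - x y) (1 - x - y))` and its symmetry
-/

set_option autoImplicit false

namespace Pool.Agent.L7h56.OS

open scoped PowerSeries

/-- the formal power series `(y - x) / ((1 - x y) (1 - x - y))`, where `x` is the variable `0` and
`y` is the variable `1` -/
noncomputable def gf : MvPowerSeries (Fin 2) ℚ :=
  (MvPowerSeries.X 1 - MvPowerSeries.X 0) *
    ((1 - MvPowerSeries.X 0 * MvPowerSeries.X 1) *
      (1 - MvPowerSeries.X 0 - MvPowerSeries.X 1))⁻¹

/-- the coefficient of `x ^ a * y ^ b` -/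
noncomputable def c (a b : ℕ) : ℚ :=
  MvPowerSeries.coeff (Finsupp.single 0 a + Finsupp.single 1 b) gf

theorem gf_mul : gf * ((1 - MvPowerSeries.X 0 * MvPowerSeries.X 1) *
      (1 - MvPowerSeries.X 0 - MvPowerSeries.X 1)) = MvPowerSeries.X 1 - MvPowerSeries.X 0 := by
  unfold gf
  rw [mul_assoc, MvPowerSeries.inv_mul_cancel, mul_one]
  simp

/-- iterated power series -/
abbrev N : Type := PowerSeries (PowerSeries ℚ)

noncomputable def x : N := PowerSeries.X
noncomputable def y : N := PowerSeries.C PowerSeries.X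

/-- the map to iterated power series -/
noncomputable def φ (G : MvPowerSeries (Fin 2) ℚ) : N :=
  PowerSeries.mk fun a => PowerSeries.mk fun b =>
    MvPowerSeries.coeff (Finsupp.single 0 a + Finsupp.single 1 b) G

theorem φ_sub (G H : MvPowerSeries (Fin 2) ℚ) : φ (G - H) = φ G - φ H := by
  ext a b
  simp [φ]

theorem φ_add (G H : MvPowerSeries (Fin 2) ℚ) : φ (G + H) = φ G + φ H := by
  ext a b
  simp [φ]

theorem φ_one : φ 1 = 1 := by
  ext a b
  simp only [φ, PowerSeries.coeff_mk, PowerSeries.coeff_one, MvPowerSeries.coeff_one]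
  by_cases ha : a = 0
  · subst ha
    by_cases hb : b = 0
    · subst hb; simp
    · simp [hb]
  · simp [ha]

theorem coeff_mono (p q a b : ℕ) (G : MvPowerSeries (Fin 2) ℚ) :
    MvPowerSeries.coeff (Finsupp.single 0 a + Finsupp.single 1 b)
      (MvPowerSeries.monomial (Finsupp.single 0 p + Finsupp.single 1 q) (1 : ℚ) * G) =
    if p ≤ a ∧ q ≤ b then
      MvPowerSeries.coeff (Finsupp.single 0 (a - p) + Finsupp.single 1 (b - q)) G else 0 := by
  rw [MvPowerSeries.coeff_monomial_mul]
  have h1 : (Finsupp.single (0 : Fin 2) p + Finsupp.single 1 q ≤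
      Finsupp.single 0 a + Finsupp.single 1 b) ↔ p ≤ a ∧ q ≤ b := by
    rw [Finsupp.le_def]
    constructor
    · intro h
      have h0 := h 0
      have h1 := h 1
      simpa using And.intro h0 h1
    · rintro ⟨h0, h1⟩ i
      fin_cases i <;> simp [h0, h1]
  have h2 : (Finsupp.single (0 : Fin 2) a + Finsupp.single 1 b -
      (Finsupp.single 0 p + Finsupp.single 1 q)) =
      Finsupp.single 0 (a - p) + Finsupp.single 1 (b - q) := by
    ext i
    fin_cases i <;> simp
  simp only [h1, h2, one_mul]

theorem X0_eq : (MvPowerSeries.X 0 : MvPowerSeries (Fin 2) ℚ) =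
    MvPowerSeries.monomial (Finsupp.single 0 1 + Finsupp.single 1 0) (1 : ℚ) := by
  simp [MvPowerSeries.X]

theorem X1_eq : (MvPowerSeries.X 1 : MvPowerSeries (Fin 2) ℚ) =
    MvPowerSeries.monomial (Finsupp.single 0 0 + Finsupp.single 1 1) (1 : ℚ) := by
  simp [MvPowerSeries.X]

theorem φ_X0_mul (G : MvPowerSeries (Fin 2) ℚ) : φ (MvPowerSeries.X 0 * G) = x * φ G := by
  rw [X0_eq]
  ext a b
  simp only [φ, PowerSeries.coeff_mk, coeff_mono, x]
  rcases a with _ | a
  · simp
  · rw [PowerSeries.coeff_succ_X_mul]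
    simp

theorem φ_X1_mul (G : MvPowerSeries (Fin 2) ℚ) : φ (MvPowerSeries.X 1 * G) = y * φ G := by
  rw [X1_eq]
  ext a b
  simp only [φ, PowerSeries.coeff_mk, coeff_mono, y, PowerSeries.coeff_C_mul]
  rcases b with _ | b
  · simp
  · rw [PowerSeries.coeff_succ_X_mul]
    simp

/-- the generating function in iterated form -/
noncomputable def F : N := PowerSeries.mk fun a => PowerSeries.mk fun b => c a b

theorem coeff_F (a b : ℕ) : PowerSeries.coeff b (PowerSeries.coeff a F) = c a b := by
  simp [F]

theorem F_mul : (1 - x * y) * (1 - x - y) * F = y - x := by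
  have h := congrArg φ gf_mul
  have e : gf * ((1 - MvPowerSeries.X 0 * MvPowerSeries.X 1) *
      (1 - MvPowerSeries.X 0 - MvPowerSeries.X 1)) =
      gf - MvPowerSeries.X 0 * gf - MvPowerSeries.X 1 * gf
      - MvPowerSeries.X 0 * (MvPowerSeries.X 1 * gf)
      + MvPowerSeries.X 0 * (MvPowerSeries.X 0 * (MvPowerSeries.X 1 * gf))
      + MvPowerSeries.X 0 * (MvPowerSeries.X 1 * (MvPowerSeries.X 1 * gf)) := by ring
  have e2 : (MvPowerSeries.X 1 - MvPowerSeries.X 0 : MvPowerSeries (Fin 2) ℚ) =
      MvPowerSeries.X 1 * 1 - MvPowerSeries.X 0 * 1 := by ring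
  rw [e, e2] at h
  simp only [φ_add, φ_sub, φ_X0_mul, φ_X1_mul, φ_one] at h
  have e3 : φ gf = F := rfl
  rw [e3] at h
  linear_combination h

/-- `D = (1 - x y) (1 - x - y)` is not zero -/
theorem D_ne : ((1 - x * y) * (1 - x - y) : N) ≠ 0 := by
  intro h
  have h1 := congrArg (fun G => PowerSeries.constantCoeff (PowerSeries.constantCoeff G)) h
  simp [x, y] at h1

/-- uniqueness -/
theorem F_unique (G : N) (r : N) (h1 : (1 - x * y) * (1 - x - y) * G = r)
    (h2 : r = y - x) : G = F := by
  apply mul_left_cancel₀ D_ne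
  rw [h1, F_mul, h2]

section B

variable {A : Type*} [CommRing A]

/-- the binomial transform -/
noncomputable def B (g : PowerSeries A) : PowerSeries A :=
  PowerSeries.mk fun b => ∑ a ∈ Finset.range (b + 1),
    ((-1) ^ a * (b.choose a : A)) * PowerSeries.coeff a g

theorem coeff_B (g : PowerSeries A) (b : ℕ) : PowerSeries.coeff b (B g) =
    ∑ a ∈ Finset.range (b + 1), ((-1) ^ a * (b.choose a : A)) * PowerSeries.coeff a g := by
  simp [B]

theorem B_sub (g h : PowerSeries A) : B (g - h) = B g - B h := by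
  ext b
  simp only [coeff_B, map_sub, mul_sub, Finset.sum_sub_distrib]

theorem B_add (g h : PowerSeries A) : B (g + h) = B g + B h := by
  ext b
  simp only [coeff_B, map_add, mul_add, Finset.sum_add_distrib]

theorem B_neg (g : PowerSeries A) : B (-g) = - B g := by
  ext b
  simp only [coeff_B, map_neg, mul_neg, Finset.sum_neg_distrib]

theorem B_C_mul (a : A) (g : PowerSeries A) :
    B (PowerSeries.C a * g) = PowerSeries.C a * B g := by
  ext b
  simp only [coeff_B, PowerSeries.coeff_C_mul, Finset.mul_sum]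
  apply Finset.sum_congr rfl
  intro i _
  ring

theorem B_one : (1 - PowerSeries.X) * B (1 : PowerSeries A) = 1 := by
  have h : B (1 : PowerSeries A) = PowerSeries.mk fun _ => 1 := by
    ext b
    rw [coeff_B, Finset.sum_eq_single 0]
    · simp
    · intro a _ ha
      simp [PowerSeries.coeff_one, ha]
    · simp
  rw [h]
  rw [mul_comm]
  exact PowerSeries.mk_one_mul_one_sub_eq_one A

theorem B_X (g : PowerSeries A) : (1 - PowerSeries.X) * B (PowerSeries.X * g) =
    - (PowerSeries.X * B g) := by
  ext b
  rw [sub_mul, one_mul, map_sub, map_neg]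
  rcases b with _ | b
  · simp [coeff_B]
  · have h1 : PowerSeries.coeff b (B (PowerSeries.X * g)) = ∑ a ∈ Finset.range (b + 1),
        ((-1) ^ (a + 1) * (b.choose (a + 1) : A)) * PowerSeries.coeff a g := by
      have h2 : PowerSeries.coeff b (B (PowerSeries.X * g)) = ∑ a ∈ Finset.range (b + 1 + 1),
          ((-1) ^ a * (b.choose a : A)) * PowerSeries.coeff a (PowerSeries.X * g) := by
        rw [coeff_B, Finset.sum_range_succ _ (b + 1)]
        simp
      rw [h2, Finset.sum_range_succ']
      simp only [PowerSeries.coeff_succ_X_mul, PowerSeries.coeff_zero_X_mul, mul_zero, add_zero]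
    have h3 : PowerSeries.coeff (b + 1) (B (PowerSeries.X * g)) = ∑ a ∈ Finset.range (b + 1),
        ((-1) ^ (a + 1) * ((b + 1).choose (a + 1) : A)) * PowerSeries.coeff a g := by
      rw [coeff_B, Finset.sum_range_succ']
      simp only [PowerSeries.coeff_succ_X_mul, PowerSeries.coeff_zero_X_mul, mul_zero, add_zero]
    rw [PowerSeries.coeff_succ_X_mul, PowerSeries.coeff_succ_X_mul, h1, h3, coeff_B,
      ← Finset.sum_sub_distrib, ← Finset.sum_neg_distrib]
    apply Finset.sum_congr rfl
    intro a _
    rw [Nat.choose_succ_succ]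
    push_cast
    ring

end B

/-- the binomial transform in the inner variable -/
noncomputable def By (G : N) : N := PowerSeries.mk fun a => B (PowerSeries.coeff a G)

theorem coeff_By (G : N) (a : ℕ) : PowerSeries.coeff a (By G) = B (PowerSeries.coeff a G) := by
  simp [By]

theorem By_sub (g h : N) : By (g - h) = By g - By h := by
  ext a : 1
  simp only [coeff_By, map_sub, B_sub]

theorem By_add (g h : N) : By (g + h) = By g + By h := by
  ext a : 1
  simp only [coeff_By, map_add, B_add]

theorem B_zero {A : Type*} [CommRing A] : B (0 : PowerSeries A) = 0 := by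
  ext b
  simp [coeff_B]

theorem By_x_mul (g : N) : By (x * g) = x * By g := by
  ext a : 1
  rcases a with _ | a
  · simp [coeff_By, x, B_zero]
  · rw [coeff_By, x, PowerSeries.coeff_succ_X_mul, PowerSeries.coeff_succ_X_mul, coeff_By]

theorem By_y_mul (g : N) : (1 - y) * By (y * g) = - (y * By g) := by
  ext a : 1
  have h1 : (1 - y : N) = PowerSeries.C (1 - PowerSeries.X) := by simp [y]
  rw [h1, PowerSeries.coeff_C_mul, coeff_By, map_neg, y, PowerSeries.coeff_C_mul,
    PowerSeries.coeff_C_mul, coeff_By, B_X]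

theorem By_one : (1 - y) * By 1 = 1 := by
  ext a : 1
  have h1 : (1 - y : N) = PowerSeries.C (1 - PowerSeries.X) := by simp [y]
  rw [h1, PowerSeries.coeff_C_mul, coeff_By]
  rcases a with _ | a
  · rw [PowerSeries.coeff_zero_one, B_one]
  · simp [PowerSeries.coeff_one, B_zero]

/-- the double transform -/
noncomputable def T (G : N) : N := B (By G)

theorem T_sub (g h : N) : T (g - h) = T g - T h := by rw [T, By_sub, B_sub]; rfl
theorem T_add (g h : N) : T (g + h) = T g + T h := by rw [T, By_add, B_add]; rfl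

theorem T_x (g : N) : (1 - x) * T (x * g) = - (x * T g) := by
  rw [T, By_x_mul]
  exact B_X _

theorem T_y (g : N) : (1 - y) * T (y * g) = - (y * T g) := by
  have h1 : (1 - y : N) = PowerSeries.C (1 - PowerSeries.X) := by simp [y]
  unfold T
  rw [h1, ← B_C_mul, ← h1, By_y_mul, B_neg]
  unfold y
  rw [B_C_mul]

theorem T_one : (1 - x) * (1 - y) * T 1 = 1 := by
  have h1 : (1 - y : N) = PowerSeries.C (1 - PowerSeries.X) := by simp [y]
  have h2 : (1 - y) * T 1 = B 1 := by
    unfold T
    rw [h1, ← B_C_mul, ← h1, By_one]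
  rw [mul_assoc, h2]
  exact B_one

theorem T_F : T F = - F := by
  have key : (1 - x * y) * (1 - x - y) * T F = -(y - x) := by
    have h := congrArg T F_mul
    have e : (1 - x * y) * (1 - x - y) * F = F - x * F - y * F - x * (y * F) + x * (x * (y * F))
        + x * (y * (y * F)) := by ring
    have e2 : (y - x : N) = y * 1 - x * 1 := by ring
    rw [e, e2] at h
    simp only [T_add, T_sub] at h
    have a1 := T_x F
    have a2 := T_y F
    have a3 := T_x (y * F)
    have a4 := T_x (x * (y * F))
    have a5 := T_x (y * (y * F))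
    have a6 := T_y (y * F)
    have b1 := T_x 1
    have b2 := T_y 1
    have b3 := T_one
    have hx : (1 - x : N) ≠ 0 := by
      intro h
      have h1 := congrArg (fun G => PowerSeries.constantCoeff (PowerSeries.constantCoeff G)) h
      simp [x] at h1
    have hy : (1 - y : N) ≠ 0 := by
      intro h
      have h1 := congrArg (fun G => PowerSeries.constantCoeff (PowerSeries.constantCoeff G)) h
      simp [y] at h1
    -- everything times (1-x)^2 (1-y)^2
    generalize T (x * F) = t1 at *
    generalize T (y * F) = t2 at *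
    generalize T (x * (y * F)) = t3 at *
    generalize T (x * (x * (y * F))) = t4 at *
    generalize T (x * (y * (y * F))) = t5 at *
    generalize T (y * (y * F)) = t6 at *
    generalize T (x * 1) = u1 at *
    generalize T (y * 1) = u2 at *
    generalize T 1 = u3 at *
    generalize T F = t0 at *
    linear_combination (1 - x) ^ 2 * (1 - y) ^ 2 * h + (1 - x) * (1 - y) ^ 2 * a1
      + ((1 - x) ^ 2 * (1 - y) - (1 - x) * (1 - y) * x - (1 - y) * x ^ 2 - (1 - x) * x * y) * a2
      + ((1 - x) * (1 - y) ^ 2 + (1 - y) ^ 2 * x) * a3 - (1 - x) * (1 - y) ^ 2 * a4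
      - (1 - x) * (1 - y) ^ 2 * a5 + (1 - x) * (1 - y) * x * a6
      + (1 - x) ^ 2 * (1 - y) * b2 - (1 - x) * y * b3 - (1 - x) * (1 - y) ^ 2 * b1
      + (1 - y) * x * b3
  have h2 := F_mul
  apply mul_left_cancel₀ D_ne
  rw [key, ← F_mul]
  ring

/-- the swap of the variables -/
noncomputable def sw (G : N) : N :=
  PowerSeries.mk fun a => PowerSeries.mk fun b => PowerSeries.coeff a (PowerSeries.coeff b G)

theorem coeff_sw (G : N) (a b : ℕ) : PowerSeries.coeff b (PowerSeries.coeff a (sw G)) =
    PowerSeries.coeff a (PowerSeries.coeff b G) := by simp [sw]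

theorem sw_sub (g h : N) : sw (g - h) = sw g - sw h := by
  ext a b
  simp only [coeff_sw, map_sub]

theorem sw_add (g h : N) : sw (g + h) = sw g + sw h := by
  ext a b
  simp only [coeff_sw, map_add]

theorem sw_x (g : N) : sw (x * g) = y * sw g := by
  ext a b
  rw [coeff_sw, x, y, PowerSeries.coeff_C_mul]
  rcases b with _ | b
  · simp
  · rw [PowerSeries.coeff_succ_X_mul, PowerSeries.coeff_succ_X_mul, coeff_sw]

theorem sw_y (g : N) : sw (y * g) = x * sw g := by
  ext a b
  rw [coeff_sw, x, y, PowerSeries.coeff_C_mul]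
  rcases a with _ | a
  · simp
  · rw [PowerSeries.coeff_succ_X_mul, PowerSeries.coeff_succ_X_mul, coeff_sw]

theorem sw_one : sw 1 = 1 := by
  ext a b
  rw [coeff_sw, PowerSeries.coeff_one, PowerSeries.coeff_one]
  by_cases ha : a = 0 <;> by_cases hb : b = 0 <;> simp [ha, hb, PowerSeries.coeff_one]

theorem sw_F : sw F = - F := by
  have h := congrArg sw F_mul
  have e : (1 - x * y) * (1 - x - y) * F = F - x * F - y * F - x * (y * F) + x * (x * (y * F))
      + x * (y * (y * F)) := by ring
  have e2 : (y - x : N) = y * 1 - x * 1 := by ring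
  rw [e, e2] at h
  simp only [sw_add, sw_sub, sw_x, sw_y, sw_one] at h
  apply mul_left_cancel₀ D_ne
  have h2 := F_mul
  linear_combination h + h2

theorem c_skew (a b : ℕ) : c a b = - c b a := by
  have h := congrArg (fun G => PowerSeries.coeff b (PowerSeries.coeff a G)) sw_F
  simp only [coeff_sw, coeff_F, map_neg] at h
  linarith

/-- the binomial transform of the coefficients -/
theorem c_trans (a b : ℕ) : ∑ k ∈ Finset.range (a + 1), ∑ l ∈ Finset.range (b + 1),
    ((-1) ^ k * (a.choose k : ℚ)) * (((-1) ^ l * (b.choose l : ℚ)) * c k l) = - c a b := by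
  have h := congrArg (fun G => PowerSeries.coeff b (PowerSeries.coeff a G)) T_F
  simp only [map_neg, coeff_F] at h
  rw [← h, T, coeff_B, map_sum]
  apply Finset.sum_congr rfl
  intro k _
  have e : ((-1) ^ k * (a.choose k : PowerSeries ℚ)) =
      PowerSeries.C ((-1) ^ k * (a.choose k : ℚ)) := by simp
  rw [e, PowerSeries.coeff_C_mul, coeff_By, coeff_B, Finset.mul_sum]
  simp only [coeff_F]

end Pool.Agent.L7h56.OS
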