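import Pool.Agent.L7h56.OS.Tup

/-!
# The partition function is a Pfaffian
-/

set_option autoImplicit false

namespace Pool.Agent.L7h56.OS

open Polynomial (C X)
open Pool.Agent.Helper929 (pf pf_gram pf_map)

section fld

set_option linter.unusedSectionVars false

variable {F : Type*} [Field F]

/-- genericity -/
structure Gen {n : ℕ} (x : Fin n → F) : Prop where
  ne : ∀ i j, ab (x i) (x j) ≠ 0
  inj : Function.Injective x

theorem Gen.comp {n m : ℕ} {x : Fin n → F} (h : Gen x) (e : Fin m → Fin n)
    (he : Function.Injective e) : Gen (x ∘ e) :=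
  ⟨fun _ _ => h.ne _ _, h.inj.comp he⟩

theorem Gen.sub_ne {n : ℕ} {x : Fin n → F} (h : Gen x) (i j : Fin n) : 1 - x i - x j ≠ 0 := by
  have := h.ne i j
  unfold ab at this
  exact right_ne_zero_of_mul this

/-- sums of products as polynomials -/
noncomputable def Qp {m : ℕ} (x q : Fin (m + 1) → F) : Polynomial F :=
  ∑ j, C (q j) * ((C (x j) - X) * ∏ k, ab X (C (x (j.succAbove k))))

theorem ab_eval (y x : F) : (ab X (C x) : Polynomial F).eval y = ab y x := by
  simp only [ab, Polynomial.eval_mul, Polynomial.eval_sub, Polynomial.eval_one, Polynomial.eval_X,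
    Polynomial.eval_C]

theorem Qp_eval {m : ℕ} (x q : Fin (m + 1) → F) (y : F) : (Qp x q).eval y =
    ∑ j, q j * ((x j - y) * ∏ k, ab y (x (j.succAbove k))) := by
  simp only [Qp, Polynomial.eval_finsetSum, Polynomial.eval_mul, Polynomial.eval_C,
    Polynomial.eval_sub, Polynomial.eval_X, Polynomial.eval_prod, ab_eval]

theorem ab_degree (x : F) : (ab X (C x) : Polynomial F).degree ≤ 2 := by
  unfold ab
  refine (Polynomial.degree_mul_le _ _).trans ?_
  have h1 : (1 - X * C x : Polynomial F).degree ≤ 1 := by
    refine (Polynomial.degree_sub_le _ _).trans (max_le ?_ ?_)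
    · exact Polynomial.degree_one_le.trans zero_le_one
    · refine (Polynomial.degree_mul_le _ _).trans ?_
      have h2 : (X : Polynomial F).degree ≤ 1 := Polynomial.degree_X_le
      have h3 : (C x : Polynomial F).degree ≤ 0 := Polynomial.degree_C_le
      simpa using add_le_add h2 h3
  have h3 : (1 - X - C x : Polynomial F).degree ≤ 1 := by
    refine (Polynomial.degree_sub_le _ _).trans (max_le ?_ ?_)
    · refine (Polynomial.degree_sub_le _ _).trans (max_le ?_ Polynomial.degree_X_le)
      exact Polynomial.degree_one_le.trans zero_le_one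
    · exact Polynomial.degree_C_le.trans zero_le_one
  calc _ ≤ (1 : WithBot ℕ) + 1 := add_le_add h1 h3
    _ = 2 := by norm_num

theorem prod_degree {ι : Type*} (s : Finset ι) (f : ι → Polynomial F) (d : ℕ)
    (h : ∀ i ∈ s, (f i).degree ≤ d) : (∏ i ∈ s, f i).degree ≤ (s.card * d : ℕ) := by
  refine (Polynomial.degree_prod_le _ _).trans ?_
  calc ∑ i ∈ s, (f i).degree ≤ ∑ i ∈ s, (d : WithBot ℕ) := Finset.sum_le_sum h
    _ = _ := by simp

theorem Qp_degree {m : ℕ} (x q : Fin (m + 1) → F) :
    (Qp x q).degree < (2 * (m + 1) : ℕ) := by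
  unfold Qp
  refine (Polynomial.degree_sum_le _ _).trans_lt ?_
  rw [Finset.sup_lt_iff (WithBot.bot_lt_coe _)]
  intro j _
  refine (Polynomial.degree_mul_le _ _).trans_lt ?_
  have h1 : (C (x j) - X : Polynomial F).degree ≤ (1 : ℕ) := by
    refine (Polynomial.degree_sub_le _ _).trans (max_le ?_ Polynomial.degree_X_le)
    exact Polynomial.degree_C_le.trans (by norm_num)
  have h2 : (∏ k, ab X (C (x (j.succAbove k))) : Polynomial F).degree ≤ (m * 2 : ℕ) := by
    have := prod_degree Finset.univ (fun k => (ab X (C (x (j.succAbove k))) : Polynomial F)) 2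
      (fun k _ => ab_degree _)
    simpa using this
  have h3 : ((C (x j) - X) * ∏ k, ab X (C (x (j.succAbove k))) : Polynomial F).degree ≤
      ((1 + m * 2 : ℕ) : WithBot ℕ) := by
    refine (Polynomial.degree_mul_le _ _).trans ?_
    push_cast at h1 h2 ⊢
    exact add_le_add h1 h2
  calc _ ≤ (0 : WithBot ℕ) + ((1 + m * 2 : ℕ) : WithBot ℕ) :=
      add_le_add Polynomial.degree_C_le h3
    _ < _ := by
      rw [zero_add]
      exact_mod_cast (by omega : 1 + m * 2 < 2 * (m + 1))

theorem Qp_one_sub {m : ℕ} (x q : Fin (m + 1) → F) (i : Fin (m + 1)) :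
    (Qp x q).eval (1 - x i) =
      q i * ((x i - (1 - x i)) * ∏ k, ab (1 - x i) (x (i.succAbove k))) := by
  rw [Qp_eval, Finset.sum_eq_single i]
  · intro j _ hj
    obtain ⟨k, hk⟩ := Fin.exists_succAbove_eq (x := i) (y := j) hj.symm
    rw [Finset.prod_eq_zero (Finset.mem_univ k)]
    · ring
    · rw [hk]
      unfold ab
      ring
  · simp

theorem Qp_fk {m : ℕ} (x q : Fin (m + 1) → F) (y : F) (hy : ∀ k, ab y (x k) ≠ 0) :
    (Qp x q).eval y = (∏ k, ab y (x k)) * ∑ j, q j * fk y (x j) := by
  rw [Qp_eval, Finset.mul_sum]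
  apply Finset.sum_congr rfl
  intro j _
  rw [Fin.prod_univ_succAbove _ j]
  unfold fk
  field_simp [hy j]

theorem interp {m : ℕ} (x : Fin (m + 1) → F) (hx : Gen x) (A B : Polynomial F)
    (hA : A.degree < (2 * (m + 1) : ℕ)) (hB : B.degree < (2 * (m + 1) : ℕ))
    (h1 : ∀ i, A.eval (x i) = B.eval (x i)) (h2 : ∀ i, A.eval (1 - x i) = B.eval (1 - x i)) :
    A = B := by
  classical
  refine Polynomial.eq_of_degree_sub_lt_of_eval_finset_eq
    (Finset.univ.image x ∪ Finset.univ.image (fun i => 1 - x i)) ?_ ?_
  · have hc : (Finset.univ.image x ∪ Finset.univ.image (fun i => 1 - x i)).card = 2 * (m + 1) := by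
      rw [Finset.card_union_of_disjoint]
      · rw [Finset.card_image_of_injective _ hx.inj, Finset.card_image_of_injective]
        · simp; ring
        · intro i j hij
          exact hx.inj (by simpa using hij)
      · rw [Finset.disjoint_left]
        intro z hz1 hz2
        simp only [Finset.mem_image, Finset.mem_univ, true_and] at hz1 hz2
        obtain ⟨i, rfl⟩ := hz1
        obtain ⟨j, hj⟩ := hz2
        apply hx.sub_ne j i
        rw [hj, sub_self]
    rw [hc]
    exact (Polynomial.degree_sub_le _ _).trans_lt (max_lt hA hB)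
  · intro z hz
    simp only [Finset.mem_union, Finset.mem_image, Finset.mem_univ, true_and] at hz
    rcases hz with ⟨i, rfl⟩ | ⟨i, rfl⟩
    · exact h1 i
    · exact h2 i

theorem interp' {m : ℕ} (x : Fin (m + 1) → F) (hx : Gen x) (A B : Polynomial F)
    (hA : A.degree < (2 * (m + 1) + 1 : ℕ)) (hB : B.degree < (2 * (m + 1) + 1 : ℕ))
    (h1 : ∀ i, A.eval (x i) = B.eval (x i)) (h2 : ∀ i, A.eval (1 - x i) = B.eval (1 - x i))
    (z : F) (hz : 2 * z = 1) (h3 : A.eval z = B.eval z) :
    A = B := by
  classical
  refine Polynomial.eq_of_degree_sub_lt_of_eval_finset_eq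
    (insert z (Finset.univ.image x ∪ Finset.univ.image (fun i => 1 - x i))) ?_ ?_
  · have hc : (insert z (Finset.univ.image x ∪ Finset.univ.image (fun i => 1 - x i))).card =
        2 * (m + 1) + 1 := by
      rw [Finset.card_insert_of_notMem, Finset.card_union_of_disjoint]
      · rw [Finset.card_image_of_injective _ hx.inj, Finset.card_image_of_injective]
        · simp; ring
        · intro i j hij
          exact hx.inj (by simpa using hij)
      · rw [Finset.disjoint_left]
        intro z hz1 hz2
        simp only [Finset.mem_image, Finset.mem_univ, true_and] at hz1 hz2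
        obtain ⟨i, rfl⟩ := hz1
        obtain ⟨j, hj⟩ := hz2
        apply hx.sub_ne j i
        rw [hj, sub_self]
      · simp only [Finset.mem_union, Finset.mem_image, Finset.mem_univ, true_and]
        rintro (⟨i, rfl⟩ | ⟨i, hi⟩)
        · apply hx.sub_ne i i
          linear_combination -hz
        · apply hx.sub_ne i i
          linear_combination 2 * hi + hz
    rw [hc]
    exact (Polynomial.degree_sub_le _ _).trans_lt (max_lt hA hB)
  · intro w hw
    simp only [Finset.mem_insert, Finset.mem_union, Finset.mem_image, Finset.mem_univ,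
      true_and] at hw
    rcases hw with rfl | ⟨i, rfl⟩ | ⟨i, rfl⟩
    · exact h3
    · exact h1 i
    · exact h2 i


theorem two_ne {n : ℕ} {x : Fin n → F} (h : Gen x) (i : Fin n) : 1 - 2 * x i ≠ 0 := by
  have := h.sub_ne i i
  intro h0
  apply this
  linear_combination h0

/-- the algebraic identity at `1 - x i` -/
theorem prod_id {m : ℕ} (x : Fin m → F) (z : F) :
    (∏ k, (1 - z * x k)) * (∏ k, (1 - (1 - z) * x k)) * ((∏ k, (x k - (1 - z))) *
      ∏ k, (x k - z)) = (∏ k, ab z (x k)) * ∏ k, ab (1 - z) (x k) := by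
  simp only [← Finset.prod_mul_distrib]
  apply Finset.prod_congr rfl
  intro k _
  unfold ab
  ring

/-- the polynomial on the left-hand side -/
noncomputable def Lp {m : ℕ} (x : Fin (m + 1) → F) (P : Polynomial F) : Polynomial F :=
  P * (∏ k, (C (x k) - X)) * C (V x)

theorem Lp_eval {m : ℕ} (x : Fin (m + 1) → F) (P : Polynomial F) (y : F) :
    (Lp x P).eval y = P.eval y * (∏ k, (x k - y)) * V x := by
  simp only [Lp, Polynomial.eval_mul, Polynomial.eval_prod, Polynomial.eval_sub,
    Polynomial.eval_C, Polynomial.eval_X]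

theorem Lp_eval_self {m : ℕ} (x : Fin (m + 1) → F) (P : Polynomial F) (i : Fin (m + 1)) :
    (Lp x P).eval (x i) = 0 := by
  rw [Lp_eval, Finset.prod_eq_zero (Finset.mem_univ i) (sub_self _)]
  ring

theorem Lp_degree {m : ℕ} (x : Fin (m + 1) → F) (P : Polynomial F) (d : ℕ)
    (hP : P.degree < (d : WithBot ℕ)) : (Lp x P).degree < (m + 1 + d : ℕ) := by
  unfold Lp
  refine (Polynomial.degree_mul_le _ _).trans_lt ?_
  have h2 : (∏ k, (C (x k) - X) : Polynomial F).degree ≤ (m + 1 : ℕ) := by
    have := prod_degree Finset.univ (fun k => (C (x k) - X : Polynomial F)) 1 (fun k _ => by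
      refine (Polynomial.degree_sub_le _ _).trans (max_le ?_ Polynomial.degree_X_le)
      exact Polynomial.degree_C_le.trans (by norm_num))
    simpa using this
  have h3 : (P * ∏ k, (C (x k) - X) : Polynomial F).degree < ((m + 1 + d : ℕ) : WithBot ℕ) := by
    rcases eq_or_ne P 0 with h0 | h0
    · rw [h0, zero_mul, Polynomial.degree_zero]
      exact WithBot.bot_lt_coe _
    · refine (Polynomial.degree_mul_le _ _).trans_lt ?_
      rw [Polynomial.degree_eq_natDegree h0] at hP ⊢
      have h5 : P.natDegree < d := by exact_mod_cast hP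
      calc _ ≤ (P.natDegree : WithBot ℕ) + (m + 1 : ℕ) := add_le_add le_rfl h2
        _ < _ := by exact_mod_cast (by omega : P.natDegree + (m + 1) < m + 1 + d)
  calc _ ≤ (P * ∏ k, (C (x k) - X) : Polynomial F).degree + (0 : WithBot ℕ) :=
      add_le_add le_rfl Polynomial.degree_C_le
    _ < _ := by rw [add_zero]; exact h3

/-- the value of `Z0` at `1 - x i` -/
theorem Z0_one_sub {m : ℕ} (x : Fin (m + 1) → F) (i : Fin (m + 1)) :
    Z0 ((1 - x i) :: List.ofFn x) = pA (x i) (List.ofFn (x ∘ i.succAbove)) *
      pA (1 - x i) (List.ofFn (x ∘ i.succAbove)) * ((1 - 2 * x i) * (1 - 2 * (1 - x i))) *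
        Z0 (List.ofFn (x ∘ i.succAbove)) := by
  rw [← Z0_pair]
  apply Z0_perm
  exact ((ofFn_perm x i).cons _).trans (List.Perm.swap _ _ _)

theorem Z1_one_sub {m : ℕ} (x : Fin (m + 1) → F) (i : Fin (m + 1)) :
    Z1 ((1 - x i) :: List.ofFn x) = pA (x i) (List.ofFn (x ∘ i.succAbove)) *
      pA (1 - x i) (List.ofFn (x ∘ i.succAbove)) * ((1 - 2 * x i) * (1 - 2 * (1 - x i))) *
        Z1 (List.ofFn (x ∘ i.succAbove)) := by
  rw [← Z1_pair]
  apply Z1_perm
  exact ((ofFn_perm x i).cons _).trans (List.Perm.swap _ _ _)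

theorem even_formula [CharZero F] : ∀ (n : ℕ) (x : Fin (2 * n) → F), Gen x →
    Z0 (List.ofFn x) * V x = kp (List.ofFn x) * AB (List.ofFn x) *
      pf (2 * n) (Mt (fun i => some (x i))) := by
  intro n
  induction n with
  | zero =>
    intro x _
    have e : List.ofFn x = [] := List.ofFn_zero
    rw [e]
    simp [Z0_nil, kp, AB, V, pf]
  | succ n ih =>
    intro x hx
    change Fin (2 * n + 1 + 1) → F at x
    change Z0 (List.ofFn x) * V x = kp (List.ofFn x) * AB (List.ofFn x) *
      pf (2 * n + 2) (Mt (fun i => some (x i)))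
    have hx2 : Gen x := hx
    obtain ⟨y, x', rfl⟩ : ∃ (y : F) (x' : Fin (2 * n + 1) → F), x = Fin.cons y x' :=
      ⟨x 0, Fin.tail x, (Fin.cons_self_tail x).symm⟩
    have hx' : Gen x' := by
      have := hx2.comp Fin.succ (Fin.succ_injective _)
      simpa [Function.comp_def] using this
    have hy : ∀ k, ab y (x' k) ≠ 0 := fun k => by simpa using hx2.ne 0 k.succ
    have hyy : 1 - 2 * y ≠ 0 := by simpa using two_ne hx2 0
    obtain ⟨P, hP1, hP2⟩ := Z0_poly (List.ofFn x')
    rw [List.length_ofFn] at hP1
    set q : Fin (2 * n + 1) → F := fun j => (-1) ^ (j : ℕ) *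
      pf (2 * n) (Mt (fun k => some (x' (j.succAbove k)))) with hq
    have hpf : ∀ z : F, (∀ k, ab z (x' k) ≠ 0) → (Qp x' q).eval z =
        (∏ k, ab z (x' k)) * pf (2 * n + 2)
          (Mt (Fin.cons (some z) (fun k => some (x' k)) : Fin (2 * n + 2) → Option F)) := by
      intro z hz
      rw [Qp_fk _ _ _ hz, pf_expand]
      congr 1
      apply Finset.sum_congr rfl
      intro j _
      simp only [hq, fo]
      have e : ((fun k => some (x' k)) ∘ j.succAbove) = fun k => some (x' (j.succAbove k)) := rfl
      rw [e]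
      ring
    have key : Lp x' P = C (kp (List.ofFn x') * AB (List.ofFn x')) * Qp x' q := by
      apply interp x' hx'
      · have := Lp_degree x' P _ hP1
        have e : 2 * n + 1 + (2 * n + 1) = 2 * (2 * n + 1) := by ring
        rw [e] at this
        exact this
      · refine (Polynomial.degree_mul_le _ _).trans_lt ?_
        calc _ ≤ (0 : WithBot ℕ) + (Qp x' q).degree := add_le_add Polynomial.degree_C_le le_rfl
          _ < _ := by rw [zero_add]; exact Qp_degree _ _
      · intro i
        rw [Lp_eval_self, Polynomial.eval_mul, hpf _ (fun k => hx'.ne i k),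
          pf_repeat (2 * n) (some (x' i)) (fun k => some (x' k)) i rfl]
        ring
      · intro i
        rw [Lp_eval, Polynomial.eval_mul, Polynomial.eval_C, Qp_one_sub]
        have h1 := hP2 (1 - x' i)
        rw [Z0_one_sub] at h1
        have h2 : 1 - 2 * (1 - x' i) ≠ 0 := by
          intro h0
          apply two_ne hx' i
          linear_combination -h0
        have h3 : P.eval (1 - x' i) = pA (x' i) (List.ofFn (x' ∘ i.succAbove)) *
            pA (1 - x' i) (List.ofFn (x' ∘ i.succAbove)) * (1 - 2 * x' i) *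
              Z0 (List.ofFn (x' ∘ i.succAbove)) := by
          apply mul_left_cancel₀ h2
          rw [← h1]
          ring
        have h4 := ih (x' ∘ i.succAbove) (hx'.comp _ Fin.succAbove_right_injective)
        have h5 := V_remove x' i
        have h6 := kp_perm (ofFn_perm x' i)
        have h7 := AB_perm (ofFn_perm x' i)
        rw [kp_cons] at h6
        rw [AB, pab_ofFn] at h7
        rw [h3, h6, h7, h5, pA_ofFn, pA_ofFn, Fin.prod_univ_succAbove _ i]
        have h8 := prod_id (fun k => x' (i.succAbove k)) (x' i)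
        simp only [Function.comp_apply, hq] at h4 h8 ⊢
        linear_combination (1 - 2 * x' i) * ((x' i - (1 - x' i)) * (-1) ^ (i : ℕ)) *
          ((∏ k, (1 - x' i * x' (i.succAbove k))) * (∏ k, (1 - (1 - x' i) * x' (i.succAbove k))) *
            ((∏ k, (x' (i.succAbove k) - (1 - x' i))) * ∏ k, (x' (i.succAbove k) - x' i))) * h4 +
          (1 - 2 * x' i) * ((x' i - (1 - x' i)) * (-1) ^ (i : ℕ)) *
            (kp (List.ofFn (x' ∘ i.succAbove)) * AB (List.ofFn (x' ∘ i.succAbove)) *
              pf (2 * n) (Mt (fun k => some (x' (i.succAbove k))))) * h8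
    have h9 := congrArg (Polynomial.eval y) key
    rw [Lp_eval, Polynomial.eval_mul, Polynomial.eval_C, hpf _ hy] at h9
    have e1 : (fun i => some ((Fin.cons y x' : Fin (2 * n + 1 + 1) → F) i)) =
        (Fin.cons (some y) (fun k => some (x' k)) : Fin (2 * n + 2) → Option F) := by
      funext i
      refine Fin.cases ?_ (fun i => ?_) i
      · rfl
      · rfl
    rw [ofFn_cons', hP2, V_cons, kp_cons, AB, pab_ofFn, e1]
    linear_combination (1 - 2 * y) * h9


/-- the bordered tuple -/
def bt {n : ℕ} (x : Fin n → F) : Fin (n + 1) → Option F :=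
  Fin.snoc (α := fun _ => Option F) (fun i => some (x i)) none

theorem bt_castSucc {n : ℕ} (x : Fin n → F) (i : Fin n) : bt x i.castSucc = some (x i) := by
  unfold bt
  rw [Fin.snoc_castSucc]

theorem bt_last {n : ℕ} (x : Fin n → F) : bt x (Fin.last n) = none := by
  unfold bt
  rw [Fin.snoc_last]

theorem bt_cons {n : ℕ} (y : F) (x : Fin n → F) :
    bt (Fin.cons y x : Fin (n + 1) → F) = (Fin.cons (some y) (bt x) : Fin (n + 2) → Option F) := by
  funext i
  refine Fin.lastCases ?_ (fun i => ?_) i
  · rw [bt_last]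
    have : (Fin.last (n + 1)) = (Fin.last n).succ := (Fin.succ_last n).symm
    rw [this, Fin.cons_succ, bt_last]
  · rw [bt_castSucc]
    refine Fin.cases ?_ (fun i => ?_) i
    · rw [Fin.castSucc_zero, Fin.cons_zero, Fin.cons_zero]
    · rw [← Fin.succ_castSucc, Fin.cons_succ, Fin.cons_succ, bt_castSucc]

theorem bt_comp {n : ℕ} (x : Fin (n + 1) → F) (i : Fin (n + 1)) :
    bt x ∘ i.castSucc.succAbove = bt (x ∘ i.succAbove) := by
  funext k
  refine Fin.lastCases ?_ (fun k => ?_) k
  · rw [bt_last, Function.comp_apply]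
    have : i.castSucc.succAbove (Fin.last n) = Fin.last (n + 1) := by
      rw [Fin.succAbove_of_le_castSucc, Fin.succ_last]
      rw [Fin.le_def]
      have := i.2
      simp only [Fin.val_castSucc, Fin.val_last]
      omega
    rw [this, bt_last]
  · rw [Function.comp_apply, Fin.castSucc_succAbove_castSucc, bt_castSucc, bt_castSucc]
    rfl

theorem odd_formula [CharZero F] : ∀ (n : ℕ) (x : Fin (2 * n + 1) → F), Gen x →
    Z1 (List.ofFn x) * V x = kp (List.ofFn x) * AB (List.ofFn x) *
      pf (2 * n + 2) (Mt (bt x)) := by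
  intro n
  induction n with
  | zero =>
    intro x hx
    have hy : 1 - 2 * x 0 ≠ 0 := two_ne hx 0
    have e : List.ofFn x = [x 0] := by simp [List.ofFn_succ]
    have e2 : pf (2 * 0 + 2) (Mt (bt x)) = (1 - 2 * x 0)⁻¹ := by
      have e3 : bt x = (Fin.cons (some (x 0)) (fun _ => none) : Fin 2 → Option F) := by
        funext i
        refine Fin.lastCases ?_ (fun i => ?_) i
        · rw [bt_last]; rfl
        · rw [bt_castSucc]
          have : i = 0 := Subsingleton.elim _ _
          subst this
          rfl
      change pf (0 + 2) (Mt (bt x)) = _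
      rw [e3, pf_expand]
      simp [fo, pf]
    rw [e, e2, Z1_cons, Z0_nil]
    simp only [rowT, List.length_nil, List.replicate_zero, cond_false, mul_zero, zero_add, pA,
      List.map_nil, List.prod_nil, kp, AB, pab, List.map_cons, List.prod_cons, mul_one, V]
    rw [mul_inv_cancel₀ hy, one_mul]
    apply Finset.prod_eq_one
    intro i _
    apply Finset.prod_eq_one
    intro j hj
    rw [Finset.mem_Ioi] at hj
    have h1 := i.2
    have h2 := j.2
    rw [Fin.lt_def] at hj
    omega
  | succ n ih =>
    intro x hx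
    change Fin (2 * n + 2 + 1) → F at x
    change Z1 (List.ofFn x) * V x = kp (List.ofFn x) * AB (List.ofFn x) *
      pf (2 * n + 2 + 2) (Mt (bt x))
    have hx2 : Gen x := hx
    obtain ⟨y, x', rfl⟩ : ∃ (y : F) (x' : Fin (2 * n + 1 + 1) → F), x = Fin.cons y x' :=
      ⟨x 0, Fin.tail x, (Fin.cons_self_tail x).symm⟩
    have hx' : Gen x' := by
      have := hx2.comp Fin.succ (Fin.succ_injective _)
      simpa [Function.comp_def] using this
    have hy : ∀ k, ab y (x' k) ≠ 0 := fun k => by simpa using hx2.ne 0 k.succ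
    have hyy : 1 - 2 * y ≠ 0 := by simpa using two_ne hx2 0
    obtain ⟨P, hP1, hP2⟩ := Z1_poly (List.ofFn x')
    rw [List.length_ofFn] at hP1
    set q : Fin (2 * n + 1 + 1) → F := fun j => (-1) ^ (j : ℕ) *
      pf (2 * n + 2) (Mt (bt (x' ∘ j.succAbove))) with hq
    set p0 : F := pf (2 * n + 2) (Mt (fun k => some (x' k))) with hp0
    set W : Polynomial F := ∏ k, ab X (C (x' k)) with hW
    have hWe : ∀ z, W.eval z = ∏ k, ab z (x' k) := by
      intro z
      rw [hW, Polynomial.eval_prod]
      simp only [ab_eval]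
    have hWd : W.degree ≤ (2 * (2 * n + 1 + 1) : ℕ) := by
      have := prod_degree Finset.univ (fun k => (ab X (C (x' k)) : Polynomial F)) 2
        (fun k _ => ab_degree _)
      rw [Finset.card_univ, Fintype.card_fin] at this
      rw [hW]
      refine this.trans ?_
      exact_mod_cast (by omega : (2 * n + 1 + 1) * 2 ≤ 2 * (2 * n + 1 + 1))
    have hpf : ∀ z : F, 1 - 2 * z ≠ 0 → (∀ k, ab z (x' k) ≠ 0) →
        (1 - 2 * z) * (Qp x' q).eval z + W.eval z * p0 =
        (1 - 2 * z) * (∏ k, ab z (x' k)) * pf (2 * n + 2 + 2)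
          (Mt (Fin.cons (some z) (bt x') : Fin (2 * n + 2 + 2) → Option F)) := by
      intro z hz1 hz
      rw [Qp_fk _ _ _ hz, pf_expand, hWe, Fin.sum_univ_castSucc (n := 2 * n + 2)]
      have e2 : bt x' ∘ (Fin.last (2 * n + 2)).succAbove = fun k => some (x' k) := by
        funext k
        rw [Function.comp_apply, Fin.succAbove_last, bt_castSucc]
      have e3 : ((-1 : F)) ^ ((Fin.last (2 * n + 2) : Fin (2 * n + 2 + 1)) : ℕ) = 1 := by
        rw [Fin.val_last]
        have : 2 * n + 2 = 2 * (n + 1) := by ring
        rw [this, pow_mul]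
        simp
      rw [e2, e3, bt_last]
      have e4 : ∀ j : Fin (2 * n + 1 + 1), (-1) ^ ((j.castSucc : Fin (2 * n + 2 + 1)) : ℕ) *
          fo (some z) (bt x' j.castSucc) *
            pf (2 * n + 2) (Mt (bt x' ∘ (j.castSucc : Fin (2 * n + 2 + 1)).succAbove)) =
          q j * fk z (x' j) := by
        intro j
        rw [bt_castSucc, bt_comp, hq, Fin.val_castSucc]
        simp only [fo]
        ring
      rw [Finset.sum_congr rfl (fun j _ => e4 j), ← hp0]
      simp only [fo]
      field_simp
    have key : Lp x' P = C (kp (List.ofFn x') * AB (List.ofFn x')) *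
        ((1 - 2 * X) * Qp x' q + W * C p0) := by
      have e2X : (1 - 2 * X : Polynomial F) = 1 - C 2 * X := by simp [map_ofNat]
      apply interp' x' hx' (z := 2⁻¹) (hz := by norm_num)
      · have := Lp_degree x' P (2 * n + 1 + 1 + 1) (lt_of_le_of_lt hP1 (by
          exact_mod_cast Nat.lt_succ_self _))
        have e : 2 * n + 1 + 1 + (2 * n + 1 + 1 + 1) = 2 * (2 * n + 1 + 1) + 1 := by ring
        rw [e] at this
        exact this
      · refine (Polynomial.degree_mul_le _ _).trans_lt ?_
        have h1 : ((1 - 2 * X) * Qp x' q + W * C p0 : Polynomial F).degree <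
            ((2 * (2 * n + 1 + 1) + 1 : ℕ) : WithBot ℕ) := by
          refine (Polynomial.degree_add_le _ _).trans_lt (max_lt ?_ ?_)
          · have h3 : (1 - 2 * X : Polynomial F).degree ≤ 1 := by
              rw [e2X]
              refine (Polynomial.degree_sub_le _ _).trans (max_le ?_ ?_)
              · exact Polynomial.degree_one_le.trans zero_le_one
              · refine (Polynomial.degree_mul_le _ _).trans ?_
                simpa using add_le_add (Polynomial.degree_C_le (a := (2 : F)))
                  (Polynomial.degree_X_le)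
            rcases eq_or_ne (Qp x' q) 0 with h0 | h0
            · rw [h0, mul_zero, Polynomial.degree_zero]
              exact WithBot.bot_lt_coe _
            · refine (Polynomial.degree_mul_le _ _).trans_lt ?_
              have h4 := Qp_degree x' q
              rw [Polynomial.degree_eq_natDegree h0] at h4 ⊢
              have h5 : (Qp x' q).natDegree < 2 * (2 * n + 1 + 1) := by exact_mod_cast h4
              calc _ ≤ (1 : WithBot ℕ) + (Qp x' q).natDegree := add_le_add h3 le_rfl
                _ < _ := by
                  exact_mod_cast (by omega : 1 + (Qp x' q).natDegree < 2 * (2 * n + 1 + 1) + 1)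
          · refine (Polynomial.degree_mul_le _ _).trans_lt ?_
            calc _ ≤ ((2 * (2 * n + 1 + 1) : ℕ) : WithBot ℕ) + 0 :=
                  add_le_add hWd Polynomial.degree_C_le
              _ < _ := by
                rw [add_zero]
                exact_mod_cast Nat.lt_succ_self _
        calc _ ≤ (0 : WithBot ℕ) + ((1 - 2 * X) * Qp x' q + W * C p0 : Polynomial F).degree :=
            add_le_add Polynomial.degree_C_le le_rfl
          _ < _ := by rw [zero_add]; exact h1
      · intro i
        have h1 := hpf (x' i) (two_ne hx' i) (fun k => hx'.ne i k)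
        have h2 := pf_repeat (2 * n + 2) (some (x' i)) (bt x') i.castSucc (bt_castSucc _ _)
        rw [h2, mul_zero] at h1
        rw [Lp_eval_self, Polynomial.eval_mul, Polynomial.eval_add, Polynomial.eval_mul,
          Polynomial.eval_mul, Polynomial.eval_C, Polynomial.eval_C, e2X]
        simp only [Polynomial.eval_sub, Polynomial.eval_one, Polynomial.eval_mul,
          Polynomial.eval_C, Polynomial.eval_X]
        rw [h1, mul_zero]
      · intro i
        have hW0 : W.eval (1 - x' i) = 0 := by
          rw [hWe, Finset.prod_eq_zero (Finset.mem_univ i)]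
          unfold ab
          ring
        rw [Lp_eval, Polynomial.eval_mul, Polynomial.eval_add, Polynomial.eval_mul,
          Polynomial.eval_mul, Polynomial.eval_C, Polynomial.eval_C, e2X, hW0, Qp_one_sub]
        simp only [Polynomial.eval_sub, Polynomial.eval_one, Polynomial.eval_mul,
          Polynomial.eval_C, Polynomial.eval_X]
        have h1 := hP2 (1 - x' i)
        rw [Z1_one_sub] at h1
        have h4 := ih (x' ∘ i.succAbove) (hx'.comp _ Fin.succAbove_right_injective)
        have h5 := V_remove x' i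
        have h6 := kp_perm (ofFn_perm x' i)
        have h7 := AB_perm (ofFn_perm x' i)
        rw [kp_cons] at h6
        rw [AB, pab_ofFn] at h7
        rw [← h1, h6, h7, h5, pA_ofFn, pA_ofFn, Fin.prod_univ_succAbove _ i]
        have h8 := prod_id (fun k => x' (i.succAbove k)) (x' i)
        simp only [Function.comp_apply, hq] at h4 h8 ⊢
        linear_combination ((1 - 2 * x' i) * (1 - 2 * (1 - x' i))) *
            ((x' i - (1 - x' i)) * (-1) ^ (i : ℕ)) *
          ((∏ k, (1 - x' i * x' (i.succAbove k))) * (∏ k, (1 - (1 - x' i) * x' (i.succAbove k))) *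
            ((∏ k, (x' (i.succAbove k) - (1 - x' i))) * ∏ k, (x' (i.succAbove k) - x' i))) * h4 +
          ((1 - 2 * x' i) * (1 - 2 * (1 - x' i))) * ((x' i - (1 - x' i)) * (-1) ^ (i : ℕ)) *
            (kp (List.ofFn (x' ∘ i.succAbove)) * AB (List.ofFn (x' ∘ i.succAbove)) *
              pf (2 * n + 2) (Mt (bt (x' ∘ i.succAbove)))) * h8
      · have h1 := hP2 2⁻¹
        have h2 : (2 : F) * 2⁻¹ = 1 := by norm_num
        rw [Z1_half 2⁻¹ h2, pA_ofFn] at h1
        have h3 := even_formula (n + 1) x' hx'
        change Z0 (List.ofFn x') * V x' = kp (List.ofFn x') * AB (List.ofFn x') * p0 at h3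
        rw [Lp_eval, Polynomial.eval_mul, Polynomial.eval_add, Polynomial.eval_mul,
          Polynomial.eval_mul, Polynomial.eval_C, Polynomial.eval_C, e2X, hWe, ← h1]
        simp only [Polynomial.eval_sub, Polynomial.eval_one, Polynomial.eval_mul,
          Polynomial.eval_C, Polynomial.eval_X]
        rw [h2, sub_self, zero_mul, zero_add]
        have h4 : (∏ k, (1 - 2⁻¹ * x' k)) * (∏ k, (x' k - 2⁻¹)) = ∏ k, ab 2⁻¹ (x' k) := by
          have h5 : ∏ k, (x' k - 2⁻¹) = ∏ k, (2⁻¹ - x' k) := by
            have h6 : ∏ k, (x' k - 2⁻¹) = ∏ k, ((-1) * (2⁻¹ - x' k)) := by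
              apply Finset.prod_congr rfl
              intro k _
              ring
            rw [h6, Finset.prod_mul_distrib, Finset.prod_const, Finset.card_univ,
              Fintype.card_fin]
            have h7 : ((-1 : F)) ^ (2 * n + 1 + 1) = 1 := by
              have : 2 * n + 1 + 1 = 2 * (n + 1) := by ring
              rw [this, pow_mul]
              simp
            rw [h7, one_mul]
          rw [h5, ← Finset.prod_mul_distrib]
          apply Finset.prod_congr rfl
          intro k _
          unfold ab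
          linear_combination (-(1 - 2⁻¹ * x' k)) * h2
        rw [← h4]
        linear_combination ((∏ k, (1 - 2⁻¹ * x' k)) * (∏ k, (x' k - 2⁻¹))) * h3
    have h9 := congrArg (Polynomial.eval y) key
    have e2X : (1 - 2 * X : Polynomial F) = 1 - C 2 * X := by simp [map_ofNat]
    have h10 := hpf y hyy hy
    rw [Lp_eval, Polynomial.eval_mul, Polynomial.eval_add, Polynomial.eval_mul,
      Polynomial.eval_mul, Polynomial.eval_C, Polynomial.eval_C, e2X] at h9
    simp only [Polynomial.eval_sub, Polynomial.eval_one, Polynomial.eval_mul,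
      Polynomial.eval_C, Polynomial.eval_X] at h9
    rw [h10] at h9
    rw [ofFn_cons', hP2, V_cons, kp_cons, AB, pab_ofFn, bt_cons]
    linear_combination h9

end fld

end Pool.Agent.L7h56.OS
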