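import Pool.Agent.L7h56.OS.Trunc
import Pool.Agent.L7h56.OS.Pfa

/-!
# The homogeneous limit
-/

set_option autoImplicit false

namespace Pool.Agent.L7h56.OS

open Pool.Agent.Helper929 (pf pf_gram pf_map)

theorem ZX_map {R S : Type*} [CommRing R] [CommRing S] (φ : R →+* S) (l : List R) :
    (ZX l).map φ = ZX (l.map φ) := by
  unfold ZX
  have h := Zz_map (Polynomial.mapRingHom φ) Polynomial.X (l.map Polynomial.C)
  rw [Polynomial.coe_mapRingHom] at h
  rw [h]
  simp [Function.comp_def]

theorem Z1_map {R S : Type*} [CommRing R] [CommRing S] (φ : R →+* S) (l : List R) :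
    φ (Z1 l) = Z1 (l.map φ) := by
  unfold Z1
  rw [← ZX_map, Polynomial.coeff_map]

theorem kp_map {R S : Type*} [CommRing R] [CommRing S] (φ : R →+* S) (l : List R) :
    φ (kp l) = kp (l.map φ) := by
  induction l with
  | nil => simp [kp]
  | cons a l ih => rw [List.map_cons, kp_cons, kp_cons, map_mul, ih]; simp [map_ofNat]

theorem ab_map {R S : Type*} [CommRing R] [CommRing S] (φ : R →+* S) (a b : R) :
    φ (ab a b) = ab (φ a) (φ b) := by
  simp [ab]

theorem AB_map {R S : Type*} [CommRing R] [CommRing S] (φ : R →+* S) (l : List R) :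
    φ (AB l) = AB (l.map φ) := by
  induction l with
  | nil => simp [AB]
  | cons a l ih =>
    rw [List.map_cons, AB, AB, map_mul, ih]
    congr 1
    unfold pab
    rw [map_list_prod, List.map_map, List.map_map]
    congr 1
    apply List.map_congr_left
    intro b _
    simp [ab_map]

theorem V_map {R S : Type*} [CommRing R] [CommRing S] (φ : R →+* S) {n : ℕ} (x : Fin n → R) :
    φ (V x) = V (fun i => φ (x i)) := by
  simp [V, map_prod]

/-- the ring of power series -/
abbrev PS (m : ℕ) : Type := MvPowerSeries (Fin m) ℚ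

variable {m : ℕ}

/-- the variables -/
noncomputable def xv (i : Fin m) : PS m := MvPowerSeries.X i

theorem unit_of (f : PS m) (h : MvPowerSeries.constantCoeff f = 1) : f * f⁻¹ = 1 := by
  apply MvPowerSeries.mul_inv_cancel
  rw [h]
  exact one_ne_zero

theorem cc_xv (i : Fin m) : MvPowerSeries.constantCoeff (xv i) = (0 : ℚ) := by
  simp [xv]

theorem cc_ab (i j : Fin m) : MvPowerSeries.constantCoeff (ab (xv i) (xv j)) = (1 : ℚ) := by
  simp [ab, cc_xv]

theorem cc_k (i : Fin m) : MvPowerSeries.constantCoeff (1 - 2 * xv i) = (1 : ℚ) := by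
  simp [cc_xv]

/-- the bordered index -/
def bo (m : ℕ) : Fin (m + 1) → Option (Fin m) := Fin.snoc (α := fun _ => Option (Fin m)) some none

theorem bo_castSucc (i : Fin m) : bo m i.castSucc = some i := by
  unfold bo
  rw [Fin.snoc_castSucc]

theorem bo_last : bo m (Fin.last m) = none := by
  unfold bo
  rw [Fin.snoc_last]

theorem bt_eq {F : Type*} (x : Fin m → F) (i : Fin (m + 1)) : bt x i = (bo m i).map x := by
  refine Fin.lastCases ?_ (fun i => ?_) i
  · rw [bo_last]
    unfold bt
    rw [Fin.snoc_last]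
    rfl
  · rw [bo_castSucc]
    unfold bt
    rw [Fin.snoc_castSucc]
    rfl

/-- the kernel as a power series -/
noncomputable def gR : Option (Fin m) → Option (Fin m) → PS m
  | some i, some j => (xv j - xv i) * (ab (xv i) (xv j))⁻¹
  | some i, none => (1 - 2 * xv i)⁻¹
  | none, some j => -(1 - 2 * xv j)⁻¹
  | none, none => 0

/-- the matrix of power series -/
noncomputable def AR (m : ℕ) : Matrix (Fin (m + 1)) (Fin (m + 1)) (PS m) :=
  fun i j => gR (bo m i) (bo m j)

/-- the fraction field -/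
abbrev FS (m : ℕ) : Type := FractionRing (PS m)

theorem gen_xv : Gen (fun i : Fin m => algebraMap (PS m) (FS m) (xv i)) := by
  constructor
  · intro i j h
    rw [← ab_map, ← map_zero (algebraMap (PS m) (FS m))] at h
    have h1 := IsFractionRing.injective (PS m) (FS m) h
    have h2 := cc_ab i j
    rw [h1, map_zero] at h2
    exact zero_ne_one h2
  · intro i j h
    have h1 := IsFractionRing.injective (PS m) (FS m) h
    exact MvPowerSeries.X_inj.1 h1

theorem map_inv_of (f : PS m) (h : MvPowerSeries.constantCoeff f = 1) :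
    algebraMap (PS m) (FS m) f⁻¹ = (algebraMap (PS m) (FS m) f)⁻¹ := by
  have h1 := congrArg (algebraMap (PS m) (FS m)) (unit_of f h)
  rw [map_mul, map_one] at h1
  exact eq_inv_of_mul_eq_one_right h1

theorem AR_map : (AR m).map (algebraMap (PS m) (FS m)) =
    Mt (bt (fun i : Fin m => algebraMap (PS m) (FS m) (xv i))) := by
  ext i j
  rw [Matrix.map_apply]
  unfold AR Mt
  rw [bt_eq, bt_eq]
  rcases bo m i with _ | i <;> rcases bo m j with _ | j
  · simp [gR, fo]
  · simp only [gR, fo, Option.map_none, Option.map_some, map_neg, map_inv_of _ (cc_k j), map_sub,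
      map_one, map_mul, map_ofNat]
  · simp only [gR, fo, Option.map_none, Option.map_some, map_inv_of _ (cc_k i), map_sub,
      map_one, map_mul, map_ofNat]
  · simp only [gR, fo, fk, Option.map_some, map_mul, map_inv_of _ (cc_ab i j), map_sub, ab_map]
    rw [div_eq_mul_inv]

instance cz_PS : CharZero (PS m) :=
  charZero_of_injective_algebraMap (algebraMap ℚ (PS m)).injective

instance cz_FS : CharZero (FS m) :=
  charZero_of_injective_algebraMap (IsFractionRing.injective (PS m) (FS m))

/-- the Pfaffian formula for power series -/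
theorem formula_PS (n : ℕ) : Z1 (List.ofFn (xv (m := 2 * n + 1))) * V (xv (m := 2 * n + 1)) =
    kp (List.ofFn (xv (m := 2 * n + 1))) * AB (List.ofFn (xv (m := 2 * n + 1))) *
      pf (2 * n + 1 + 1) (AR (2 * n + 1)) := by
  apply IsFractionRing.injective (PS (2 * n + 1)) (FS (2 * n + 1))
  rw [map_mul, map_mul, map_mul, pf_map, AR_map, Z1_map, kp_map, AB_map, V_map, List.map_ofFn]
  exact odd_formula n _ gen_xv

/-- the transformation matrix -/
noncomputable def Wm (m : ℕ) : Matrix (Fin (m + 1)) (Fin (m + 1)) (PS m) := fun i j =>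
  match bo m i, bo m j with
  | some i, some j => xv i ^ (j : ℕ)
  | none, none => 1
  | _, _ => 0

theorem Wm_cc (i j : Fin m) : Wm m i.castSucc j.castSucc = xv i ^ (j : ℕ) := by
  simp only [Wm, bo_castSucc]

theorem Wm_cl (i : Fin m) : Wm m i.castSucc (Fin.last m) = 0 := by
  simp only [Wm, bo_castSucc, bo_last]

theorem Wm_lc (i : Fin m) : Wm m (Fin.last m) i.castSucc = 0 := by
  simp only [Wm, bo_castSucc, bo_last]

theorem Wm_ll : Wm m (Fin.last m) (Fin.last m) = 1 := by
  simp only [Wm, bo_last]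

theorem Wm_det : (Wm m).det = V (xv (m := m)) := by
  rw [Matrix.det_succ_row _ (Fin.last m), Fin.sum_univ_castSucc]
  have h1 : ∀ i : Fin m, (-1 : PS m) ^ ((Fin.last m : ℕ) + (i.castSucc : ℕ)) *
      Wm m (Fin.last m) i.castSucc *
        ((Wm m).submatrix (Fin.last m).succAbove i.castSucc.succAbove).det = 0 := by
    intro i
    rw [Wm_lc]
    ring
  rw [Finset.sum_eq_zero (fun i _ => h1 i), Wm_ll, zero_add, ← two_mul, pow_mul]
  have h2 : (Wm m).submatrix (Fin.last m).succAbove (Fin.last m).succAbove =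
      Matrix.vandermonde (xv (m := m)) := by
    ext i j
    rw [Matrix.submatrix_apply, Fin.succAbove_last, Wm_cc]
    rfl
  rw [h2, Matrix.det_vandermonde]
  simp [V]

/-- the coefficient matrix -/
noncomputable def Cm (n : ℕ) : Matrix (Fin (2 * n + 2)) (Fin (2 * n + 2)) ℚ :=
  skewM (2 * n + 2) (bord n fun a => 2 ^ a)

theorem Cm_map_pf (n : ℕ) : pf (2 * n + 1 + 1) (Wm (2 * n + 1) *
    (Cm n).map (algebraMap ℚ (PS (2 * n + 1))) * (Wm (2 * n + 1)).transpose) =
      V (xv (m := 2 * n + 1)) * algebraMap ℚ (PS (2 * n + 1)) (pf (2 * n + 1 + 1) (Cm n)) := by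
  apply IsFractionRing.injective (PS (2 * n + 1)) (FS (2 * n + 1))
  rw [map_mul, pf_map, pf_map, pf_map, Matrix.map_mul, Matrix.map_mul]
  have h1 := pf_gram (((Cm n).map (algebraMap ℚ (PS (2 * n + 1)))).map
    (algebraMap (PS (2 * n + 1)) (FS (2 * n + 1)))) ?_
      ((Wm (2 * n + 1)).map (algebraMap (PS (2 * n + 1)) (FS (2 * n + 1))))
  · rw [← Wm_det, RingHom.map_det]
    exact h1
  · intro i j
    rw [Matrix.map_apply, Matrix.map_apply, Matrix.map_apply, Matrix.map_apply]
    have := skewM_skew (2 * n + 2) (bord n fun a => 2 ^ a) i j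
    rw [Cm, this]
    simp

/-- the ideal -/
noncomputable def Im (m : ℕ) : Ideal (PS m) := Ideal.span (Set.range fun i : Fin m => xv i ^ m)

theorem pow_zero_q (i : Fin m) : (Ideal.Quotient.mk (Im m) (xv i)) ^ m = 0 := by
  rw [← map_pow, Ideal.Quotient.eq_zero_iff_mem]
  exact Ideal.subset_span ⟨i, rfl⟩

/-- the matrices agree modulo the ideal -/
theorem AR_mod (n : ℕ) : (AR (2 * n + 1)).map (Ideal.Quotient.mk (Im (2 * n + 1))) =
    (Wm (2 * n + 1) * (Cm n).map (algebraMap ℚ (PS (2 * n + 1))) *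
      (Wm (2 * n + 1)).transpose).map (Ideal.Quotient.mk (Im (2 * n + 1))) := by
  set φ := Ideal.Quotient.mk (Im (2 * n + 1)) with hφ
  have hq : ∀ r : ℚ, φ (algebraMap ℚ (PS (2 * n + 1)) r) =
      algebraMap ℚ (PS (2 * n + 1) ⧸ Im (2 * n + 1)) r := fun r => rfl
  have hk : ∀ i : Fin (2 * n + 1), φ (1 - 2 * xv i)⁻¹ = ∑ a : Fin (2 * n + 1),
      φ (xv i) ^ (a : ℕ) * algebraMap ℚ (PS (2 * n + 1) ⧸ Im (2 * n + 1)) (2 ^ (a : ℕ)) := by
    intro i
    have h1 := geom2 (2 * n + 1) (φ (xv i)) (pow_zero_q i)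
    have h2 := congrArg φ (unit_of _ (cc_k i))
    simp only [map_mul, map_sub, map_one, map_ofNat] at h2
    calc φ (1 - 2 * xv i)⁻¹ = φ (1 - 2 * xv i)⁻¹ * ((1 - 2 * φ (xv i)) * ∑ a : Fin (2 * n + 1),
        φ (xv i) ^ (a : ℕ) * algebraMap ℚ (PS (2 * n + 1) ⧸ Im (2 * n + 1)) (2 ^ (a : ℕ))) := by
          rw [h1, mul_one]
      _ = ((1 - 2 * φ (xv i)) * φ (1 - 2 * xv i)⁻¹) * ∑ a : Fin (2 * n + 1),
        φ (xv i) ^ (a : ℕ) * algebraMap ℚ (PS (2 * n + 1) ⧸ Im (2 * n + 1)) (2 ^ (a : ℕ)) := by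
          ring
      _ = _ := by rw [h2, one_mul]
  ext p q
  rw [Matrix.map_apply, Matrix.map_apply]
  refine Fin.lastCases ?_ (fun i => ?_) p <;> refine Fin.lastCases ?_ (fun j => ?_) q
  · rw [Matrix.mul_apply]
    simp only [Matrix.mul_apply, Matrix.transpose_apply, AR, bo_last, gR, map_zero]
    rw [Fin.sum_univ_castSucc]
    simp only [Wm_lc, mul_zero, Finset.sum_const_zero, zero_add, Wm_ll, mul_one]
    rw [Fin.sum_univ_castSucc]
    simp only [Wm_lc, zero_mul, Finset.sum_const_zero, zero_add, Wm_ll, one_mul, Matrix.map_apply]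
    rw [Cm, bord_ll]
    simp
  · rw [Matrix.mul_apply]
    simp only [Matrix.mul_apply, Matrix.transpose_apply, AR, bo_last, bo_castSucc, gR]
    rw [Fin.sum_univ_castSucc]
    simp only [Wm_cl, mul_zero, add_zero]
    have e : ∀ x : Fin (2 * n + 1), (∑ k : Fin (2 * n + 1 + 1), Wm (2 * n + 1) (Fin.last (2 * n + 1)) k *
        ((Cm n).map (algebraMap ℚ (PS (2 * n + 1)))) k x.castSucc) =
        - algebraMap ℚ (PS (2 * n + 1)) (2 ^ (x : ℕ)) := by
      intro x
      rw [Fin.sum_univ_castSucc]
      simp only [Wm_lc, zero_mul, Finset.sum_const_zero, zero_add, Wm_ll, one_mul,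
        Matrix.map_apply]
      rw [Cm, bord_lc, map_neg]
    simp only [e, Wm_cc, map_neg, hk, map_sum, map_mul, map_pow, hq]
    rw [← Finset.sum_neg_distrib]
    apply Finset.sum_congr rfl
    intro a _
    ring
  · rw [Matrix.mul_apply]
    simp only [Matrix.mul_apply, Matrix.transpose_apply, AR, bo_last, bo_castSucc, gR]
    rw [Fin.sum_univ_castSucc]
    simp only [Wm_lc, mul_zero, Finset.sum_const_zero, zero_add, Wm_ll, mul_one]
    rw [Fin.sum_univ_castSucc]
    simp only [Wm_cl, zero_mul, add_zero, Wm_cc, Matrix.map_apply]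
    simp only [Cm, bord_cl, hk, map_sum, map_mul, map_pow, hq]
  · rw [Matrix.mul_apply]
    simp only [Matrix.mul_apply, Matrix.transpose_apply, AR, bo_castSucc, gR]
    rw [Fin.sum_univ_castSucc]
    simp only [Wm_cl, mul_zero, add_zero, Wm_cc]
    have e : ∀ x : Fin (2 * n + 1), (∑ k : Fin (2 * n + 1 + 1), Wm (2 * n + 1) i.castSucc k *
        ((Cm n).map (algebraMap ℚ (PS (2 * n + 1)))) k x.castSucc) =
        ∑ k : Fin (2 * n + 1), xv i ^ (k : ℕ) * algebraMap ℚ (PS (2 * n + 1)) (c k x) := by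
      intro x
      rw [Fin.sum_univ_castSucc]
      simp only [Wm_cl, zero_mul, add_zero, Wm_cc, Matrix.map_apply]
      simp only [Cm, bord_cc]
    simp only [e]
    have h1 := ev_F (2 * n + 1) (by omega) (φ (xv i)) (φ (xv j)) (pow_zero_q i) (pow_zero_q j)
    have h2 := congrArg φ (unit_of _ (cc_ab i j))
    have h3 : φ (∑ x : Fin (2 * n + 1), (∑ k : Fin (2 * n + 1), xv i ^ (k : ℕ) *
        algebraMap ℚ (PS (2 * n + 1)) (c k x)) * xv j ^ (x : ℕ)) =
        ev (2 * n + 1) (φ (xv i)) (φ (xv j)) F := by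
      rw [ev_F_eq, Finset.sum_comm]
      simp only [map_sum, map_mul, map_pow, hq, Finset.sum_mul]
    rw [h3, map_mul, map_sub, ← h1]
    rw [map_mul, ab_map, map_one] at h2
    have h4 : (1 - φ (xv i) * φ (xv j)) * (1 - φ (xv i) - φ (xv j)) = ab (φ (xv i)) (φ (xv j)) := rfl
    rw [h4]
    linear_combination (ev (2 * n + 1) (φ (xv i)) (φ (xv j)) F) * h2

/-- the exponent `(0, 1, …, m - 1)` -/
noncomputable def dl (m : ℕ) : Fin m →₀ ℕ := Finsupp.equivFunOnFinite.symm fun i => (i : ℕ)

theorem dl_apply (i : Fin m) : dl m i = i := rfl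

/-- the elements of the ideal have no coefficients below `dl` -/
theorem Im_coeff (f : PS m) (hf : f ∈ Im m) (e : Fin m →₀ ℕ) (he : e ≤ dl m) :
    MvPowerSeries.coeff e f = 0 := by
  classical
  unfold Im at hf
  induction hf using Submodule.span_induction generalizing e with
  | mem f hf =>
    obtain ⟨i, rfl⟩ := hf
    simp only [xv]
    rw [MvPowerSeries.X_pow_eq, MvPowerSeries.coeff_monomial, if_neg]
    intro h
    have h1 := he i
    rw [h, dl_apply] at h1
    simp at h1
    have := i.2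
    omega
  | zero => simp
  | add f g _ _ h1 h2 => rw [map_add, h1 e he, h2 e he, add_zero]
  | smul r f _ h1 =>
    rw [smul_eq_mul, MvPowerSeries.coeff_mul]
    apply Finset.sum_eq_zero
    intro p hp
    rw [Finset.HasAntidiagonal.mem_antidiagonal] at hp
    rw [h1 p.2 (le_trans (by rw [← hp]; exact le_add_self) he), mul_zero]

/-- a permutation below the identity is the identity -/
theorem perm_le (σ : Equiv.Perm (Fin m)) (h : ∀ i, (σ i : ℕ) ≤ i) : σ = 1 := by
  have h1 : ∑ i : Fin m, (σ i : ℕ) = ∑ i : Fin m, (i : ℕ) := Equiv.sum_comp σ (fun i : Fin m => (i : ℕ))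
  have h2 := (Finset.sum_eq_sum_iff_of_le (s := Finset.univ) (fun i _ => h i)).1 h1
  ext i
  exact h2 i (Finset.mem_univ i)

/-- the coefficient of a multiple of the Vandermonde determinant -/
theorem V_coeff (f : PS m) : MvPowerSeries.coeff (dl m) (V (xv (m := m)) * f) =
    MvPowerSeries.constantCoeff f := by
  classical
  have h1 : V (xv (m := m)) = (Matrix.vandermonde (xv (m := m))).det := by
    rw [Matrix.det_vandermonde]; rfl
  rw [h1, Matrix.det_apply', Finset.sum_mul, map_sum]
  have h2 : ∀ σ : Equiv.Perm (Fin m), MvPowerSeries.coeff (dl m)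
      (((Equiv.Perm.sign σ : ℤ) : PS m) * (∏ i, Matrix.vandermonde (xv (m := m)) (σ i) i) * f) =
      if σ = 1 then MvPowerSeries.constantCoeff f else 0 := by
    intro σ
    have h3 : (∏ i, Matrix.vandermonde (xv (m := m)) (σ i) i) =
        MvPowerSeries.monomial (∑ i, Finsupp.single (σ i) (i : ℕ)) (1 : ℚ) := by
      have h4 : ∀ s : Finset (Fin m), (∏ i ∈ s, Matrix.vandermonde (xv (m := m)) (σ i) i) =
          MvPowerSeries.monomial (∑ i ∈ s, Finsupp.single (σ i) (i : ℕ)) (1 : ℚ) := by
        intro s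
        induction s using Finset.induction_on with
        | empty => simp
        | insert a s ha ih =>
          rw [Finset.prod_insert ha, Finset.sum_insert ha, ih, Matrix.vandermonde_apply]
          unfold xv
          rw [MvPowerSeries.X_pow_eq, MvPowerSeries.monomial_mul_monomial, mul_one]
      exact h4 _
    have h5 : ∀ j, (∑ i, Finsupp.single (σ i) (i : ℕ)) j = ((σ⁻¹ j : Fin m) : ℕ) := by
      intro j
      rw [Finsupp.finsetSum_apply, Finset.sum_eq_single (σ⁻¹ j)]
      · simp
      · intro i _ hi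
        rw [Finsupp.single_apply, if_neg]
        intro h
        apply hi
        rw [← h]
        simp
      · simp
    rw [h3, mul_assoc]
    have h6 : (((Equiv.Perm.sign σ : ℤ) : PS m)) = MvPowerSeries.C ((Equiv.Perm.sign σ : ℤ) : ℚ) := by
      simp
    rw [h6, MvPowerSeries.coeff_C_mul, MvPowerSeries.coeff_monomial_mul]
    by_cases hσ : σ = 1
    · subst hσ
      have h7 : (∑ i, Finsupp.single ((1 : Equiv.Perm (Fin m)) i) (i : ℕ)) = dl m := by
        ext j
        rw [h5, dl_apply]
        simp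
      rw [h7, if_pos le_rfl, if_pos rfl, tsub_self]
      simp
    · rw [if_neg, if_neg hσ, mul_zero]
      intro h8
      apply hσ
      rw [← inv_inj, inv_one]
      apply perm_le
      intro j
      have := h8 j
      rw [h5, dl_apply] at this
      exact this
  rw [Finset.sum_congr rfl (fun σ _ => h2 σ)]
  simp

/-- the homogeneous limit of the Pfaffian formula -/
theorem hom_formula (n : ℕ) :
    Z1 (List.replicate (2 * n + 1) (0 : ℚ)) = pf (2 * n + 2) (Cm n) := by
  set φ := Ideal.Quotient.mk (Im (2 * n + 1)) with hφ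
  set Zr := Z1 (List.ofFn (xv (m := 2 * n + 1))) with hZr
  set u := kp (List.ofFn (xv (m := 2 * n + 1))) * AB (List.ofFn (xv (m := 2 * n + 1))) with hu
  set p := pf (2 * n + 1 + 1) (Cm n) with hp
  have hmap : List.map (MvPowerSeries.constantCoeff (R := ℚ)) (List.ofFn (xv (m := 2 * n + 1))) =
      List.replicate (2 * n + 1) (0 : ℚ) := by
    rw [List.map_ofFn]
    have : (MvPowerSeries.constantCoeff (R := ℚ)) ∘ (xv (m := 2 * n + 1)) = fun _ => 0 := by
      funext i
      exact cc_xv i
    rw [this, List.ofFn_const]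
  have h0 : MvPowerSeries.constantCoeff Zr = Z1 (List.replicate (2 * n + 1) (0 : ℚ)) := by
    rw [hZr, Z1_map, hmap]
  have hkp : ∀ k : ℕ, kp (List.replicate k (0 : ℚ)) = 1 := by
    intro k
    induction k with
    | zero => simp [kp]
    | succ k ih => rw [List.replicate_succ, kp_cons, ih]; simp
  have hAB : ∀ k : ℕ, AB (List.replicate k (0 : ℚ)) = 1 := by
    intro k
    induction k with
    | zero => simp [AB]
    | succ k ih =>
      rw [List.replicate_succ, AB, ih]
      simp [pab, ab]
  have hu0 : MvPowerSeries.constantCoeff u = 1 := by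
    rw [hu, map_mul, kp_map, AB_map, hmap, hkp, hAB, mul_one]
  have h1 := congrArg φ (formula_PS n)
  rw [← hZr, ← hu, map_mul φ u, pf_map φ, AR_mod, ← pf_map φ, Cm_map_pf, ← map_mul φ] at h1
  have h2 : V (xv (m := 2 * n + 1)) * (Zr - u * algebraMap ℚ (PS (2 * n + 1)) p) ∈
      Im (2 * n + 1) := by
    rw [← Ideal.Quotient.eq_zero_iff_mem]
    have e : V (xv (m := 2 * n + 1)) * (Zr - u * algebraMap ℚ (PS (2 * n + 1)) p) =
        Zr * V (xv (m := 2 * n + 1)) -
          u * (V (xv (m := 2 * n + 1)) * algebraMap ℚ (PS (2 * n + 1)) p) := by ring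
    rw [e, map_sub, h1, sub_self]
  have h3 := Im_coeff _ h2 (dl (2 * n + 1)) le_rfl
  rw [V_coeff, map_sub, map_mul, hu0, one_mul, h0, sub_eq_zero] at h3
  rw [h3]
  simp [hp]

end Pool.Agent.L7h56.OS
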