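import Pool.Agent.L7h56.OS.Lag

/-!
# The remainders of the continued fraction
-/

set_option autoImplicit false

namespace Pool.Agent.L7h56.OSE

open PowerSeries

/-- rising factorial -/
def poch (a : ℚ) (k : ℕ) : ℚ := ∏ i ∈ Finset.range k, (a + i)

theorem poch_right (a : ℚ) (k : ℕ) : poch a (k + 1) = poch a k * (a + k) := by
  simp [poch, Finset.prod_range_succ]

theorem poch_left (a : ℚ) (k : ℕ) : poch a (k + 1) = a * poch (a + 1) k := by
  unfold poch
  rw [Finset.prod_range_succ', mul_comm]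
  congr 1
  · simp
  · apply Finset.prod_congr rfl
    intro i _
    push_cast
    ring

theorem poch_pos {a : ℚ} (ha : 0 < a) (k : ℕ) : 0 < poch a k := by
  unfold poch
  apply Finset.prod_pos
  intro i _
  positivity

/-- hypergeometric coefficients -/
def gam (a b c : ℚ) (k : ℕ) : ℚ :=
  poch a k * poch b k / (poch c k * (k.factorial : ℚ)) * (27 / 4) ^ k

theorem gam_zero (a b c : ℚ) : gam a b c 0 = 1 := by simp [gam, poch]

theorem gam_comm (a b c : ℚ) (k : ℕ) : gam a b c k = gam b a c k := by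
  unfold gam
  rw [mul_comm (poch a k)]

theorem gam_succ (a b : ℚ) {c : ℚ} (hc : 0 < c) (k : ℕ) : gam a b c (k + 1) =
    gam a b c k * ((27 / 4) * (a + k) * (b + k) / ((c + k) * (k + 1))) := by
  unfold gam
  have h1 := (poch_pos hc k).ne'
  have h2 : (k.factorial : ℚ) ≠ 0 := by positivity
  have h3 : c + k ≠ 0 := by positivity
  rw [poch_right, poch_right, poch_right, Nat.factorial_succ]
  push_cast
  field_simp
  ring

theorem contig (a b : ℚ) {c : ℚ} (hc : 0 < c) (k : ℕ) :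
    gam a (b + 1) (c + 1) (k + 1) - gam a b c (k + 1) =
      (27 / 4 * (a * (c - b) / (c * (c + 1)))) * gam (a + 1) (b + 1) (c + 2) k := by
  unfold gam
  have h1 : poch (c + 2) k ≠ 0 := (poch_pos (by linarith) k).ne'
  have h2 : (k.factorial : ℚ) ≠ 0 := by positivity
  have h3 : c + 1 + k ≠ 0 := by positivity
  have h4 : c ≠ 0 := hc.ne'
  have h5 : c + 1 ≠ 0 := by positivity
  have e1 : poch a (k + 1) = a * poch (a + 1) k := poch_left a k
  have e2 : poch (b + 1) (k + 1) = poch (b + 1) k * (b + 1 + k) := poch_right _ _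
  have e3 : poch (c + 1) (k + 1) = (c + 1) * poch (c + 2) k := by
    rw [poch_left]
    congr 2
    ring
  have e4 : poch b (k + 1) = b * poch (b + 1) k := poch_left b k
  have e5 : poch c (k + 1) = c * ((c + 1) * poch (c + 2) k / (c + 1 + k)) := by
    rw [poch_left]
    have h6 := poch_right (c + 1) k
    rw [e3] at h6
    rw [h6]
    field_simp
  rw [e1, e2, e3, e4, e5, Nat.factorial_succ]
  push_cast
  field_simp
  ring

/-- the first even series -/
theorem gam_e (k : ℕ) : gam (4 / 3) (2 / 3) (3 / 2) k = ((3 * k + 1).choose (2 * k + 1) : ℚ) := by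
  induction k with
  | zero => simp [gam_zero]
  | succ k ih =>
    rw [gam_succ _ _ (by norm_num), ih]
    have h1 := Nat.add_one_mul_choose_eq (3 * k + 1) (2 * k + 1)
    have h2 := Nat.add_one_mul_choose_eq (3 * k + 2) (2 * k + 2)
    have h3 := Nat.choose_mul_succ_eq (3 * k + 3) (2 * k + 3)
    have e3 : 3 * k + 3 + 1 - (2 * k + 3) = k + 1 := by omega
    rw [e3] at h3

    have e : 3 * (k + 1) + 1 = 3 * k + 3 + 1 := by ring
    have e' : 2 * (k + 1) + 1 = 2 * k + 3 := by ring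
    rw [e, e']
    have g1 : ((3 * k + 1 + 1 : ℕ) : ℚ) * ((3 * k + 1).choose (2 * k + 1) : ℚ) =
        ((3 * k + 2).choose (2 * k + 2) : ℚ) * (2 * k + 1 + 1 : ℕ) := by exact_mod_cast h1
    have g2 : ((3 * k + 2 + 1 : ℕ) : ℚ) * ((3 * k + 2).choose (2 * k + 2) : ℚ) =
        ((3 * k + 3).choose (2 * k + 3) : ℚ) * (2 * k + 2 + 1 : ℕ) := by exact_mod_cast h2
    have g3 : ((3 * k + 3).choose (2 * k + 3) : ℚ) * (3 * k + 3 + 1 : ℕ) =
        ((3 * k + 3 + 1).choose (2 * k + 3) : ℚ) * (k + 1 : ℕ) := by exact_mod_cast h3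
    push_cast at g1 g2 g3
    have q1 : (2 * (k : ℚ) + 1 + 1) ≠ 0 := by positivity
    have q2 : (2 * (k : ℚ) + 2 + 1) ≠ 0 := by positivity
    have q3 : ((k : ℚ) + 1) ≠ 0 := by positivity
    have r1 : ((3 * k + 2).choose (2 * k + 2) : ℚ) =
        (3 * k + 1 + 1) * ((3 * k + 1).choose (2 * k + 1) : ℚ) / (2 * k + 1 + 1) := by
      rw [g1]; field_simp
    have r2 : ((3 * k + 3).choose (2 * k + 3) : ℚ) =
        (3 * k + 2 + 1) * ((3 * k + 2).choose (2 * k + 2) : ℚ) / (2 * k + 2 + 1) := by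
      rw [g2]; field_simp
    have r3 : ((3 * k + 3 + 1).choose (2 * k + 3) : ℚ) =
        ((3 * k + 3).choose (2 * k + 3) : ℚ) * (3 * k + 3 + 1) / (k + 1) := by
      rw [g3]; field_simp
    rw [r3, r2, r1]
    field_simp
    ring

/-- the first odd series -/
theorem gam_o (k : ℕ) : gam (4 / 3) (5 / 3) (5 / 2) k = ((3 * k + 3).choose (2 * k + 3) : ℚ) := by
  induction k with
  | zero => simp [gam_zero]
  | succ k ih =>
    rw [gam_succ _ _ (by norm_num), ih]
    have h1 := Nat.add_one_mul_choose_eq (3 * k + 3) (2 * k + 3)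
    have h2 := Nat.add_one_mul_choose_eq (3 * k + 4) (2 * k + 4)
    have h3 := Nat.choose_mul_succ_eq (3 * k + 5) (2 * k + 5)
    have e3 : 3 * k + 5 + 1 - (2 * k + 5) = k + 1 := by omega
    rw [e3] at h3

    have e : 3 * (k + 1) + 3 = 3 * k + 5 + 1 := by ring
    have e' : 2 * (k + 1) + 3 = 2 * k + 5 := by ring
    rw [e, e']
    have g1 : ((3 * k + 3 + 1 : ℕ) : ℚ) * ((3 * k + 3).choose (2 * k + 3) : ℚ) =
        ((3 * k + 4).choose (2 * k + 4) : ℚ) * (2 * k + 3 + 1 : ℕ) := by exact_mod_cast h1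
    have g2 : ((3 * k + 4 + 1 : ℕ) : ℚ) * ((3 * k + 4).choose (2 * k + 4) : ℚ) =
        ((3 * k + 5).choose (2 * k + 5) : ℚ) * (2 * k + 4 + 1 : ℕ) := by exact_mod_cast h2
    have g3 : ((3 * k + 5).choose (2 * k + 5) : ℚ) * (3 * k + 5 + 1 : ℕ) =
        ((3 * k + 5 + 1).choose (2 * k + 5) : ℚ) * (k + 1 : ℕ) := by exact_mod_cast h3
    push_cast at g1 g2 g3
    have q1 : (2 * (k : ℚ) + 3 + 1) ≠ 0 := by positivity
    have q2 : (2 * (k : ℚ) + 4 + 1) ≠ 0 := by positivity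
    have q3 : ((k : ℚ) + 1) ≠ 0 := by positivity
    have r1 : ((3 * k + 4).choose (2 * k + 4) : ℚ) =
        (3 * k + 3 + 1) * ((3 * k + 3).choose (2 * k + 3) : ℚ) / (2 * k + 3 + 1) := by
      rw [g1]; field_simp
    have r2 : ((3 * k + 5).choose (2 * k + 5) : ℚ) =
        (3 * k + 4 + 1) * ((3 * k + 4).choose (2 * k + 4) : ℚ) / (2 * k + 4 + 1) := by
      rw [g2]; field_simp
    have r3 : ((3 * k + 5 + 1).choose (2 * k + 5) : ℚ) =
        ((3 * k + 5).choose (2 * k + 5) : ℚ) * (3 * k + 5 + 1) / (k + 1) := by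
      rw [g3]; field_simp
    rw [r3, r2, r1]
    field_simp
    ring

/-- the coefficients of the continued fraction -/
def al1 (n : ℕ) : ℚ := 3 * (3 * n + 4) * (6 * n + 5) / (2 * (4 * n + 3) * (4 * n + 5))
def al2 (n : ℕ) : ℚ := 3 * (3 * n + 5) * (6 * n + 7) / (2 * (4 * n + 5) * (4 * n + 7))

/-- the series -/
noncomputable def Ge (n : ℕ) : PA := mk fun k => gam (4 / 3 + n) (2 / 3 + n) (3 / 2 + 2 * n) k
noncomputable def Go (n : ℕ) : PA := mk fun k => gam (4 / 3 + n) (5 / 3 + n) (5 / 2 + 2 * n) k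

theorem G_rel1 (n : ℕ) : Go n - Ge n = C (al1 n) * (X * Ge (n + 1)) := by
  ext k
  rw [map_sub, coeff_C_mul]
  rcases k with _ | k
  · simp [Go, Ge, gam_zero]
  · rw [coeff_succ_X_mul, Go, Ge, Ge, coeff_mk, coeff_mk, coeff_mk]
    have h := contig (4 / 3 + n) (2 / 3 + n) (c := 3 / 2 + 2 * n) (by positivity) k
    have e1 : (2 / 3 + n + 1 : ℚ) = 5 / 3 + n := by ring
    have e2 : (3 / 2 + 2 * n + 1 : ℚ) = 5 / 2 + 2 * n := by ring
    have e3 : (4 / 3 + n + 1 : ℚ) = 4 / 3 + (n + 1 : ℕ) := by push_cast; ring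
    have e4 : (3 / 2 + 2 * n + 2 : ℚ) = 3 / 2 + 2 * (n + 1 : ℕ) := by push_cast; ring
    have e5 : (5 / 3 + n : ℚ) = 2 / 3 + (n + 1 : ℕ) := by push_cast; ring
    rw [e1, e2, e3, e4] at h
    rw [h]
    congr 1
    · unfold al1
      have p1 : (3 / 2 + 2 * n : ℚ) ≠ 0 := by positivity
      have p2 : (5 / 2 + 2 * n : ℚ) ≠ 0 := by positivity
      have p3 : (4 * n + 3 : ℚ) ≠ 0 := by positivity
      have p4 : (4 * n + 5 : ℚ) ≠ 0 := by positivity
      field_simp
      ring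
    · rw [e5]

theorem G_rel2 (n : ℕ) : Ge (n + 1) - Go n = C (al2 n) * (X * Go (n + 1)) := by
  ext k
  rw [map_sub, coeff_C_mul]
  rcases k with _ | k
  · simp [Go, Ge, gam_zero]
  · rw [coeff_succ_X_mul, Go, Ge, Go, coeff_mk, coeff_mk, coeff_mk]
    have h := contig (5 / 3 + n) (4 / 3 + n) (c := 5 / 2 + 2 * n) (by positivity) k
    rw [gam_comm _ _ _ (k + 1), gam_comm (5 / 3 + (n : ℚ)) _ _ (k + 1), gam_comm _ _ _ k] at h
    have e1 : (4 / 3 + n + 1 : ℚ) = 4 / 3 + (n + 1 : ℕ) := by push_cast; ring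
    have e2 : (5 / 2 + 2 * n + 1 : ℚ) = 3 / 2 + 2 * (n + 1 : ℕ) := by push_cast; ring
    have e3 : (5 / 3 + n + 1 : ℚ) = 5 / 3 + (n + 1 : ℕ) := by push_cast; ring
    have e4 : (5 / 2 + 2 * n + 2 : ℚ) = 5 / 2 + 2 * (n + 1 : ℕ) := by push_cast; ring
    have e5 : (5 / 3 + n : ℚ) = 2 / 3 + (n + 1 : ℕ) := by push_cast; ring
    rw [e1, e2, e3, e4] at h
    rw [← e5, h]
    congr 1
    unfold al2
    have p1 : (3 / 2 + 2 * (n + 1 : ℕ) : ℚ) ≠ 0 := by positivity
    have p2 : (5 / 2 + 2 * n : ℚ) ≠ 0 := by positivity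
    have p3 : (4 * n + 5 : ℚ) ≠ 0 := by positivity
    have p4 : (4 * n + 7 : ℚ) ≠ 0 := by positivity
    push_cast at p1 ⊢
    field_simp
    ring

end Pool.Agent.L7h56.OSE
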