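import Pool.Agent.L7h32.OS.Stm

/-!
# OS, part INF: at most two pieces have points at infinity
-/

set_option autoImplicit false

open MvPolynomial

namespace Pool.Agent.L7h56.OS

open Pool.Agent.L7h17.OC Pool.Agent.L7h32.OS

theorem eval_inf (F : MvPolynomial (Fin 3) ℝ) (a b : ℕ → ℝ) (h : Sep F a b) (v : Fin 3 → ℝ)
    (hv : v 2 = 0) : eval v F = a 8 * v 0 ^ 8 + b 8 * v 1 ^ 8 := by
  rw [h]
  simp [Finset.sum_range_succ, hv]

/-- two points at infinity which are proportional lie in the same piece -/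
theorem same {k : ℕ} {F : MvPolynomial (Fin 3) ℝ} {C : Fin k → Set (Fin 3 → ℝ)}
    (hC : IsSplit k F C) {i j : Fin k} {v w : Fin 3 → ℝ} (hv : v ∈ C i) (hw : w ∈ C j) (c : ℝ)
    (hc : c ≠ 0) (h : w = c • v) : i = j := by
  by_contra hij
  have h1 : w ∈ C i := by
    rw [h]
    exact hC.2.2.2.1 i v hv c hc
  exact Set.disjoint_left.1 (hC.2.1 i j hij) h1 hw

theorem s_INF : S_INF := by
  classical
  intro F a b k C hF hab hC J hJ
  by_contra hcard
  push Not at hcard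
  obtain ⟨i, j, l, hi, hj, hl, hij, hil, hjl⟩ := Finset.two_lt_card_iff.1 hcard
  obtain ⟨u, hu, hu2⟩ := hJ i hi
  obtain ⟨v, hv, hv2⟩ := hJ j hj
  obtain ⟨w, hw, hw2⟩ := hJ l hl
  have key : ∀ m, ∀ x ∈ C m, x 2 = 0 → x ≠ 0 ∧ a 8 * x 0 ^ 8 + b 8 * x 1 ^ 8 = 0 := by
    intro m x hx hx2
    have h1 : x ∈ realCone F := by
      rw [← hC.2.2.1]
      exact Set.mem_iUnion.2 ⟨m, hx⟩
    exact ⟨h1.1, by rw [← eval_inf F a b hF x hx2]; exact h1.2⟩
  obtain ⟨u0, hu'⟩ := key i u hu hu2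
  obtain ⟨v0, hv'⟩ := key j v hv hv2
  obtain ⟨w0, hw'⟩ := key l w hw hw2
  -- a nonzero vector with the third coordinate zero
  have nz : ∀ x : Fin 3 → ℝ, x ≠ 0 → x 2 = 0 → x 0 ≠ 0 ∨ x 1 ≠ 0 := by
    intro x hx hx2
    by_contra h
    push Not at h
    apply hx
    funext m
    fin_cases m
    · exact h.1
    · exact h.2
    · exact hx2
  -- proportional vectors
  have prop : ∀ x y : Fin 3 → ℝ, x 2 = 0 → y 2 = 0 → x 0 ≠ 0 → y 0 ≠ 0 →
      x 1 / x 0 = y 1 / y 0 → ∃ c : ℝ, c ≠ 0 ∧ y = c • x := by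
    intro x y hx hy hx0 hy0 h
    refine ⟨y 0 / x 0, div_ne_zero hy0 hx0, ?_⟩
    funext m
    fin_cases m
    · simp [hx0]
    · simp only [Fin.mk_one, Pi.smul_apply, smul_eq_mul]
      field_simp at h ⊢
      linarith
    · show y 2 = (y 0 / x 0) * x 2
      rw [hx, hy, mul_zero]
  have prop1 : ∀ x y : Fin 3 → ℝ, x 2 = 0 → y 2 = 0 → x 0 = 0 → y 0 = 0 → x 1 ≠ 0 → y 1 ≠ 0 →
      ∃ c : ℝ, c ≠ 0 ∧ y = c • x := by
    intro x y hx hy hx0 hy0 h h'
    refine ⟨y 1 / x 1, div_ne_zero h' h, ?_⟩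
    funext m
    fin_cases m
    · show y 0 = (y 1 / x 1) * x 0
      rw [hx0, hy0, mul_zero]
    · simp [h]
    · show y 2 = (y 1 / x 1) * x 2
      rw [hx, hy, mul_zero]
  by_cases ha : a 8 = 0
  · -- then `x 1 = 0`
    have hb : b 8 ≠ 0 := hab.resolve_left (fun h => h ha)
    have one : ∀ x : Fin 3 → ℝ, a 8 * x 0 ^ 8 + b 8 * x 1 ^ 8 = 0 → x 1 = 0 := by
      intro x hx
      rw [ha, zero_mul, zero_add] at hx
      exact pow_eq_zero_iff (by norm_num) |>.1 ((mul_eq_zero.1 hx).resolve_left hb)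
    have hu0 : u 0 ≠ 0 := (nz u u0 hu2).resolve_right (fun h => h (one u hu'))
    have hv0 : v 0 ≠ 0 := (nz v v0 hv2).resolve_right (fun h => h (one v hv'))
    obtain ⟨c, hc, h⟩ := prop u v hu2 hv2 hu0 hv0 (by rw [one u hu', one v hv', zero_div, zero_div])
    exact hij (same hC hu hv c hc h)
  · by_cases hb : b 8 = 0
    · have one : ∀ x : Fin 3 → ℝ, a 8 * x 0 ^ 8 + b 8 * x 1 ^ 8 = 0 → x 0 = 0 := by
        intro x hx
        rw [hb, zero_mul, add_zero] at hx
        exact pow_eq_zero_iff (by norm_num) |>.1 ((mul_eq_zero.1 hx).resolve_left ha)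
      have hu1 : u 1 ≠ 0 := (nz u u0 hu2).resolve_left (fun h => h (one u hu'))
      have hv1 : v 1 ≠ 0 := (nz v v0 hv2).resolve_left (fun h => h (one v hv'))
      obtain ⟨c, hc, h⟩ := prop1 u v hu2 hv2 (one u hu') (one v hv') hu1 hv1
      exact hij (same hC hu hv c hc h)
    · -- both coefficients are nonzero
      have fst : ∀ x : Fin 3 → ℝ, x ≠ 0 → x 2 = 0 → a 8 * x 0 ^ 8 + b 8 * x 1 ^ 8 = 0 →
          x 0 ≠ 0 ∧ (x 1 / x 0) ^ 8 = -(a 8) / b 8 := by
        intro x hx hx2 he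
        have h0 : x 0 ≠ 0 := by
          intro h
          rw [h, zero_pow (by norm_num), mul_zero, zero_add] at he
          have h1 : x 1 = 0 :=
            pow_eq_zero_iff (by norm_num) |>.1 ((mul_eq_zero.1 he).resolve_left hb)
          rcases nz x hx hx2 with h2 | h2
          · exact h2 h
          · exact h2 h1
        refine ⟨h0, ?_⟩
        rw [div_pow, div_eq_div_iff (pow_ne_zero 8 h0) hb]
        linarith
      obtain ⟨pu, qu⟩ := fst u u0 hu2 hu'
      obtain ⟨pv, qv⟩ := fst v v0 hv2 hv'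
      obtain ⟨pw, qw⟩ := fst w w0 hw2 hw'
      have alt : ∀ s t : ℝ, s ^ 8 = t ^ 8 → s = t ∨ s = -t := by
        intro s t h
        have h1 : |s| = |t| := by
          have h2 : |s| ^ 8 = |t| ^ 8 := by
            rw [← abs_pow, ← abs_pow, h]
          exact (pow_left_inj₀ (abs_nonneg s) (abs_nonneg t) (by norm_num)).1 h2
        exact abs_eq_abs.1 h1
      rcases alt _ _ (qu.trans qv.symm) with h1 | h1
      · obtain ⟨c, hc, h⟩ := prop u v hu2 hv2 pu pv h1
        exact hij (same hC hu hv c hc h)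
      · rcases alt _ _ (qu.trans qw.symm) with h2 | h2
        · obtain ⟨c, hc, h⟩ := prop u w hu2 hw2 pu pw h2
          exact hil (same hC hu hw c hc h)
        · obtain ⟨c, hc, h⟩ := prop v w hv2 hw2 pv pw (by linarith)
          exact hjl (same hC hv hw c hc h)

end Pool.Agent.L7h56.OS
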