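import Pool.Agent.L7h56.OS.Ser
import Pool.Agent.L7h56.OS.Gf

/-!
# The kernel
-/

set_option autoImplicit false

namespace Pool.Agent.L7h56.OSE

open PowerSeries Pool.Agent.L7h56.OS

/-- the embedding in the outer variable -/
noncomputable def ix : PA →+* N := PowerSeries.map (C : ℚ →+* PA)
/-- the embedding in the inner variable -/
noncomputable def iy : PA →+* N := PowerSeries.C

theorem ix_X : ix X = x := by simp [ix, x]
theorem iy_X : iy X = y := rfl
theorem ix_C (q : ℚ) : ix (C q) = iy (C q) := by simp [ix, iy]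

theorem coeff_ixy (f g : PA) (a b : ℕ) :
    coeff b (coeff a (ix f * iy g)) = coeff a f * coeff b g := by
  unfold ix iy
  rw [coeff_mul_C, coeff_map, coeff_C_mul]

theorem ix_gi : ix gi * (1 - x + x ^ 2) = 1 := by
  have h := congrArg ix gi_mul
  simpa [ix_X] using h

theorem iy_gi : iy gi * (1 - y + y ^ 2) = 1 := by
  have h := congrArg iy gi_mul
  simpa [iy_X] using h

theorem kernel : 2 * ((ix zx - iy zx) * F) =
    (ix Pp * iy Qv - ix Qv * iy Pp) * (ix tx - iy tx) := by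
  have hx := ix_gi
  have hy := iy_gi
  have hF := F_mul
  have i2x : ix 2 = 2 := map_ofNat ix 2
  have i2y : iy 2 = 2 := map_ofNat iy 2
  have hgx : (1 - x + x ^ 2 : N) ≠ 0 := by
    intro h
    rw [h, mul_zero] at hx
    exact zero_ne_one hx
  have hgy : (1 - y + y ^ 2 : N) ≠ 0 := by
    intro h
    rw [h, mul_zero] at hy
    exact zero_ne_one hy
  have hD := D_ne
  unfold zx Pp Qv tx
  simp only [map_mul, map_sub, map_add, map_one, map_pow, ix_X, iy_X, i2x, i2y]
  generalize ix gi = a at *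
  generalize iy gi = b at *
  apply mul_left_cancel₀ (mul_ne_zero hD (mul_ne_zero (pow_ne_zero 3 hgx) (pow_ne_zero 3 hgy)))
  have e1 : (1 - x * y) * (1 - x - y) * ((1 - x + x ^ 2) ^ 3 * (1 - y + y ^ 2) ^ 3) *
      (2 * ((x ^ 2 * (1 - x) ^ 2 * a ^ 3 - y ^ 2 * (1 - y) ^ 2 * b ^ 3) * F)) =
      2 * (x ^ 2 * (1 - x) ^ 2 * (a * (1 - x + x ^ 2)) ^ 3 * (1 - y + y ^ 2) ^ 3 -
        y ^ 2 * (1 - y) ^ 2 * (b * (1 - y + y ^ 2)) ^ 3 * (1 - x + x ^ 2) ^ 3) *
        ((1 - x * y) * (1 - x - y) * F) := by ring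
  have e2 : (1 - x * y) * (1 - x - y) * ((1 - x + x ^ 2) ^ 3 * (1 - y + y ^ 2) ^ 3) *
      (((2 - x) * (1 + x) * (1 - 2 * x) * a ^ 2 * (y * (1 - y) * b ^ 2) -
        x * (1 - x) * a ^ 2 * ((2 - y) * (1 + y) * (1 - 2 * y) * b ^ 2)) *
        (x ^ 2 * a - y ^ 2 * b)) =
      (1 - x * y) * (1 - x - y) *
        ((a * (1 - x + x ^ 2)) ^ 2 * (b * (1 - y + y ^ 2)) ^ 2) *
      (((2 - x) * (1 + x) * (1 - 2 * x) * (y * (1 - y)) -
        x * (1 - x) * ((2 - y) * (1 + y) * (1 - 2 * y))) *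
        (x ^ 2 * (a * (1 - x + x ^ 2)) * (1 - y + y ^ 2) -
          y ^ 2 * (b * (1 - y + y ^ 2)) * (1 - x + x ^ 2))) := by ring
  rw [e1, e2, hF, hx, hy]
  ring

/-- the bracket -/
noncomputable def br (k : ℕ) : N :=
  ix (zx * oo k) * iy (ee k) - iy (zx * oo k) * ix (ee k)

theorem br_zero : br 0 = ix tx - iy tx := by
  unfold br
  rw [ee_zero, zoo_zero, map_one, map_one, mul_one, mul_one]

theorem br_succ (k : ℕ) : br k = (ix zx - iy zx) * (ix (oo k) * iy (oo k)) +
    iy (C (al1 k * al2 k)) * (ix zx * iy zx) * br (k + 1) := by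
  have r1x := congrArg ix (rel1 k)
  have r1y := congrArg iy (rel1 k)
  have r2x := congrArg ix (rel2 k)
  have r2y := congrArg iy (rel2 k)
  unfold br
  simp only [map_mul, map_sub, ix_C] at *
  generalize ix zx = z1 at *
  generalize iy zx = z2 at *
  generalize iy (C (al1 k)) = l1 at *
  generalize iy (C (al2 k)) = l2 at *
  generalize ix (oo k) = o1 at *
  generalize iy (oo k) = o2 at *
  generalize ix (oo (k + 1)) = p1 at *
  generalize iy (oo (k + 1)) = p2 at *
  generalize ix (ee k) = e1 at *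
  generalize iy (ee k) = e2 at *
  generalize ix (ee (k + 1)) = f1 at *
  generalize iy (ee (k + 1)) = f2 at *
  -- r1x : o1 - e1 = l1 * (z1 * f1), r2x : f1 - o1 = l2 * (z1 * p1)
  linear_combination (z2 * o2) * r1x - (z1 * o1) * r1y + (l1 * z1 * z2 * f2) * r2x - (l1 * z1 * z2 * f1) * r2y

/-- the constants of the elimination -/
def hh : ℕ → ℚ
  | 0 => 1
  | k + 1 => hh k * (al1 k * al2 k)

/-- the reduced kernel -/
noncomputable def fr (k : ℕ) : N :=
  2 * F - ∑ m ∈ Finset.range k, iy (C (hh m)) * (ix (pp m) * iy (qq m) - ix (qq m) * iy (pp m))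

theorem fr_eq (k : ℕ) : (ix zx - iy zx) * fr k =
    (ix Pp * iy Qv - ix Qv * iy Pp) * iy (C (hh k)) * (ix zx * iy zx) ^ k * br k := by
  induction k with
  | zero =>
    have h1 : fr 0 = 2 * F := by simp [fr]
    rw [h1, br_zero]
    have h2 : iy (C (hh 0)) = 1 := by simp [hh]
    rw [h2]
    linear_combination kernel
  | succ k ih =>
    have h1 : fr (k + 1) = fr k -
        iy (C (hh k)) * (ix (pp k) * iy (qq k) - ix (qq k) * iy (pp k)) := by
      unfold fr
      rw [Finset.sum_range_succ]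
      ring
    rw [h1, mul_sub, ih, br_succ k]
    have h3 : iy (C (hh (k + 1))) = iy (C (hh k)) * iy (C (al1 k * al2 k)) := by
      rw [hh, map_mul, map_mul]
    rw [h3]
    unfold pp qq
    simp only [map_mul, map_pow]
    ring

theorem X_dvd_fr (k : ℕ) : (X : N) ^ (2 * k) ∣ fr k := by
  have hp : Prime (X : N) := X_prime
  have h1 : ¬ (X : N) ∣ (ix zx - iy zx) := by
    rw [X_dvd_iff]
    intro h
    rw [map_sub] at h
    have h2 : constantCoeff (ix zx) = 0 := by
      rw [← coeff_zero_eq_constantCoeff_apply, ix, coeff_map, coeff_zero_eq_constantCoeff_apply]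
      simp [zx]
    have h3 : constantCoeff (iy zx) = zx := by simp [iy]
    rw [h2, h3, zero_sub, neg_eq_zero] at h
    have h4 := congrArg (coeff 2) h
    rw [zx_eq, coeff_X_pow_mul', if_pos le_rfl, Nat.sub_self, coeff_zero_eq_constantCoeff_apply,
      cc_zc] at h4
    simp at h4
  apply hp.pow_dvd_of_dvd_mul_left _ h1
  rw [fr_eq]
  have h5 : ix zx = X ^ 2 * ix zc := by
    rw [zx_eq, map_mul, map_pow, ix_X, x]
  rw [h5]
  refine ⟨(ix Pp * iy Qv - ix Qv * iy Pp) * iy (C (hh k)) * (ix zc * iy zx) ^ k * br k, ?_⟩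
  rw [pow_mul]
  ring

/-- the reduced array -/
noncomputable def Ar (k a b : ℕ) : ℚ := 2 * c a b - ∑ m ∈ Finset.range k,
  hh m * (coeff a (pp m) * coeff b (qq m) - coeff a (qq m) * coeff b (pp m))

theorem coeff_fr (k a b : ℕ) : coeff b (coeff a (fr k)) = Ar k a b := by
  unfold fr Ar
  have h2 : (2 : N) * F = iy (C 2) * F := by
    have : iy (C 2) = 2 := by
      rw [map_ofNat (C : ℚ →+* PA) 2]
      exact map_ofNat iy 2
    rw [this]
  rw [h2, map_sub, map_sub, map_sum, map_sum]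
  unfold iy
  rw [coeff_C_mul, coeff_C_mul, coeff_F]
  congr 1
  apply Finset.sum_congr rfl
  intro m _
  rw [coeff_C_mul, coeff_C_mul, map_sub, map_sub]
  have h3 := coeff_ixy (pp m) (qq m) a b
  have h4 := coeff_ixy (qq m) (pp m) a b
  unfold iy at h3 h4
  rw [h3, h4]

theorem Ar_lt (k a b : ℕ) (h : a < 2 * k) : Ar k a b = 0 := by
  rw [← coeff_fr]
  obtain ⟨G, hG⟩ := X_dvd_fr k
  rw [hG, coeff_X_pow_mul', if_neg (by omega), map_zero]

theorem Ar_skew (k a b : ℕ) : Ar k a b = - Ar k b a := by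
  unfold Ar
  rw [c_skew a b, neg_sub, sub_eq_add_neg, ← Finset.sum_neg_distrib, sub_eq_add_neg]
  rw [show ∀ u v : ℚ, u + -(2 * v) = -(2 * v) + u from fun u v => add_comm _ _]
  congr 1
  · ring
  · apply Finset.sum_congr rfl
    intro m _
    ring

theorem Ar_lt' (k a b : ℕ) (h : b < 2 * k) : Ar k a b = 0 := by
  rw [Ar_skew, Ar_lt k b a h, neg_zero]

end Pool.Agent.L7h56.OSE
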