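import Mathlib

/-!
# Substitution of `X (1 - X) ^ 2` and hypergeometric series
-/

set_option autoImplicit false

namespace Pool.Agent.L7h56.OSE

open PowerSeries

/-- power series -/
abbrev PA : Type := PowerSeries ℚ

/-- the powers of `1 / (1 - X)` -/
noncomputable def Iv (d : ℕ) : PA := (PowerSeries.invOneSubPow ℚ d).val

theorem Iv_mul (d : ℕ) : Iv d * (1 - X) ^ d = 1 := by
  unfold Iv
  rw [← invOneSubPow_inv_eq_one_sub_pow]
  exact (PowerSeries.invOneSubPow ℚ d).val_inv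

theorem Iv_add (d e : ℕ) : Iv (d + e) = Iv d * Iv e := by
  unfold Iv
  rw [invOneSubPow_add]
  rfl

theorem coeff_Iv (d n : ℕ) : coeff n (Iv (d + 1)) = ((d + n).choose d : ℚ) := by
  unfold Iv
  rw [invOneSubPow_val_succ_eq_mk_add_choose, coeff_mk]

/-- the substituted series -/
noncomputable def Ps : PA := X * (1 - X) ^ 2

theorem Ps_zero : constantCoeff Ps = 0 := by simp [Ps]

theorem hsP : HasSubst (Ps : PA) := HasSubst.of_constantCoeff_zero' Ps_zero

/-- the substitution -/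
noncomputable def Phi : PA →ₐ[ℚ] PA := substAlgHom hsP

theorem Phi_X : Phi X = Ps := substAlgHom_X hsP

theorem Phi_C (q : ℚ) : Phi (C q) = C q := by
  have h : (C q : PA) = algebraMap ℚ PA q := rfl
  rw [h, AlgHom.commutes]

theorem split (G : PA) (k : ℕ) : ∃ G' : PA,
    G = ∑ j ∈ Finset.range k, C (coeff j G) * X ^ j + X ^ k * G' := by
  have h : X ^ k ∣ G - ∑ j ∈ Finset.range k, C (coeff j G) * X ^ j := by
    rw [X_pow_dvd_iff]
    intro m hm
    rw [map_sub, map_sum, Finset.sum_eq_single m]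
    · simp
    · intro j _ hj
      rw [coeff_C_mul, coeff_X_pow, if_neg hj.symm, mul_zero]
    · intro h
      exact absurd (Finset.mem_range.2 hm) h
  obtain ⟨G', hG'⟩ := h
  exact ⟨G', by rw [← hG']; ring⟩

theorem Ps_pow (j : ℕ) : Ps ^ j = X ^ j * (1 - X) ^ (2 * j) := by
  unfold Ps
  rw [mul_pow, ← pow_mul]

theorem key_coeff (d : ℕ) : coeff d ((1 - 3 * X) * Iv (2 * d + 1)) = if d = 0 then 1 else 0 := by
  rcases d with _ | d
  · rw [if_pos rfl]
    simp [sub_mul, coeff_Iv, mul_assoc]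
    have := coeff_Iv 0 0
    simpa using this
  · rw [if_neg (Nat.succ_ne_zero d)]
    have e : (1 - 3 * X) * Iv (2 * (d + 1) + 1) = Iv (2 * (d + 1) + 1) -
        C 3 * (X * Iv (2 * (d + 1) + 1)) := by
      simp only [map_ofNat]
      ring
    rw [e, map_sub, coeff_C_mul, coeff_succ_X_mul, coeff_Iv, coeff_Iv]
    have h := Nat.choose_mul_succ_eq (2 * (d + 1) + d) (2 * (d + 1))
    have h2 : 2 * (d + 1) + d + 1 - 2 * (d + 1) = d + 1 := by omega
    rw [h2] at h
    have h3 : ((2 * (d + 1) + d).choose (2 * (d + 1)) : ℚ) * (2 * (d + 1) + d + 1) =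
        ((2 * (d + 1) + (d + 1)).choose (2 * (d + 1)) : ℚ) * (d + 1) := by
      have e1 : 2 * (d + 1) + (d + 1) = 2 * (d + 1) + d + 1 := by ring
      rw [e1]
      exact_mod_cast h
    have h4 : (d + 1 : ℚ) ≠ 0 := by positivity
    have h5 : ((2 * (d + 1) + (d + 1)).choose (2 * (d + 1)) : ℚ) =
        3 * ((2 * (d + 1) + d).choose (2 * (d + 1)) : ℚ) := by
      apply mul_right_cancel₀ h4
      rw [← h3]
      ring
    rw [h5]
    ring

/-- the coefficients of `G` from `Phi G` -/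
theorem lam (G : PA) (k : ℕ) :
    coeff k (Phi G * ((1 - 3 * X) * Iv (2 * k + 1))) = coeff k G := by
  obtain ⟨G', hG'⟩ := split G (k + 1)
  have h1 : Phi G = ∑ j ∈ Finset.range (k + 1), C (coeff j G) * Ps ^ j + Ps ^ (k + 1) * Phi G' := by
    conv_lhs => rw [hG']
    simp only [map_add, map_sum, map_mul, map_pow, Phi_X, Phi_C]
  rw [h1, add_mul, map_add]
  have h2 : coeff k (Ps ^ (k + 1) * Phi G' * ((1 - 3 * X) * Iv (2 * k + 1))) = 0 := by
    rw [Ps_pow]
    have e : X ^ (k + 1) * (1 - X) ^ (2 * (k + 1)) * Phi G' * ((1 - 3 * X) * Iv (2 * k + 1)) =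
        X ^ (k + 1) * ((1 - X) ^ (2 * (k + 1)) * Phi G' * ((1 - 3 * X) * Iv (2 * k + 1))) := by
      ring
    rw [e, coeff_X_pow_mul', if_neg (by omega)]
  rw [h2, add_zero, Finset.sum_mul, map_sum, Finset.sum_eq_single k]
  · rw [Ps_pow]
    have e : C (coeff k G) * (X ^ k * (1 - X) ^ (2 * k)) * ((1 - 3 * X) * Iv (2 * k + 1)) =
        C (coeff k G) * (X ^ k * ((1 - 3 * X) * Iv (2 * 0 + 1))) := by
      have e2 : Iv (2 * k + 1) = Iv (2 * k) * Iv (2 * 0 + 1) := by
        rw [← Iv_add]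
      rw [e2]
      linear_combination (C (coeff k G) * X ^ k * (1 - 3 * X) * Iv (2 * 0 + 1)) * Iv_mul (2 * k)
    rw [e, coeff_C_mul, coeff_X_pow_mul', if_pos le_rfl, Nat.sub_self, key_coeff]
    simp
  · intro j hj hjk
    rw [Finset.mem_range] at hj
    rw [Ps_pow]
    have e : C (coeff j G) * (X ^ j * (1 - X) ^ (2 * j)) * ((1 - 3 * X) * Iv (2 * k + 1)) =
        C (coeff j G) * (X ^ j * ((1 - 3 * X) * Iv (2 * (k - j) + 1))) := by
      have e2 : Iv (2 * k + 1) = Iv (2 * j) * Iv (2 * (k - j) + 1) := by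
        rw [← Iv_add]
        congr 1
        omega
      rw [e2]
      linear_combination (C (coeff j G) * X ^ j * (1 - 3 * X) * Iv (2 * (k - j) + 1)) * Iv_mul (2 * j)
    rw [e, coeff_C_mul, coeff_X_pow_mul', if_pos (by omega), key_coeff, if_neg (by omega), mul_zero]
  · intro h
    exact absurd (Finset.mem_range.2 (Nat.lt_succ_self k)) h

theorem Phi_inj {G H : PA} (h : ∀ k, coeff k G = coeff k (Phi H * ((1 - 3 * X) * Iv (2 * k + 1)))) :
    G = H := by
  ext k
  rw [h, lam]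

theorem Ps_one : IsUnit (coeff 1 Ps) := by
  have : coeff 1 Ps = 1 := by
    unfold Ps
    rw [show (1 : ℕ) = 0 + 1 from rfl, coeff_succ_X_mul]
    simp
  rw [this]
  exact isUnit_one

theorem Phi_surj (H : PA) : ∃ G : PA, Phi G = H := by
  have hs2 : HasSubst (substInvOfIsUnit Ps Ps_one : PA) := HasSubst.substInvOfIsUnit _ _
  refine ⟨subst (substInvOfIsUnit Ps Ps_one) H, ?_⟩
  have h1 : Phi (subst (substInvOfIsUnit Ps Ps_one) H) =
      subst Ps (subst (substInvOfIsUnit Ps Ps_one) H) := by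
    rw [Phi, coe_substAlgHom]
  rw [h1, subst_comp_subst_apply hs2 hsP, subst_substInvOfIsUnit_left _ Ps_zero]
  exact X_subst H

/-- recognising `Phi G` -/
theorem Phi_eq (G H : PA) (h : ∀ k, coeff k G = coeff k (H * ((1 - 3 * X) * Iv (2 * k + 1)))) :
    Phi G = H := by
  obtain ⟨G0, hG0⟩ := Phi_surj H
  have : G = G0 := Phi_inj (fun k => by rw [h, hG0])
  rw [this, hG0]

end Pool.Agent.L7h56.OSE
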