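import Pool.Agent.L7h56.OS.Sym

/-!
# Recursions for the partition function
-/

set_option autoImplicit false

namespace Pool.Agent.L7h56.OS

open Polynomial (C X)

section ring

variable {R : Type*} [CommRing R]

/-- `∏ (1 - x y)` -/
def pA (x : R) (l : List R) : R := (l.map fun y => 1 - x * y).prod

theorem pA_cons (x y : R) (l : List R) : pA x (y :: l) = (1 - x * y) * pA x l := by
  simp [pA]

theorem rowT_true (x : R) : ∀ (ys : List R) (F : List Bool → R),
    rowT x ys F true (List.replicate ys.length false) =
      pA x ys * F (List.replicate ys.length false)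
  | [], F => by simp [rowT, pA]
  | y :: ys, F => by
    rw [List.length_cons, List.replicate_succ, rowT_cons, pA_cons]
    simp only [Fintype.sum_bool, L, cond_true, cond_false, zero_mul, zero_add, add_zero]
    rw [rowT_true x ys]
    ring

theorem rowT_false_cons (x y : R) (ys : List R) (F : List Bool → R) :
    rowT x (y :: ys) F false (List.replicate (y :: ys).length false) =
      (1 - x - y) * rowT x ys (fun l => F (false :: l)) false (List.replicate ys.length false) +
        pA x ys * F (true :: List.replicate ys.length false) := by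
  rw [List.length_cons, List.replicate_succ, rowT_cons]
  simp only [Fintype.sum_bool, L, cond_true, cond_false, zero_mul, zero_add, add_zero]
  rw [rowT_true x ys]
  ring

theorem Zz_cons (s x : R) (l : List R) : Zz s (x :: l) =
    (1 - 2 * x) * rowT x l (Z s l) false (List.replicate l.length false) +
      s * (pA x l * Zz s l) := by
  unfold Zz
  rw [List.length_cons, List.replicate_succ, Z_cons]
  simp only [Fintype.sum_bool, K, cond_true, cond_false]
  rw [rowT_true x l]
  ring

theorem Zz_pair (s x : R) (l : List R) : Zz s (x :: (1 - x) :: l) =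
    pA x l * pA (1 - x) l * ((1 - 2 * x) * (1 - 2 * (1 - x)) + s ^ 2 * g x) * Zz s l := by
  rw [Zz_cons, rowT_false_cons, Zz_cons, pA_cons, Z_cons]
  simp only [Fintype.sum_bool, K, cond_true, cond_false]
  rw [rowT_true (1 - x) l]
  unfold Zz g
  ring

end ring

section dom

variable {R : Type*} [CommRing R]

theorem coeff_rowT (k : ℕ) (x : R) : ∀ (ys : List R) (F : List Bool → Polynomial R) (h : Bool)
    (cs : List Bool), (rowT (C x) (ys.map C) F h cs).coeff k =
      rowT x ys (fun l => (F l).coeff k) h cs
  | [], F, h, [] => by cases h <;> simp [rowT]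
  | y :: ys, F, h, c :: cs => by
    simp only [List.map_cons, rowT_cons, Fintype.sum_bool, Polynomial.coeff_add]
    simp only [← L_map, Polynomial.coeff_C_mul, coeff_rowT k x ys]
  | [], _, h, _ :: _ => by simp [rowT]
  | _ :: _, _, h, [] => by simp [rowT]

/-- the partition function with a formal weight of the nonzero diagonal entries -/
noncomputable def ZX (l : List R) : Polynomial R := Zz X (l.map C)

/-- no nonzero diagonal entry -/
noncomputable def Z0 (l : List R) : R := (ZX l).coeff 0

/-- one nonzero diagonal entry -/
noncomputable def Z1 (l : List R) : R := (ZX l).coeff 1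

theorem Z0_nil : Z0 ([] : List R) = 1 := by simp [Z0, ZX, Zz, Z]

theorem Z1_nil : Z1 ([] : List R) = 0 := by
  simp [Z1, ZX, Zz, Z, Polynomial.coeff_one]

theorem pA_map (x : R) (l : List R) : pA (C x) (l.map C) = C (pA x l) := by
  induction l with
  | nil => simp [pA]
  | cons a l ih => rw [List.map_cons, pA_cons, pA_cons, ih]; simp

theorem Z0_cons (y : R) (l : List R) : Z0 (y :: l) = (1 - 2 * y) *
    rowT y l (fun c => (Z X (l.map C) c).coeff 0) false (List.replicate l.length false) := by
  unfold Z0 ZX
  rw [List.map_cons, Zz_cons, Polynomial.coeff_add, Polynomial.mul_coeff_zero X,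
    Polynomial.coeff_X_zero, zero_mul, add_zero]
  have e : (1 - 2 * C y : Polynomial R) = C (1 - 2 * y) := by simp [map_ofNat]
  rw [e, Polynomial.coeff_C_mul, List.length_map, coeff_rowT]

theorem Z1_cons (y : R) (l : List R) : Z1 (y :: l) = (1 - 2 * y) *
    rowT y l (fun c => (Z X (l.map C) c).coeff 1) false (List.replicate l.length false) +
      pA y l * Z0 l := by
  unfold Z0 Z1 ZX
  have e1 : (1 : ℕ) = 0 + 1 := rfl
  rw [List.map_cons, Zz_cons, Polynomial.coeff_add]
  have e : (1 - 2 * C y : Polynomial R) = C (1 - 2 * y) := by simp [map_ofNat]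
  rw [e, Polynomial.coeff_C_mul, List.length_map, coeff_rowT]
  congr 1
  rw [e1, Polynomial.coeff_X_mul, pA_map, Polynomial.coeff_C_mul]

theorem Z0_perm [IsDomain R] {l1 l2 : List R} (h : l1.Perm l2) : Z0 l1 = Z0 l2 := by
  unfold Z0 ZX
  rw [Zz_perm X (h.map C)]

theorem Z1_perm [IsDomain R] {l1 l2 : List R} (h : l1.Perm l2) : Z1 l1 = Z1 l2 := by
  unfold Z1 ZX
  rw [Zz_perm X (h.map C)]

theorem ZX_pair (x : R) (l : List R) : ZX (x :: (1 - x) :: l) =
    C (pA x l * pA (1 - x) l) * (C ((1 - 2 * x) * (1 - 2 * (1 - x))) * ZX l +
      X * (X * (C (g x) * ZX l))) := by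
  unfold ZX
  have e : (C (1 - x) : Polynomial R) = 1 - C x := by simp
  rw [List.map_cons, List.map_cons, e, Zz_pair, ← e, pA_map, pA_map]
  have e2 : (g (C x) : Polynomial R) = C (g x) := by simp [g]
  rw [e2]
  simp only [map_mul, map_sub, map_one, map_ofNat]
  ring

theorem Z0_pair (x : R) (l : List R) : Z0 (x :: (1 - x) :: l) =
    pA x l * pA (1 - x) l * ((1 - 2 * x) * (1 - 2 * (1 - x))) * Z0 l := by
  unfold Z0
  rw [ZX_pair, Polynomial.coeff_C_mul, Polynomial.coeff_add, Polynomial.coeff_C_mul,
    Polynomial.mul_coeff_zero X, Polynomial.coeff_X_zero]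
  ring

theorem Z1_pair (x : R) (l : List R) : Z1 (x :: (1 - x) :: l) =
    pA x l * pA (1 - x) l * ((1 - 2 * x) * (1 - 2 * (1 - x))) * Z1 l := by
  unfold Z1
  have e1 : (1 : ℕ) = 0 + 1 := rfl
  rw [ZX_pair, Polynomial.coeff_C_mul, Polynomial.coeff_add, Polynomial.coeff_C_mul]
  have hz : (X * (X * (C (g x) * ZX l))).coeff 1 = 0 := by
    rw [e1, Polynomial.coeff_X_mul, Polynomial.mul_coeff_zero X, Polynomial.coeff_X_zero, zero_mul]
  rw [hz]
  ring

/-- `pA` as a polynomial -/
noncomputable def pAp (l : List R) : Polynomial R := (l.map fun a => 1 - X * C a).prod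

theorem pAp_eval (l : List R) (y : R) : (pAp l).eval y = pA y l := by
  induction l with
  | nil => simp [pAp, pA]
  | cons a l ih =>
    have e : pAp (a :: l) = (1 - X * C a) * pAp l := by simp [pAp]
    rw [e, Polynomial.eval_mul, ih, pA_cons]
    simp only [Polynomial.eval_sub, Polynomial.eval_one, Polynomial.eval_mul, Polynomial.eval_X,
      Polynomial.eval_C]

theorem pAp_degree (l : List R) : (pAp l).degree ≤ l.length := by
  induction l with
  | nil => simp [pAp]
  | cons a l ih =>
    have e : pAp (a :: l) = (1 - X * C a) * pAp l := by simp [pAp]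
    rw [e]
    refine (Polynomial.degree_mul_le _ _).trans ?_
    have h1 : (1 - X * C a : Polynomial R).degree ≤ 1 := by
      refine (Polynomial.degree_sub_le _ _).trans (max_le ?_ ?_)
      · exact Polynomial.degree_one_le.trans zero_le_one
      · refine (Polynomial.degree_mul_le _ _).trans ?_
        have h2 : (X : Polynomial R).degree ≤ 1 := Polynomial.degree_X_le
        have h3 : (C a : Polynomial R).degree ≤ 0 := Polynomial.degree_C_le
        simpa using add_le_add h2 h3
    calc _ ≤ (1 : WithBot ℕ) + l.length := add_le_add h1 ih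
      _ = ((a :: l).length : WithBot ℕ) := by simp [add_comm]

theorem row_poly : ∀ (l : List R) (F : List Bool → R), ∃ P : Polynomial R,
    P.degree < l.length ∧ ∀ y, P.eval y = rowT y l F false (List.replicate l.length false)
  | [], F => ⟨0, by simp, fun y => by simp [rowT]⟩
  | a :: l, F => by
    obtain ⟨P, h1, h2⟩ := row_poly l (fun c => F (false :: c))
    refine ⟨(1 - X - C a) * P + pAp l * C (F (true :: List.replicate l.length false)), ?_, ?_⟩
    · have h3 : (1 - X - C a : Polynomial R).degree ≤ 1 := by
        refine (Polynomial.degree_sub_le _ _).trans (max_le ?_ ?_)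
        · refine (Polynomial.degree_sub_le _ _).trans (max_le ?_ Polynomial.degree_X_le)
          exact Polynomial.degree_one_le.trans zero_le_one
        · exact Polynomial.degree_C_le.trans zero_le_one
      have h4 : ((1 - X - C a) * P).degree < ((a :: l).length : WithBot ℕ) := by
        rcases eq_or_ne P 0 with h0 | h0
        · rw [h0, mul_zero, Polynomial.degree_zero]
          exact WithBot.bot_lt_coe _
        · refine (Polynomial.degree_mul_le _ _).trans_lt ?_
          rw [Polynomial.degree_eq_natDegree h0] at h1 ⊢
          have h5 : P.natDegree < l.length := by exact_mod_cast h1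
          calc _ ≤ (1 : WithBot ℕ) + P.natDegree := add_le_add h3 le_rfl
            _ < ((a :: l).length : WithBot ℕ) := by
              rw [List.length_cons]
              exact_mod_cast (by omega : 1 + P.natDegree < l.length + 1)
      have h6 : (pAp l * C (F (true :: List.replicate l.length false))).degree <
          ((a :: l).length : WithBot ℕ) := by
        refine (Polynomial.degree_mul_le _ _).trans_lt ?_
        calc _ ≤ (l.length : WithBot ℕ) + 0 := add_le_add (pAp_degree l) Polynomial.degree_C_le
          _ < ((a :: l).length : WithBot ℕ) := by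
            rw [List.length_cons, add_zero]
            exact_mod_cast Nat.lt_succ_self l.length
      exact (Polynomial.degree_add_le _ _).trans_lt (max_lt h4 h6)
    · intro y
      rw [rowT_false_cons, Polynomial.eval_add, Polynomial.eval_mul, Polynomial.eval_mul,
        pAp_eval, h2 y]
      simp

/-- `Z0` as a polynomial of the first variable -/
theorem Z0_poly (l : List R) : ∃ P : Polynomial R, P.degree < l.length ∧
    ∀ y, Z0 (y :: l) = (1 - 2 * y) * P.eval y := by
  obtain ⟨P, h1, h2⟩ := row_poly l (fun c => (Z X (l.map C) c).coeff 0)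
  exact ⟨P, h1, fun y => by rw [Z0_cons, h2]⟩

/-- `Z1` as a polynomial of the first variable -/
theorem Z1_poly (l : List R) : ∃ P : Polynomial R, P.degree ≤ l.length ∧
    ∀ y, Z1 (y :: l) = P.eval y := by
  obtain ⟨P, h1, h2⟩ := row_poly l (fun c => (Z X (l.map C) c).coeff 1)
  refine ⟨(1 - 2 * X) * P + pAp l * C (Z0 l), ?_, fun y => ?_⟩
  · have h3 : (1 - 2 * X : Polynomial R).degree ≤ 1 := by
      refine (Polynomial.degree_sub_le _ _).trans (max_le ?_ ?_)
      · exact Polynomial.degree_one_le.trans zero_le_one
      · have e : (2 * X : Polynomial R) = C 2 * X := by simp [map_ofNat]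
        rw [e]
        refine (Polynomial.degree_mul_le _ _).trans ?_
        simpa using add_le_add (Polynomial.degree_C_le (a := (2 : R))) (Polynomial.degree_X_le)
    have h4 : ((1 - 2 * X) * P).degree ≤ (l.length : WithBot ℕ) := by
      rcases eq_or_ne P 0 with h0 | h0
      · rw [h0, mul_zero, Polynomial.degree_zero]
        exact bot_le
      · refine (Polynomial.degree_mul_le _ _).trans ?_
        rw [Polynomial.degree_eq_natDegree h0] at h1 ⊢
        have h5 : P.natDegree < l.length := by exact_mod_cast h1
        calc _ ≤ (1 : WithBot ℕ) + P.natDegree := add_le_add h3 le_rfl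
          _ ≤ (l.length : WithBot ℕ) := by exact_mod_cast (by omega : 1 + P.natDegree ≤ l.length)
    have h6 : (pAp l * C (Z0 l)).degree ≤ (l.length : WithBot ℕ) := by
      refine (Polynomial.degree_mul_le _ _).trans ?_
      calc _ ≤ (l.length : WithBot ℕ) + 0 := add_le_add (pAp_degree l) Polynomial.degree_C_le
        _ = l.length := add_zero _
    exact (Polynomial.degree_add_le _ _).trans (max_le h4 h6)
  · rw [Z1_cons, Polynomial.eval_add, Polynomial.eval_mul, Polynomial.eval_mul, pAp_eval, h2 y]
    simp

/-- the special value -/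
theorem Z1_half (y : R) (hy : 2 * y = 1) (l : List R) : Z1 (y :: l) = pA y l * Z0 l := by
  rw [Z1_cons, hy, sub_self, zero_mul, zero_add]

end dom

end Pool.Agent.L7h56.OS
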