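import Pool.Agent.L7h56.OS.Hyp

/-!
# The series of the elimination
-/

set_option autoImplicit false

namespace Pool.Agent.L7h56.OSE

open PowerSeries

/-- the inverse of `1 - 3 X` -/
noncomputable def U3 : PA := (1 - 3 * X)⁻¹

theorem U3_mul : U3 * (1 - 3 * X) = 1 := by
  unfold U3
  rw [PowerSeries.inv_mul_cancel]
  simp

theorem Phi_Ge0 : Phi (Ge 0) = Iv 1 * U3 := by
  apply Phi_eq
  intro k
  have e : Iv 1 * U3 * ((1 - 3 * X) * Iv (2 * k + 1)) = Iv ((2 * k + 1) + 1) := by
    rw [Iv_add (2 * k + 1) 1]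
    linear_combination Iv 1 * Iv (2 * k + 1) * U3_mul
  rw [e, coeff_Iv, Ge, coeff_mk]
  have h := gam_e k
  simp only [Nat.cast_zero, add_zero, mul_zero]
  rw [h]
  congr 2
  ring

theorem Phi_Go0 : Phi (Go 0) = Iv 3 * U3 := by
  apply Phi_eq
  intro k
  have e : Iv 3 * U3 * ((1 - 3 * X) * Iv (2 * k + 1)) = Iv ((2 * k + 3) + 1) := by
    have e1 : Iv ((2 * k + 3) + 1) = Iv (2 * k + 1) * Iv 3 := by
      rw [← Iv_add]
    rw [e1]
    linear_combination Iv 3 * Iv (2 * k + 1) * U3_mul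
  rw [e, coeff_Iv, Go, coeff_mk]
  have h := gam_o k
  simp only [Nat.cast_zero, add_zero, mul_zero]
  rw [h]
  congr 2
  ring

theorem cc_Phi (G : PA) : constantCoeff (Phi G) = constantCoeff G := by
  obtain ⟨G', hG'⟩ := split G 1
  have h : G = C (coeff 0 G) + X * G' := by
    conv_lhs => rw [hG']
    simp
  rw [h]
  simp only [map_add, map_mul, Phi_X, Phi_C, Ps_zero, zero_mul, add_zero, constantCoeff_C,
    constantCoeff_X]

/-- the remainders in the variable `t` -/
noncomputable def te (n : ℕ) : PA := Phi (Ge n) * ((1 - X) * (1 - 3 * X))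
noncomputable def to' (n : ℕ) : PA := Phi (Go n) * ((1 - X) * (1 - 3 * X))

theorem te_zero : te 0 = 1 := by
  unfold te
  rw [Phi_Ge0]
  linear_combination (Iv 1 * (1 - X)) * U3_mul + Iv_mul 1

theorem to_zero : to' 0 * (1 - X) ^ 2 = 1 := by
  unfold to'
  rw [Phi_Go0]
  linear_combination (Iv 3 * (1 - X) ^ 3) * U3_mul + Iv_mul 3

theorem t_rel1 (n : ℕ) : to' n - te n = C (al1 n) * (Ps * te (n + 1)) := by
  have h := congrArg Phi (G_rel1 n)
  simp only [map_sub, map_mul, Phi_X, Phi_C] at h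
  unfold te to'
  linear_combination ((1 - X) * (1 - 3 * X)) * h

theorem t_rel2 (n : ℕ) : te (n + 1) - to' n = C (al2 n) * (Ps * to' (n + 1)) := by
  have h := congrArg Phi (G_rel2 n)
  simp only [map_sub, map_mul, Phi_X, Phi_C] at h
  unfold te to'
  linear_combination ((1 - X) * (1 - 3 * X)) * h

theorem cc_te (n : ℕ) : constantCoeff (te n) = 1 := by
  unfold te
  rw [map_mul, cc_Phi]
  simp [Ge, gam_zero]

theorem cc_to (n : ℕ) : constantCoeff (to' n) = 1 := by
  unfold to'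
  rw [map_mul, cc_Phi]
  simp [Go, gam_zero]

/-- the denominator -/
noncomputable def gx : PA := 1 - X + X ^ 2
noncomputable def gi : PA := gx⁻¹

theorem gi_mul : gi * (1 - X + X ^ 2) = 1 := by
  unfold gi
  have : (1 - X + X ^ 2 : PA) = gx := rfl
  rw [this, PowerSeries.inv_mul_cancel]
  simp [gx]

theorem cc_gi : constantCoeff gi = 1 := by
  have h := congrArg constantCoeff gi_mul
  simpa using h

/-- the series `t` -/
noncomputable def tx : PA := X ^ 2 * gi

theorem tx_zero : constantCoeff tx = 0 := by simp [tx]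

theorem hsT : HasSubst (tx : PA) := HasSubst.of_constantCoeff_zero' tx_zero

noncomputable def Psi : PA →ₐ[ℚ] PA := substAlgHom hsT

theorem Psi_X : Psi X = tx := substAlgHom_X hsT

theorem Psi_C (q : ℚ) : Psi (C q) = C q := by
  have h : (C q : PA) = algebraMap ℚ PA q := rfl
  rw [h, AlgHom.commutes]

theorem cc_Psi (G : PA) : constantCoeff (Psi G) = constantCoeff G := by
  obtain ⟨G', hG'⟩ := split G 1
  have h : G = C (coeff 0 G) + X * G' := by
    conv_lhs => rw [hG']
    simp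
  rw [h]
  simp only [map_add, map_mul, Psi_X, Psi_C, tx_zero, zero_mul, add_zero, constantCoeff_C,
    constantCoeff_X]

/-- the series `z` -/
noncomputable def zx : PA := X ^ 2 * (1 - X) ^ 2 * gi ^ 3

theorem Psi_Ps : Psi Ps = zx := by
  unfold Ps
  rw [map_mul, map_pow, map_sub, map_one, Psi_X]
  unfold zx tx
  have h := gi_mul
  have e : 1 - X ^ 2 * gi = (1 - X) * gi := by linear_combination -h
  rw [e]
  ring

noncomputable def ee (n : ℕ) : PA := Psi (te n)
noncomputable def oo (n : ℕ) : PA := Psi (to' n)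

theorem ee_zero : ee 0 = 1 := by rw [ee, te_zero, map_one]

theorem rel1 (n : ℕ) : oo n - ee n = C (al1 n) * (zx * ee (n + 1)) := by
  have h := congrArg Psi (t_rel1 n)
  simp only [map_sub, map_mul, Psi_Ps, Psi_C] at h
  exact h

theorem rel2 (n : ℕ) : ee (n + 1) - oo n = C (al2 n) * (zx * oo (n + 1)) := by
  have h := congrArg Psi (t_rel2 n)
  simp only [map_sub, map_mul, Psi_Ps, Psi_C] at h
  exact h

theorem cc_ee (n : ℕ) : constantCoeff (ee n) = 1 := by rw [ee, cc_Psi, cc_te]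
theorem cc_oo (n : ℕ) : constantCoeff (oo n) = 1 := by rw [oo, cc_Psi, cc_to]

theorem zoo_zero : zx * oo 0 = tx := by
  have h := congrArg Psi to_zero
  have e : Ps = X * (1 - X) ^ 2 := rfl
  have h2 := congrArg Psi e
  rw [map_mul, map_pow, map_sub, map_one, Psi_X] at h h2
  rw [Psi_Ps] at h2
  rw [h2]
  have h3 : Psi (to' 0) = oo 0 := rfl
  rw [h3] at h
  linear_combination tx * h

/-- the numerators -/
noncomputable def Pp : PA := (2 - X) * (1 + X) * (1 - 2 * X) * gi ^ 2
noncomputable def Qv : PA := X * (1 - X) * gi ^ 2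

/-- the two families -/
noncomputable def pp (m : ℕ) : PA := Pp * zx ^ m * oo m
noncomputable def qq (m : ℕ) : PA := Qv * zx ^ m * oo m

/-- `z ^ m` has order `2 m` -/
noncomputable def zc : PA := (1 - X) ^ 2 * gi ^ 3

theorem zx_eq : zx = X ^ 2 * zc := by unfold zx zc; ring

theorem cc_zc : constantCoeff zc = 1 := by simp [zc, cc_gi]

theorem zx_pow (m : ℕ) : zx ^ m = X ^ (2 * m) * zc ^ m := by
  rw [zx_eq, mul_pow, ← pow_mul]

theorem pp_eq (m : ℕ) : pp m = X ^ (2 * m) * (Pp * zc ^ m * oo m) := by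
  unfold pp
  rw [zx_pow]
  ring

theorem qq_eq (m : ℕ) : qq m = X ^ (2 * m + 1) * ((1 - X) * gi ^ 2 * zc ^ m * oo m) := by
  unfold qq Qv
  rw [zx_pow]
  ring

theorem pp_lt (m a : ℕ) (h : a < 2 * m) : coeff a (pp m) = 0 := by
  rw [pp_eq, coeff_X_pow_mul', if_neg (by omega)]

theorem pp_lead (m : ℕ) : coeff (2 * m) (pp m) = 2 := by
  rw [pp_eq, coeff_X_pow_mul', if_pos le_rfl, Nat.sub_self, coeff_zero_eq_constantCoeff_apply]
  have h2 : constantCoeff (2 : PA) = 2 := map_ofNat constantCoeff 2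
  simp [Pp, cc_gi, cc_zc, cc_oo, h2]

theorem qq_lt (m a : ℕ) (h : a < 2 * m + 1) : coeff a (qq m) = 0 := by
  rw [qq_eq, coeff_X_pow_mul', if_neg (by omega)]

theorem qq_lead (m : ℕ) : coeff (2 * m + 1) (qq m) = 1 := by
  rw [qq_eq, coeff_X_pow_mul', if_pos le_rfl, Nat.sub_self, coeff_zero_eq_constantCoeff_apply]
  simp [cc_gi, cc_zc, cc_oo]

/-! ### the border -/

/-- the coefficients of the expansion of the border -/
def eps : ℕ → ℚ
  | 0 => 1
  | n + 1 => eps n * (3 * (3 * n + 4) * (3 * n + 5) / ((4 * n + 3) * (4 * n + 5)))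

def bet (n : ℕ) : ℚ := -(9 * (6 * n + 1) / (4 * (4 * n + 3))) * eps n

theorem eps_succ (n : ℕ) : eps (n + 1) = bet n + (27 / 4 - al1 n) * eps n := by
  rw [eps, bet, al1]
  have p1 : (4 * n + 3 : ℚ) ≠ 0 := by positivity
  have p2 : (4 * n + 5 : ℚ) ≠ 0 := by positivity
  field_simp
  ring

theorem bet_succ (n : ℕ) : bet (n + 1) = -(bet n + 27 / 4 * eps n) * al2 n := by
  rw [bet, bet, eps, al2]
  push_cast
  have p1 : (4 * n + 3 : ℚ) ≠ 0 := by positivity
  have p2 : (4 * n + 5 : ℚ) ≠ 0 := by positivity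
  have p3 : (4 * n + 7 : ℚ) ≠ 0 := by positivity
  have p3 : (4 * (n + 1) + 3 : ℚ) ≠ 0 := by positivity
  field_simp
  ring

/-- the inverse of `1 - 3 t` -/
noncomputable def t3 : PA := (1 - 3 * tx)⁻¹

theorem t3_mul : t3 * (1 - 3 * tx) = 1 := by
  unfold t3
  rw [PowerSeries.inv_mul_cancel]
  simp [tx_zero]

/-- the remainder of the border -/
noncomputable def chi (n : ℕ) : PA := t3 ^ 2 - ∑ m ∈ Finset.range n, C (eps m) * (zx ^ m * oo m)

theorem zx_t : zx = tx * (1 - tx) ^ 2 := by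
  rw [← Psi_Ps]
  unfold Ps
  rw [map_mul, map_pow, map_sub, map_one, Psi_X]

theorem chi_eq (n : ℕ) : (1 - C (27 / 4) * zx) * chi n =
    zx ^ n * (C (eps n) * ee n + C (bet n) * (zx * oo n)) := by
  induction n with
  | zero =>
    have h1 : chi 0 = t3 ^ 2 := by simp [chi]
    rw [h1, ee_zero, zoo_zero, zx_t]
    have h2 := t3_mul
    have e1 : (C (27 / 4) : PA) * 4 = 27 := by
      have : (4 : PA) = C 4 := (map_ofNat (C : ℚ →+* PA) 4).symm
      have h27 : (27 : PA) = C 27 := (map_ofNat (C : ℚ →+* PA) 27).symm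
      rw [this, h27, ← map_mul]
      norm_num
    have e2 : (C (bet 0) : PA) * 4 = -3 := by
      have : (4 : PA) = C 4 := (map_ofNat (C : ℚ →+* PA) 4).symm
      have h27 : (-3 : PA) = C (-3) := by
        rw [map_neg]
        rw [map_ofNat (C : ℚ →+* PA) 3]
      rw [this, h27, ← map_mul]
      norm_num [bet, eps]
    have e3 : (C (eps 0) : PA) = 1 := by simp [eps]
    have h4 : (4 : PA) ≠ 0 := by
      have : (4 : PA) = C 4 := (map_ofNat (C : ℚ →+* PA) 4).symm
      rw [this]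
      intro h
      have := congrArg constantCoeff h
      simp at this
    apply mul_left_cancel₀ h4
    rw [e3]
    have e5 : (4 : PA) - 27 * (tx * (1 - tx) ^ 2) = (4 - 3 * tx) * (1 - 3 * tx) ^ 2 := by ring
    linear_combination (-(tx * (1 - tx) ^ 2 * t3 ^ 2)) * e1 + t3 ^ 2 * e5 +
      ((4 - 3 * tx) * (1 + t3 * (1 - 3 * tx))) * h2 - tx * e2
  | succ n ih =>
    have h1 : chi (n + 1) = chi n - C (eps n) * (zx ^ n * oo n) := by
      unfold chi
      rw [Finset.sum_range_succ]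
      ring
    rw [h1, mul_sub, ih, eps_succ, bet_succ]
    have r1 := rel1 n
    have r2 := rel2 n
    simp only [map_add, map_sub, map_mul, map_neg]
    rw [pow_succ]
    linear_combination (-(zx ^ n * C (eps n))) * r1 - (zx ^ (n + 1) * (C (bet n) + C (27 / 4) * C (eps n))) * r2

end Pool.Agent.L7h56.OSE
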