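import Mathlib

/-!
# The six-vertex model of diagonally symmetric alternating sign matrices

`L` are the bulk weights, `K` the weights of the diagonal, `rowT` is the transfer of one row and `Z`
the partition function with prescribed incoming column states. We prove the Yang-Baxter equation,
the reflection equation and the symmetry of `Z`.
-/

set_option autoImplicit false

namespace Pool.Agent.L7h56.OS

section ring

variable {R : Type*} [CommRing R]

def g (x : R) : R := 1 - x + x ^ 2

/-- bulk weights; `h` is the state of the horizontal line, `c` of the column: equal incoming states
stay with weight `1 - x - y` or are both reversed with weight `1` or `g x * g y`, different incoming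
states stay with weight `1 - x y` -/
def L (x y : R) (h c h' c' : Bool) : R :=
  cond h
    (cond c
      (cond h' (cond c' (1 - x - y) 0) (cond c' 0 (g x * g y)))
      (cond h' (cond c' 0 (1 - x * y)) 0))
    (cond c
      (cond h' 0 (cond c' (1 - x * y) 0))
      (cond h' (cond c' 1 0) (cond c' 0 (1 - x - y))))

/-- diagonal weights -/
def K (s x : R) (c h : Bool) : R :=
  cond c (cond h (1 - 2 * x) (s * g x)) (cond h s (1 - 2 * x))

/-- the exchange weights -/
def Rm (x y : R) (a b a' b' : Bool) : R :=
  cond a
    (cond b
      (cond a' (cond b' (1 - x + x * y) 0) 0)
      (cond a' (cond b' 0 (g y)) (cond b' (y - x) 0)))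
    (cond b
      (cond a' (cond b' 0 (y - x)) (cond b' (g x) 0))
      (cond a' 0 (cond b' 0 (1 - x + x * y))))

theorem ybe (w x y : R) (h a b h2 a2 b2 : Bool) :
    ∑ h1 : Bool, ∑ a1 : Bool, ∑ b1 : Bool, L w y h a h1 a1 * L w x h1 b h2 b1 * Rm x y a1 b1 a2 b2 =
      ∑ h1 : Bool, ∑ a1 : Bool, ∑ b1 : Bool, Rm x y a b a1 b1 * L w x h a1 h1 a2 * L w y h1 b1 h2 b2 := by
  cases h <;> cases a <;> cases b <;> cases h2 <;> cases a2 <;> cases b2 <;>
    simp only [Fintype.sum_bool, L, Rm, g, cond_true, cond_false] <;> ring

theorem refl_eq (s x y : R) (a b h k : Bool) :
    ∑ a' : Bool, ∑ b' : Bool, ∑ h0 : Bool, ∑ m : Bool,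
      Rm x y a b a' b' * (K s x a' h0 * L x y h0 b' h m * K s y m k) =
    ∑ h' : Bool, ∑ k' : Bool, ∑ h0 : Bool, ∑ m : Bool,
      (K s y a h0 * L y x h0 b h' m * K s x m k') * Rm x y h' k' h k := by
  cases a <;> cases b <;> cases h <;> cases k <;>
    simp only [Fintype.sum_bool, L, Rm, K, g, cond_true, cond_false] <;> ring

theorem L_swap (x y : R) (h c h' c' : Bool) : L x y h c h' c' = L y x c h c' h' := by
  cases h <;> cases c <;> cases h' <;> cases c' <;> simp only [L, cond_true, cond_false] <;> ring


theorem ybe' (w x y : R) (a b c h1 k1 c2 : Bool) :
    ∑ a1 : Bool, ∑ b1 : Bool, ∑ c1 : Bool, Rm x y a b a1 b1 * (L x w a1 c h1 c1 * L y w b1 c1 k1 c2) =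
      ∑ h : Bool, ∑ k : Bool, ∑ c1 : Bool, L y w a c h c1 * L x w b c1 k c2 * Rm x y h k h1 k1 := by
  cases a <;> cases b <;> cases c <;> cases h1 <;> cases k1 <;> cases c2 <;>
    simp only [Fintype.sum_bool, L, Rm, g, cond_true, cond_false] <;> ring

/-- transfer of one row: `h` is the incoming horizontal state, the outgoing one is `true` -/
def rowT (x : R) : List R → (List Bool → R) → Bool → List Bool → R
  | [], F, h, [] => cond h (F []) 0
  | y :: ys, F, h, c :: cs => ∑ h' : Bool, ∑ c' : Bool, L x y h c h' c' *
      rowT x ys (fun l => F (c' :: l)) h' cs
  | [], _, _, _ :: _ => 0
  | _ :: _, _, _, [] => 0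

theorem rowT_cons (x y : R) (ys : List R) (F : List Bool → R) (h c : Bool) (cs : List Bool) :
    rowT x (y :: ys) F h (c :: cs) = ∑ h' : Bool, ∑ c' : Bool, L x y h c h' c' *
      rowT x ys (fun l => F (c' :: l)) h' cs := rfl

theorem rowT_add (x : R) : ∀ (ys : List R) (F G : List Bool → R) (h : Bool) (cs : List Bool),
    rowT x ys (fun l => F l + G l) h cs = rowT x ys F h cs + rowT x ys G h cs
  | [], F, G, h, [] => by cases h <;> simp [rowT]
  | y :: ys, F, G, h, c :: cs => by
    simp only [rowT_cons, rowT_add x ys, Fintype.sum_bool]
    ring
  | [], _, _, h, _ :: _ => by simp [rowT]
  | _ :: _, _, _, h, [] => by simp [rowT]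

theorem rowT_smul (x a : R) : ∀ (ys : List R) (F : List Bool → R) (h : Bool) (cs : List Bool),
    rowT x ys (fun l => a * F l) h cs = a * rowT x ys F h cs
  | [], F, h, [] => by cases h <;> simp [rowT]
  | y :: ys, F, h, c :: cs => by
    simp only [rowT_cons, rowT_smul x a ys, Fintype.sum_bool]
    ring
  | [], _, h, _ :: _ => by simp [rowT]
  | _ :: _, _, h, [] => by simp [rowT]

/-- two rows can be exchanged -/
theorem double (x y : R) : ∀ (ws : List R) (F : List Bool → R) (a b : Bool) (cs : List Bool),
    ∑ a1 : Bool, ∑ b1 : Bool, Rm x y a b a1 b1 *
        rowT x ws (fun l => rowT y ws F b1 l) a1 cs =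
      (1 - x + x * y) * rowT y ws (fun l => rowT x ws F b l) a cs
  | [], F, a, b, [] => by
    cases a <;> cases b <;> simp [rowT, Rm]
  | w :: ws, F, a, b, c :: cs => by
    have ih := double x y ws
    simp only [Fintype.sum_bool] at ih
    have ybe' := ybe' (R := R)
    simp only [Fintype.sum_bool] at ybe'
    simp only [rowT_cons, Fintype.sum_bool, rowT_add, rowT_smul]
    linear_combination
      rowT x ws (fun l => rowT y ws (fun l => F (true :: l)) true l) true cs * ybe' w x y a b c true true true
      + rowT x ws (fun l => rowT y ws (fun l => F (false :: l)) true l) true cs * ybe' w x y a b c true true false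
      + rowT x ws (fun l => rowT y ws (fun l => F (true :: l)) false l) true cs * ybe' w x y a b c true false true
      + rowT x ws (fun l => rowT y ws (fun l => F (false :: l)) false l) true cs * ybe' w x y a b c true false false
      + rowT x ws (fun l => rowT y ws (fun l => F (true :: l)) true l) false cs * ybe' w x y a b c false true true
      + rowT x ws (fun l => rowT y ws (fun l => F (false :: l)) true l) false cs * ybe' w x y a b c false true false
      + rowT x ws (fun l => rowT y ws (fun l => F (true :: l)) false l) false cs * ybe' w x y a b c false false true
      + rowT x ws (fun l => rowT y ws (fun l => F (false :: l)) false l) false cs * ybe' w x y a b c false false false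
      + ((L y w a c true true * L x w b true true true + L y w a c true false * L x w b false true true) * ih (fun l => F (true :: l)) true true cs
      + (L y w a c true true * L x w b true true false + L y w a c true false * L x w b false true false) * ih (fun l => F (false :: l)) true true cs
      + (L y w a c true true * L x w b true false true + L y w a c true false * L x w b false false true) * ih (fun l => F (true :: l)) true false cs
      + (L y w a c true true * L x w b true false false + L y w a c true false * L x w b false false false) * ih (fun l => F (false :: l)) true false cs
      + (L y w a c false true * L x w b true true true + L y w a c false false * L x w b false true true) * ih (fun l => F (true :: l)) false true cs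
      + (L y w a c false true * L x w b true true false + L y w a c false false * L x w b false true false) * ih (fun l => F (false :: l)) false true cs
      + (L y w a c false true * L x w b true false true + L y w a c false false * L x w b false false true) * ih (fun l => F (true :: l)) false false cs
      + (L y w a c false true * L x w b true false false + L y w a c false false * L x w b false false false) * ih (fun l => F (false :: l)) false false cs)
  | [], F, a, b, _ :: _ => by simp [rowT]
  | _ :: _, F, a, b, [] => by simp [rowT]


/-- the exchange relation at the position `p` -/
def EX (p : ℕ) (x y : R) (F1 F2 : List Bool → R) : Prop :=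
  ∀ cp : List Bool, cp.length = p → ∀ (a b : Bool) (cs : List Bool),
    ∑ a' : Bool, ∑ b' : Bool, Rm x y a b a' b' * F1 (cp ++ a' :: b' :: cs) =
      (1 - x + x * y) * F2 (cp ++ a :: b :: cs)

theorem EX_cons {p : ℕ} {x y : R} {F1 F2 : List Bool → R} (h : EX (p + 1) x y F1 F2) (c : Bool) :
    EX p x y (fun l => F1 (c :: l)) (fun l => F2 (c :: l)) := by
  intro cp hcp a b cs
  exact h (c :: cp) (by simp [hcp]) a b cs

theorem EX_row0 (w x y : R) (rest : List R) (F1 F2 : List Bool → R) (hF : EX 0 x y F1 F2)
    (h : Bool) : EX 0 x y (rowT w (x :: y :: rest) F1 h) (rowT w (y :: x :: rest) F2 h) := by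
  intro cp hcp a b cs
  rw [List.length_eq_zero_iff] at hcp
  subst hcp
  have ybe := ybe (R := R)
  have key : ∀ a1 b1 h2 : Bool, Rm x y a1 b1 true true *
        rowT w rest (fun l => F1 (true :: true :: l)) h2 cs +
      Rm x y a1 b1 true false * rowT w rest (fun l => F1 (true :: false :: l)) h2 cs +
      Rm x y a1 b1 false true * rowT w rest (fun l => F1 (false :: true :: l)) h2 cs +
      Rm x y a1 b1 false false * rowT w rest (fun l => F1 (false :: false :: l)) h2 cs =
      (1 - x + x * y) * rowT w rest (fun l => F2 (a1 :: b1 :: l)) h2 cs := by
    intro a1 b1 h2
    simp only [← rowT_smul, ← rowT_add]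
    congr 1
    funext l
    have h1 := hF [] rfl a1 b1 l
    simp only [Fintype.sum_bool, List.nil_append] at h1
    rw [← h1]
    ring
  simp only [Fintype.sum_bool] at ybe
  simp only [List.nil_append, rowT_cons, Fintype.sum_bool]
  linear_combination
    - (rowT w rest (fun l => F1 (true :: true :: l)) true cs * ybe w x y h a b true true true)
    - (rowT w rest (fun l => F1 (true :: false :: l)) true cs * ybe w x y h a b true true false)
    - (rowT w rest (fun l => F1 (false :: true :: l)) true cs * ybe w x y h a b true false true)
    - (rowT w rest (fun l => F1 (false :: false :: l)) true cs * ybe w x y h a b true false false)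
    - (rowT w rest (fun l => F1 (true :: true :: l)) false cs * ybe w x y h a b false true true)
    - (rowT w rest (fun l => F1 (true :: false :: l)) false cs * ybe w x y h a b false true false)
    - (rowT w rest (fun l => F1 (false :: true :: l)) false cs * ybe w x y h a b false false true)
    - (rowT w rest (fun l => F1 (false :: false :: l)) false cs * ybe w x y h a b false false false)
    + ((L w y h a true true * L w x true b true true + L w y h a false true * L w x false b true true) * key true true true
      + (L w y h a true true * L w x true b false true + L w y h a false true * L w x false b false true) * key true true false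
      + (L w y h a true true * L w x true b true false + L w y h a false true * L w x false b true false) * key true false true
      + (L w y h a true true * L w x true b false false + L w y h a false true * L w x false b false false) * key true false false
      + (L w y h a true false * L w x true b true true + L w y h a false false * L w x false b true true) * key false true true
      + (L w y h a true false * L w x true b false true + L w y h a false false * L w x false b false true) * key false true false
      + (L w y h a true false * L w x true b true false + L w y h a false false * L w x false b true false) * key false false true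
      + (L w y h a true false * L w x true b false false + L w y h a false false * L w x false b false false) * key false false false)

theorem EX_row (w x y : R) (rest : List R) : ∀ (pre : List R) (F1 F2 : List Bool → R)
    (_ : EX pre.length x y F1 F2) (h : Bool),
    EX pre.length x y (rowT w (pre ++ x :: y :: rest) F1 h) (rowT w (pre ++ y :: x :: rest) F2 h)
  | [], F1, F2, hF, h => EX_row0 w x y rest F1 F2 hF h
  | v :: pre, F1, F2, hF, h => by
    intro cp hcp a b cs
    rcases cp with _ | ⟨c, cp⟩
    · simp at hcp
    · have hcp' : cp.length = pre.length := by simpa using hcp
      have ih : ∀ h' c' : Bool, _ := fun h' c' =>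
        EX_row w x y rest pre _ _ (EX_cons hF c') h' cp hcp' a b cs
      simp only [Fintype.sum_bool] at ih
      simp only [List.cons_append, rowT_cons, Fintype.sum_bool]
      linear_combination L w v h c true true * ih true true + L w v h c true false * ih true false
        + L w v h c false true * ih false true + L w v h c false false * ih false false

/-- the partition function with incoming column states -/
def Z (s : R) : List R → List Bool → R
  | [], [] => 1
  | x :: xs, c :: cs => ∑ h : Bool, K s x c h * rowT x xs (Z s xs) h cs
  | [], _ :: _ => 0
  | _ :: _, [] => 0

theorem Z_cons (s x : R) (xs : List R) (c : Bool) (cs : List Bool) :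
    Z s (x :: xs) (c :: cs) = ∑ h : Bool, K s x c h * rowT x xs (Z s xs) h cs := rfl

theorem corner (s x y : R) (rest : List R) : EX 0 x y (Z s (x :: y :: rest)) (Z s (y :: x :: rest)) := by
  intro cp hcp a b cs
  rw [List.length_eq_zero_iff] at hcp
  subst hcp
  have refl_eq := refl_eq (R := R)
  have double := double (R := R)
  simp only [Fintype.sum_bool] at refl_eq double
  simp only [List.nil_append, Z_cons, rowT_cons, Fintype.sum_bool, rowT_add, rowT_smul]
  linear_combination
    rowT x rest (fun l => rowT y rest (Z s rest) true l) true cs * refl_eq s x y a b true true
    + rowT x rest (fun l => rowT y rest (Z s rest) false l) true cs * refl_eq s x y a b true false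
    + rowT x rest (fun l => rowT y rest (Z s rest) true l) false cs * refl_eq s x y a b false true
    + rowT x rest (fun l => rowT y rest (Z s rest) false l) false cs * refl_eq s x y a b false false
    + ((K s y a true * L y x true b true true * K s x true true + K s y a true * L y x true b true false * K s x false true + K s y a false * L y x false b true true * K s x true true + K s y a false * L y x false b true false * K s x false true) * double x y rest (Z s rest) true true cs
      + (K s y a true * L y x true b true true * K s x true false + K s y a true * L y x true b true false * K s x false false + K s y a false * L y x false b true true * K s x true false + K s y a false * L y x false b true false * K s x false false) * double x y rest (Z s rest) true false cs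
      + (K s y a true * L y x true b false true * K s x true true + K s y a true * L y x true b false false * K s x false true + K s y a false * L y x false b false true * K s x true true + K s y a false * L y x false b false false * K s x false true) * double x y rest (Z s rest) false true cs
      + (K s y a true * L y x true b false true * K s x true false + K s y a true * L y x true b false false * K s x false false + K s y a false * L y x false b false true * K s x true false + K s y a false * L y x false b false false * K s x false false) * double x y rest (Z s rest) false false cs)

theorem exchange (s x y : R) (rest : List R) : ∀ pre : List R,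
    EX pre.length x y (Z s (pre ++ x :: y :: rest)) (Z s (pre ++ y :: x :: rest))
  | [] => corner s x y rest
  | w :: pre => by
    intro cp hcp a b cs
    rcases cp with _ | ⟨c, cp⟩
    · simp at hcp
    · have hcp' : cp.length = pre.length := by simpa using hcp
      have ih : ∀ h : Bool, _ := fun h =>
        EX_row w x y rest pre _ _ (exchange s x y rest pre) h cp hcp' a b cs
      simp only [Fintype.sum_bool] at ih
      simp only [List.cons_append, Z_cons, Fintype.sum_bool]
      linear_combination K s w c true * ih true + K s w c false * ih false

end ring

end Pool.Agent.L7h56.OS
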