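import Pool.Agent.L7h56.OS.SixV

/-!
# The partition function is symmetric
-/

set_option autoImplicit false

namespace Pool.Agent.L7h56.OS

section ring

variable {R : Type*} [CommRing R]

theorem L_map {S : Type*} [CommRing S] (φ : R →+* S) (x y : R) (h c h' c' : Bool) :
    φ (L x y h c h' c') = L (φ x) (φ y) h c h' c' := by
  cases h <;> cases c <;> cases h' <;> cases c' <;> simp [L, g]

theorem K_map {S : Type*} [CommRing S] (φ : R →+* S) (s x : R) (c h : Bool) :
    φ (K s x c h) = K (φ s) (φ x) c h := by
  cases c <;> cases h <;> simp [K, g, map_ofNat]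

theorem rowT_map {S : Type*} [CommRing S] (φ : R →+* S) (x : R) : ∀ (ys : List R)
    (F : List Bool → R) (h : Bool) (cs : List Bool),
    φ (rowT x ys F h cs) = rowT (φ x) (ys.map φ) (fun l => φ (F l)) h cs
  | [], F, h, [] => by cases h <;> simp [rowT]
  | y :: ys, F, h, c :: cs => by
    simp only [List.map_cons, rowT_cons, map_sum, map_mul, L_map, rowT_map φ x ys]
  | [], _, h, _ :: _ => by simp [rowT]
  | _ :: _, _, h, [] => by simp [rowT]

theorem Z_map {S : Type*} [CommRing S] (φ : R →+* S) (s : R) : ∀ (xs : List R) (cs : List Bool),
    φ (Z s xs cs) = Z (φ s) (xs.map φ) cs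
  | [], [] => by simp [Z]
  | x :: xs, c :: cs => by
    simp only [List.map_cons, Z_cons, map_sum, map_mul, K_map, rowT_map]
    simp only [Z_map φ s xs]
  | [], _ :: _ => by simp [Z]
  | _ :: _, [] => by simp [Z]

/-- the partition function -/
def Zz (s : R) (l : List R) : R := Z s l (List.replicate l.length false)

theorem Zz_map {S : Type*} [CommRing S] (φ : R →+* S) (s : R) (l : List R) :
    φ (Zz s l) = Zz (φ s) (l.map φ) := by
  unfold Zz
  rw [Z_map, List.length_map]

theorem exchange_zero (s x y : R) (pre rest : List R) :
    (1 - x + x * y) * Zz s (pre ++ x :: y :: rest) = (1 - x + x * y) * Zz s (pre ++ y :: x :: rest) := by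
  have h := exchange s x y rest pre (List.replicate pre.length false) (by simp) false false
    (List.replicate rest.length false)
  simp only [Fintype.sum_bool, Rm, cond_true, cond_false, zero_mul, zero_add, add_zero] at h
  have e : ∀ z w : R, List.replicate pre.length false ++ false :: false ::
      List.replicate rest.length false = List.replicate (pre ++ z :: w :: rest).length false := by
    intro z w
    rw [show false :: false :: List.replicate rest.length false =
      List.replicate (rest.length + 2) false by rfl, ← List.replicate_add]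
    congr 1
    simp
  unfold Zz
  rw [← e x y, ← e y x]
  exact h

theorem Zz_swap [IsDomain R] (s x y : R) (pre rest : List R) :
    Zz s (pre ++ x :: y :: rest) = Zz s (pre ++ y :: x :: rest) := by
  have h := exchange_zero (Polynomial.C s) (Polynomial.X) (Polynomial.C y)
    (pre.map Polynomial.C) (rest.map Polynomial.C)
  have hne : (1 - Polynomial.X + Polynomial.X * Polynomial.C y : Polynomial R) ≠ 0 := by
    intro h0
    have := congrArg (Polynomial.eval 0) h0
    simp at this
  have h1 := mul_left_cancel₀ hne h
  have h2 := congrArg (Polynomial.evalRingHom x) h1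
  rw [Zz_map, Zz_map] at h2
  simpa [List.map_append, Function.comp_def] using h2

theorem Zz_perm_aux [IsDomain R] (s : R) {l1 l2 : List R} (h : l1.Perm l2) :
    ∀ pre : List R, Zz s (pre ++ l1) = Zz s (pre ++ l2) := by
  induction h with
  | nil => intro pre; rfl
  | cons x _ ih =>
    intro pre
    have := ih (pre ++ [x])
    simpa using this
  | swap x y l =>
    intro pre
    exact Zz_swap s y x pre l
  | trans _ _ ih1 ih2 =>
    intro pre
    exact (ih1 pre).trans (ih2 pre)

theorem Zz_perm [IsDomain R] (s : R) {l1 l2 : List R} (h : l1.Perm l2) : Zz s l1 = Zz s l2 :=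
  Zz_perm_aux s h []

end ring

end Pool.Agent.L7h56.OS
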