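import Pool.Agent.L7h56.OS.Mat

/-!
# Evaluation of the kernel at nilpotent elements
-/

set_option autoImplicit false

namespace Pool.Agent.L7h56.OS

section te

variable {A B : Type*} [CommRing A] [CommRing B]

/-- truncated evaluation -/
noncomputable def te (n : ℕ) (f : A →+ B) (t : B) (g : PowerSeries A) : B :=
  ∑ a ∈ Finset.range n, f (PowerSeries.coeff a g) * t ^ a

/-- truncated evaluation is additive -/
noncomputable def teHom (n : ℕ) (f : A →+ B) (t : B) : PowerSeries A →+ B where
  toFun := te n f t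
  map_zero' := by simp [te]
  map_add' g h := by simp [te, add_mul, Finset.sum_add_distrib]

theorem teHom_apply (n : ℕ) (f : A →+ B) (t : B) (g : PowerSeries A) :
    teHom n f t g = te n f t g := rfl

theorem te_X (n : ℕ) (f : A →+ B) (t : B) (ht : t ^ n = 0) (g : PowerSeries A) :
    te n f t (PowerSeries.X * g) = t * te n f t g := by
  unfold te
  rcases n with _ | n
  · simp
  · rw [Finset.sum_range_succ', Finset.sum_range_succ, mul_add, Finset.mul_sum]
    have e : t * (f (PowerSeries.coeff n g) * t ^ n) = 0 := by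
      have : t * (f (PowerSeries.coeff n g) * t ^ n) = f (PowerSeries.coeff n g) * t ^ (n + 1) := by
        ring
      rw [this, ht, mul_zero]
    rw [e, PowerSeries.coeff_zero_X_mul, map_zero, zero_mul]
    congr 1
    apply Finset.sum_congr rfl
    intro a _
    rw [PowerSeries.coeff_succ_X_mul]
    ring

theorem te_C (n : ℕ) (f : A →+ B) (t : B) (a : A) (b : B) (h : ∀ c, f (a * c) = b * f c)
    (g : PowerSeries A) : te n f t (PowerSeries.C a * g) = b * te n f t g := by
  unfold te
  rw [Finset.mul_sum]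
  apply Finset.sum_congr rfl
  intro k _
  rw [PowerSeries.coeff_C_mul, h]
  ring

theorem te_one (n : ℕ) (hn : 1 ≤ n) (f : A →+ B) (t : B) : te n f t 1 = f 1 := by
  unfold te
  rw [Finset.sum_eq_single 0]
  · simp
  · intro a _ ha
    simp [PowerSeries.coeff_one, ha]
  · intro h
    simp at h
    omega

end te

variable {B : Type*} [CommRing B] [Algebra ℚ B]

/-- the additive map underlying `algebraMap` -/
noncomputable def am (B : Type*) [CommRing B] [Algebra ℚ B] : ℚ →+ B := (algebraMap ℚ B).toAddMonoidHom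

theorem am_apply (q : ℚ) : am B q = algebraMap ℚ B q := rfl

/-- evaluation of iterated series -/
noncomputable def ev (n : ℕ) (s t : B) : N →+ B := teHom n (teHom n (am B) t) s

theorem ev_x (n : ℕ) (s t : B) (hs : s ^ n = 0) (G : N) : ev n s t (x * G) = s * ev n s t G :=
  te_X n _ s hs G

theorem ev_y (n : ℕ) (s t : B) (ht : t ^ n = 0) (G : N) : ev n s t (y * G) = t * ev n s t G :=
  te_C n _ s PowerSeries.X t (fun c => te_X n _ t ht c) G

theorem ev_one (n : ℕ) (hn : 1 ≤ n) (s t : B) : ev n s t 1 = 1 := by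
  have h1 : ev n s t 1 = teHom n (am B) t 1 := te_one n hn _ s
  have h2 : teHom n (am B) t 1 = am B 1 := te_one n hn _ t
  rw [h1, h2, am_apply, map_one]

/-- the truncated kernel at nilpotent elements -/
theorem ev_F (n : ℕ) (hn : 1 ≤ n) (s t : B) (hs : s ^ n = 0) (ht : t ^ n = 0) :
    (1 - s * t) * (1 - s - t) * ev n s t F = t - s := by
  have h := congrArg (ev n s t) F_mul
  have e : (1 - x * y) * (1 - x - y) * F = F - x * F - y * F - x * (y * F) + x * (x * (y * F))
      + x * (y * (y * F)) := by ring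
  have e2 : (y - x : N) = y * 1 - x * 1 := by ring
  rw [e, e2] at h
  simp only [map_add, map_sub, ev_x n s t hs, ev_y n s t ht, ev_one n hn] at h
  linear_combination h

theorem ev_F_eq (n : ℕ) (s t : B) : ev n s t F = ∑ a : Fin n, ∑ b : Fin n,
    s ^ (a : ℕ) * algebraMap ℚ B (c a b) * t ^ (b : ℕ) := by
  have h1 : ev n s t F = ∑ a ∈ Finset.range n, (∑ b ∈ Finset.range n,
      am B (PowerSeries.coeff b (PowerSeries.coeff a F)) * t ^ b) * s ^ a := rfl
  rw [h1, ← Fin.sum_univ_eq_sum_range (fun a => (∑ b ∈ Finset.range n,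
      am B (PowerSeries.coeff b (PowerSeries.coeff a F)) * t ^ b) * s ^ a)]
  apply Finset.sum_congr rfl
  intro a _
  rw [← Fin.sum_univ_eq_sum_range (fun b =>
      am B (PowerSeries.coeff b (PowerSeries.coeff a F)) * t ^ b), Finset.sum_mul]
  apply Finset.sum_congr rfl
  intro b _
  rw [coeff_F, am_apply]
  ring

theorem geom2 (n : ℕ) (s : B) (hs : s ^ n = 0) :
    (1 - 2 * s) * ∑ a : Fin n, s ^ (a : ℕ) * algebraMap ℚ B (2 ^ (a : ℕ)) = 1 := by
  have h := mul_neg_geom_sum (2 * s) n
  rw [mul_pow, hs, mul_zero, sub_zero] at h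
  rw [← Fin.sum_univ_eq_sum_range (fun a => (2 * s) ^ a)] at h
  refine Eq.trans ?_ h
  refine congrArg (fun z => (1 - 2 * s) * z) ?_
  apply Finset.sum_congr rfl
  intro a _
  rw [mul_pow, map_pow, map_ofNat]
  ring

end Pool.Agent.L7h56.OS
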