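import Pool.Agent.L7h56.OS.Rec
import Pool.Agent.Helper929.Pfaffian

/-!
# Pfaffians, Vandermonde products and symmetric products of tuples
-/

set_option autoImplicit false

namespace Pool.Agent.L7h56.OS

open Pool.Agent.Helper929 (pf pf_gram pf_map)

section ring

variable {R : Type*} [CommRing R]

/-- the weight product of a pair -/
def ab (x y : R) : R := (1 - x * y) * (1 - x - y)

theorem ab_comm (x y : R) : ab x y = ab y x := by unfold ab; ring

/-- `∏ ab x y` -/
def pab (x : R) (l : List R) : R := (l.map (ab x)).prod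

/-- the product of the weights of all pairs -/
def AB : List R → R
  | [] => 1
  | x :: l => pab x l * AB l

/-- `∏ (1 - 2 x)` -/
def kp (l : List R) : R := (l.map fun x => 1 - 2 * x).prod

theorem pab_cons (x y : R) (l : List R) : pab x (y :: l) = ab x y * pab x l := by simp [pab]

theorem pab_perm (x : R) {l1 l2 : List R} (h : l1.Perm l2) : pab x l1 = pab x l2 :=
  (h.map _).prod_eq

theorem kp_perm {l1 l2 : List R} (h : l1.Perm l2) : kp l1 = kp l2 := (h.map _).prod_eq

theorem kp_cons (x : R) (l : List R) : kp (x :: l) = (1 - 2 * x) * kp l := by simp [kp]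

theorem AB_perm {l1 l2 : List R} (h : l1.Perm l2) : AB l1 = AB l2 := by
  induction h with
  | nil => rfl
  | cons x h ih => rw [AB, AB, ih, pab_perm x h]
  | swap x y l =>
    simp only [AB, pab_cons]
    rw [ab_comm y x]
    ring
  | trans _ _ ih1 ih2 => exact ih1.trans ih2

/-- the Vandermonde product -/
def V {n : ℕ} (x : Fin n → R) : R := ∏ i, ∏ j ∈ Finset.Ioi i, (x j - x i)

theorem V_cons {n : ℕ} (y : R) (x : Fin n → R) :
    V (Fin.cons y x : Fin (n + 1) → R) = (∏ k, (x k - y)) * V x := by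
  unfold V
  rw [Fin.prod_univ_succ]
  congr 1
  · rw [Fin.prod_Ioi_zero]
    simp
  · apply Finset.prod_congr rfl
    intro i _
    rw [Fin.prod_Ioi_succ]
    simp

theorem comp_cycle {α : Type*} {n : ℕ} (x : Fin (n + 1) → α) (i : Fin (n + 1)) :
    x ∘ i.cycleRange.symm = (Fin.cons (x i) (x ∘ i.succAbove) : Fin (n + 1) → α) := by
  funext k
  refine Fin.cases ?_ (fun k => ?_) k
  · simp [Fin.cycleRange_symm_zero]
  · simp [Fin.cycleRange_symm_succ]

theorem V_remove {n : ℕ} (x : Fin (n + 1) → R) (i : Fin (n + 1)) :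
    V x = (-1) ^ (i : ℕ) * ((∏ k, (x (i.succAbove k) - x i)) * V (x ∘ i.succAbove)) := by
  have h1 : V (x ∘ i.cycleRange.symm) = (-1) ^ (i : ℕ) * V x := by
    have e1 : V (x ∘ i.cycleRange.symm) = (Matrix.vandermonde (x ∘ i.cycleRange.symm)).det := by
      rw [Matrix.det_vandermonde]; rfl
    have e2 : V x = (Matrix.vandermonde x).det := by rw [Matrix.det_vandermonde]; rfl
    rw [e1, e2]
    have e3 : Matrix.vandermonde (x ∘ i.cycleRange.symm) =
        (Matrix.vandermonde x).submatrix i.cycleRange.symm id := by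
      ext a b
      simp [Matrix.vandermonde]
    rw [e3, Matrix.det_permute]
    have e4 : Equiv.Perm.sign i.cycleRange.symm = (-1) ^ (i : ℕ) := by
      rw [Equiv.Perm.sign_symm, Fin.sign_cycleRange]
    rw [e4]
    simp
  rw [comp_cycle, V_cons] at h1
  have h2 : ((-1 : R) ^ (i : ℕ)) * (-1) ^ (i : ℕ) = 1 := by
    rw [← pow_add, ← two_mul, pow_mul]; simp
  calc V x = ((-1 : R) ^ (i : ℕ)) * (((-1) ^ (i : ℕ)) * V x) := by rw [← mul_assoc, h2, one_mul]
    _ = _ := by rw [← h1]; simp

theorem ofFn_cons' {α : Type*} {n : ℕ} (y : α) (x : Fin n → α) :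
    List.ofFn (Fin.cons y x : Fin (n + 1) → α) = y :: List.ofFn x := by
  simp [List.ofFn_succ]

theorem ofFn_perm {α : Type*} {n : ℕ} (x : Fin (n + 1) → α) (i : Fin (n + 1)) :
    (List.ofFn x).Perm (x i :: List.ofFn (x ∘ i.succAbove)) := by
  rw [← ofFn_cons', ← comp_cycle]
  exact (Equiv.Perm.ofFn_comp_perm _ _).symm

theorem pab_ofFn {n : ℕ} (y : R) (x : Fin n → R) : pab y (List.ofFn x) = ∏ k, ab y (x k) := by
  unfold pab
  rw [List.map_ofFn, List.prod_ofFn]
  rfl

theorem pA_ofFn {n : ℕ} (y : R) (x : Fin n → R) : pA y (List.ofFn x) = ∏ k, (1 - y * x k) := by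
  unfold pA
  rw [List.map_ofFn, List.prod_ofFn]
  rfl

end ring

section fld

variable {F : Type*} [Field F]

/-- the kernel -/
def fk (x y : F) : F := (y - x) / ab x y

/-- the kernel with a border `none` -/
def fo : Option F → Option F → F
  | some x, some y => fk x y
  | some x, none => (1 - 2 * x)⁻¹
  | none, some y => -(1 - 2 * y)⁻¹
  | none, none => 0

theorem fo_skew (u v : Option F) : fo u v = - fo v u := by
  rcases u with _ | x <;> rcases v with _ | y
  · simp [fo]
  · simp [fo]
  · simp [fo]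
  · simp only [fo, fk]
    rw [ab_comm y x, ← neg_div, neg_sub]

/-- the matrix of a tuple -/
def Mt {n : ℕ} (v : Fin n → Option F) : Matrix (Fin n) (Fin n) F := fun i j => fo (v i) (v j)

theorem pf_expand (n : ℕ) (a : Option F) (v : Fin (n + 1) → Option F) :
    pf (n + 2) (Mt (Fin.cons a v : Fin (n + 2) → Option F)) =
      ∑ j : Fin (n + 1), (-1) ^ (j : ℕ) * fo a (v j) * pf n (Mt (v ∘ j.succAbove)) := by
  rw [pf]
  apply Finset.sum_congr rfl
  intro j _
  congr 1

theorem pf_repeat [CharZero F] (n : ℕ) (a : Option F) (v : Fin (n + 1) → Option F)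
    (j : Fin (n + 1)) (h : v j = a) : pf (n + 2) (Mt (Fin.cons a v : Fin (n + 2) → Option F)) = 0 := by
  set w : Fin (n + 2) → Option F := Fin.cons a v with hw
  set A := Mt w with hA
  have hsk : ∀ i k, A i k = - A k i := fun i k => fo_skew _ _
  set σ : Equiv.Perm (Fin (n + 2)) := Equiv.swap 0 j.succ with hσ
  have hwσ : w ∘ σ = w := by
    funext k
    simp only [Function.comp_apply, hσ]
    rcases eq_or_ne k 0 with rfl | h0
    · rw [Equiv.swap_apply_left]
      simp [hw, h]
    · rcases eq_or_ne k j.succ with rfl | h1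
      · rw [Equiv.swap_apply_right]
        simp [hw, h]
      · rw [Equiv.swap_apply_of_ne_of_ne h0 h1]
  have h1 := pf_gram A hsk (σ.permMatrix F)
  have h2 : σ.permMatrix F * A * (σ.permMatrix F).transpose = A := by
    have h3 : σ.permMatrix F * A * (σ.permMatrix F).transpose = A.submatrix σ σ := by
      rw [Matrix.transpose_permMatrix, Equiv.Perm.permMatrix, Equiv.Perm.permMatrix,
        PEquiv.toMatrix_toPEquiv_mul, PEquiv.mul_toMatrix_toPEquiv]
      rfl
    rw [h3]
    ext i k
    show fo (w (σ i)) (w (σ k)) = fo (w i) (w k)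
    have e1 := congrFun hwσ i
    have e2 := congrFun hwσ k
    simp only [Function.comp_apply] at e1 e2
    rw [e1, e2]
  rw [h2, Matrix.det_permutation, hσ, Equiv.Perm.sign_swap (Fin.succ_ne_zero j).symm] at h1
  have h4 : (2 : F) * pf (n + 2) A = 0 := by
    push_cast at h1
    linear_combination h1
  rcases mul_eq_zero.1 h4 with h5 | h5
  · exact absurd h5 two_ne_zero
  · exact h5

end fld

end Pool.Agent.L7h56.OS
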